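import Pool.Agent.Lib.L8.FU.P0

/-!
# FU, P1 (helper80): heights and the torus; the product formula

`al_Hw`: `α_k(H_w(t y)) = log |α_k(t)|_w + α_k(H_w(y))`; `Fe_torus`: `F_e(t y) = ∏_k (∏_v |α_k(t)|_v) ^ (-e_k) F_e(y)`.
-/

namespace Pool.Agent.Lib.L8.FU

set_option linter.unusedSectionVars false

open Matrix NumberField IsDedekindDomain Pool.Agent.Lib.H89N Pool.Agent.Lib.H33W Pool.Agent.Lib.H67G Pool.Agent.Lib.L1S Pool.Agent.Lib.L8.FL

noncomputable section

variable {ι M N : Type} [Fintype ι] [DecidableEq ι] [AddCommGroup M] [Module ℚ M] [AddCommGroup N] [Module ℚ N]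
  {P : RootPairing ι ℚ M N} [P.IsCrystallographic] [P.IsReduced] [P.IsIrreducible] [P.IsRootSystem]

variable {b : P.Base} {K : Type} [Field K] [NumberField K]

/-! ## 1. The fundamental weights -/

/-- The bijection `Φ_j → T_j`, `β ↦ -β`. -/
theorem sum_Tn {A : Type} [AddCommMonoid A] (j : b.support) (f : I b → A) : ∑ r : Tn b j, f r.1 = ∑ β ∈ Phi b j, f (Sum.inr (P.reflectionPerm β β)) := by
  have hng : ∀ β, P.reflectionPerm (P.reflectionPerm β β) (P.reflectionPerm β β) = β := by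
    intro β
    apply P.root.injective
    rw [P.root_reflectionPerm, P.reflection_apply_self, P.root_reflectionPerm, P.reflection_apply_self, neg_neg]
  refine Finset.sum_bij' (fun r _ => match r.1 with | Sum.inl _ => (P.reflectionPerm j j) | Sum.inr β => P.reflectionPerm β β) (fun β hβ => ⟨Sum.inr (P.reflectionPerm β β), by
      have h := (d1_neg_phi (b := b) (j := j) (γ := P.reflectionPerm β β)).1 (by rw [hng]; exact hβ)
      exact h⟩) ?_ ?_ ?_ ?_ ?_
  · rintro ⟨r, hr⟩ _
    rcases r with i | β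
    · exact absurd hr (by simp [wq])
    · exact d1_neg_phi.2 hr
  · intro β _
    exact Finset.mem_univ _
  · rintro ⟨r, hr⟩ _
    rcases r with i | β
    · exact absurd hr (by simp [wq])
    · exact Subtype.ext (congrArg Sum.inr (hng β))
  · intro β hβ
    exact hng β
  · rintro ⟨r, hr⟩ _
    rcases r with i | β
    · exact absurd hr (by simp [wq])
    · show f (Sum.inr β) = f (Sum.inr (P.reflectionPerm (P.reflectionPerm β β) (P.reflectionPerm β β)))
      rw [hng]

/-- `∑_k (coefficient of α_k in ∑ Φ_j) ⟨α_k, α_l^∨⟩ = c_j δ_jl`. -/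
theorem phi_pair (j l : b.support) : ∑ k, (∑ β ∈ Phi b j, mc b k (Sum.inr β)) * b.cartanMatrix k l = if j = l then cw b j else 0 := by
  have h1 : ∑ β ∈ Phi b j, P.pairingIn ℤ β l = if j = l then cw b j else 0 := by
    have h2 : ∑ r : Tn b j, pj b l r.1 = ∑ β ∈ Phi b j, pj b l (Sum.inr (P.reflectionPerm β β)) := sum_Tn j fun r => pj b l r
    have h3 : ∀ β : ι, pj b l (Sum.inr (P.reflectionPerm β β)) = -P.pairingIn ℤ β l := by
      intro β
      show P.pairingIn ℤ (P.reflectionPerm β β) l = -P.pairingIn ℤ β l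
      exact P.pairingIn_reflectionPerm_self_left ℤ β l
    rw [Finset.sum_congr rfl fun β _ => h3 β, Finset.sum_neg_distrib] at h2
    by_cases hjl : j = l
    · subst hjl
      rw [if_pos rfl]
      unfold cw
      rw [h2, neg_neg]
    · rw [if_neg hjl]
      rw [cw_off (fun h => hjl h.symm)] at h2
      omega
  rw [← h1]
  rw [Finset.sum_congr rfl fun k _ => Finset.sum_mul _ _ _, Finset.sum_comm]
  exact Finset.sum_congr rfl fun β _ => (d5_pairing b β l).symm

/-- `∑_k om_jk ⟨α_k, α_l^∨⟩ = δ_jl`. -/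
theorem om_cartan (j l : b.support) : ∑ k, om b j k * (b.cartanMatrix k l : ℝ) = if j = l then 1 else 0 := by
  have hc : (0 : ℝ) < ((cw b j : ℤ) : ℝ) := by exact_mod_cast cw_pos j
  have h1 : ∑ k, om b j k * (b.cartanMatrix k l : ℝ) = ((∑ k, (∑ β ∈ Phi b j, mc b k (Sum.inr β)) * b.cartanMatrix k l : ℤ) : ℝ) / ((cw b j : ℤ) : ℝ) := by
    push_cast
    rw [Finset.sum_div]
    refine Finset.sum_congr rfl fun k _ => ?_
    unfold om
    ring
  rw [h1, phi_pair]
  by_cases h : j = l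
  · rw [if_pos h, if_pos h, div_self hc.ne']
  · rw [if_neg h, if_neg h, Int.cast_zero, zero_div]

/-- `∑_j ⟨α_i, α_j^∨⟩ om_jk = δ_ik`. -/
theorem cartan_om (i k : b.support) : ∑ j, (b.cartanMatrix i j : ℝ) * om b j k = if i = k then 1 else 0 := by
  classical
  set A : Matrix b.support b.support ℝ := Matrix.of fun i j => (b.cartanMatrix i j : ℝ) with hA
  set B : Matrix b.support b.support ℝ := Matrix.of fun j k => om b j k with hB
  have h1 : B * A = 1 := by
    ext j l
    rw [Matrix.mul_apply, Matrix.one_apply]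
    exact om_cartan j l
  have h2 : A * B = 1 := mul_eq_one_comm.1 h1
  have h3 := congrFun (congrFun h2 i) k
  rw [Matrix.mul_apply, Matrix.one_apply] at h3
  exact h3

/-! ## 2. Heights -/

theorem evw_norm (w : InfinitePlace K) (x : K) : ‖evw w (mixedEmbedding K x)‖ = w x := by
  unfold evw
  by_cases h : w.IsReal
  · rw [dif_pos h]
    show ‖Complex.ofRealHom ((mixedEmbedding K x).1 ⟨w, h⟩)‖ = w x
    have h1 : ‖(mixedEmbedding K x).1 ⟨w, h⟩‖ = w x := by
      rw [mixedEmbedding.mixedEmbedding_apply_isReal]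
      exact InfinitePlace.norm_embedding_of_isReal h x
    rw [← h1]
    exact Complex.norm_real _
  · rw [dif_neg h]
    show ‖(mixedEmbedding K x).2 ⟨w, InfinitePlace.not_isReal_iff_isComplex.1 h⟩‖ = w x
    rw [mixedEmbedding.mixedEmbedding_apply_isComplex]
    exact InfinitePlace.norm_embedding_eq w x

variable {H : Subgroup (GK b K)}

theorem Nj_mem_ne (w : InfinitePlace K) (y : HRt H) (j : b.support) : Nj b ℂ j (y.1.1.1.map (evw w)) ≠ 0 :=
  Nj_ne j (Matrix.GeneralLinearGroup.map (evw w) y.1.1)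

/-- `H_w(t y)_j = H_w(y)_j + ∑_k om_jk log |α_k(t)|_w`. -/
theorem Hw_torus (w : InfinitePlace K) {t : H} (ht : t.1 ∈ TK b K) (y : HRt H) (j : b.support) :
    Hw w (embH H t * y) j = Hw w y j + ∑ k, om b j k * Real.log (w (tv b K t.1 k)) := by
  classical
  have hc : (0 : ℝ) < ((cw b j : ℤ) : ℝ) := by exact_mod_cast cw_pos j
  set d : I b → ℂ := fun r => evw w (mixedEmbedding K (t.1.1.1 r r)) with hd
  have hmat : (embH H t * y).1.1.1.map (evw w) = Matrix.diagonal d * (y.1.1.1.map (evw w)) := by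
    have h1 : (embH H t * y).1.1.1 = (t.1.1.1.map (mixedEmbedding K)) * y.1.1.1 := rfl
    rw [h1, Matrix.map_mul]
    congr 1
    ext r c
    rw [Matrix.map_apply, Matrix.map_apply]
    by_cases h : r = c
    · subst h
      rw [Matrix.diagonal_apply_eq]
    · rw [Matrix.diagonal_apply_ne _ h, (ht r c h).1, map_zero, map_zero]
  have hsub : ((Matrix.diagonal d).submatrix (fun r : Tn b j => r.1) (fun r : Tn b j => r.1)).det = ∏ r : Tn b j, d r.1 := by
    rw [Matrix.submatrix_diagonal _ _ Subtype.val_injective, Matrix.det_diagonal]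
    rfl
  have hN : Nj b ℂ j (Matrix.diagonal d * (y.1.1.1.map (evw w))) = (∏ r : Tn b j, d r.1) * Nj b ℂ j (y.1.1.1.map (evw w)) * star (∏ r : Tn b j, d r.1) := by
    rw [ig16_N, hsub]
    intro r c hr hc
    rw [Matrix.diagonal_apply_ne]
    rintro rfl
    exact hc hr
  have hdn : ∀ r, ‖d r‖ = w (t.1.1.1 r r) := fun r => evw_norm w _
  have hd0 : ∀ r, 0 < w (t.1.1.1 r r) := fun r => InfinitePlace.pos_iff.2 (tk_ne ht r)
  have hP : ‖∏ r : Tn b j, d r.1‖ = ∏ r : Tn b j, w (t.1.1.1 r.1 r.1) := by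
    rw [norm_prod]
    exact Finset.prod_congr rfl fun r _ => hdn r.1
  have hP0 : (0 : ℝ) < ∏ r : Tn b j, w (t.1.1.1 r.1 r.1) := Finset.prod_pos fun r _ => hd0 r.1
  have hX0 : 0 < ‖Nj b ℂ j (y.1.1.1.map (evw w))‖ := norm_pos_iff.2 (Nj_mem_ne w y j)
  have hlog : Real.log (∏ r : Tn b j, w (t.1.1.1 r.1 r.1)) = -((cw b j : ℤ) : ℝ) * ∑ k, om b j k * Real.log (w (tv b K t.1 k)) := by
    rw [Real.log_prod (fun r _ => (hd0 r.1).ne')]
    have h1 : ∑ r : Tn b j, Real.log (w (t.1.1.1 r.1 r.1)) = ∑ β ∈ Phi b j, Real.log (w (t.1.1.1 (Sum.inr (P.reflectionPerm β β)) (Sum.inr (P.reflectionPerm β β)))) :=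
      sum_Tn j fun r => Real.log (w (t.1.1.1 r r))
    have h2 : ∀ β, Real.log (w (t.1.1.1 (Sum.inr (P.reflectionPerm β β)) (Sum.inr (P.reflectionPerm β β)))) = -∑ k, (mc b k (Sum.inr β) : ℝ) * Real.log (w (tv b K t.1 k)) := by
      intro β
      have h3 := (tk_abs ht w.1).2 (P.reflectionPerm β β)
      have h4 : w (t.1.1.1 (Sum.inr (P.reflectionPerm β β)) (Sum.inr (P.reflectionPerm β β))) = ∏ k, w (tv b K t.1 k) ^ mc b k (Sum.inr (P.reflectionPerm β β)) := h3
      have h5 : ∀ k, w (tv b K t.1 k) ≠ 0 := fun k => (InfinitePlace.pos_iff.2 (tk_ne ht _)).ne'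
      rw [h4, Real.log_prod (fun k _ => zpow_ne_zero _ (h5 k)), ← Finset.sum_neg_distrib]
      refine Finset.sum_congr rfl fun k _ => ?_
      rw [Real.log_zpow, d7_mc_neg]
      push_cast
      ring
    rw [h1, Finset.sum_congr rfl fun β _ => h2 β, Finset.sum_neg_distrib, Finset.sum_comm, neg_mul, Finset.mul_sum]
    congr 1
    refine Finset.sum_congr rfl fun k _ => ?_
    rw [← Finset.sum_mul]
    unfold om
    field_simp
  unfold Hw
  rw [hmat, hN, norm_mul, norm_mul, norm_star, hP, Real.log_mul (mul_pos hP0 hX0).ne' hP0.ne', Real.log_mul hP0.ne' hX0.ne', hlog]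
  field_simp
  ring

/-- `α_i(H_w(t y)) = log |α_i(t)|_w + α_i(H_w(y))`. -/
theorem al_Hw (w : InfinitePlace K) {t : H} (ht : t.1 ∈ TK b K) (y : HRt H) (i : b.support) :
    al (cA b) i (Hw w (embH H t * y)) = Real.log (w (tv b K t.1 i)) + al (cA b) i (Hw w y) := by
  unfold al
  have h1 : ∀ j, ((cA b i j : ℤ) : ℝ) * Hw w (embH H t * y) j = (cA b i j : ℝ) * Hw w y j + ∑ k, ((b.cartanMatrix i j : ℝ) * om b j k) * Real.log (w (tv b K t.1 k)) := by
    intro j
    rw [Hw_torus w ht y j, mul_add, Finset.mul_sum]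
    congr 1
    refine Finset.sum_congr rfl fun k _ => ?_
    unfold cA
    ring
  rw [Finset.sum_congr rfl fun j _ => h1 j, Finset.sum_add_distrib, Finset.sum_comm]
  have h2 : ∀ k, ∑ j, ((b.cartanMatrix i j : ℝ) * om b j k) * Real.log (w (tv b K t.1 k)) = if i = k then Real.log (w (tv b K t.1 k)) else 0 := by
    intro k
    rw [← Finset.sum_mul, cartan_om]
    by_cases h : i = k
    · rw [if_pos h, if_pos h, one_mul]
    · rw [if_neg h, if_neg h, zero_mul]
  rw [Finset.sum_congr rfl fun k _ => h2 k, Finset.sum_ite_eq Finset.univ i, if_pos (Finset.mem_univ i)]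
  ring

/-- `α_i(H(t y)) = ∑_w d_w log |α_i(t)|_w + α_i(H(y))`. -/
theorem al_Ht {t : H} (ht : t.1 ∈ TK b K) (y : HRt H) (i : b.support) :
    al (cA b) i (Ht (embH H t * y)) = ∑ w : InfinitePlace K, (w.mult : ℝ) * Real.log (w (tv b K t.1 i)) + al (cA b) i (Ht y) := by
  have h1 : ∀ z : HRt H, al (cA b) i (Ht z) = ∑ w : InfinitePlace K, (w.mult : ℝ) * al (cA b) i (Hw w z) := by
    intro z
    unfold al Ht
    rw [Finset.sum_congr rfl fun j _ => Finset.mul_sum _ _ _, Finset.sum_comm]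
    refine Finset.sum_congr rfl fun w _ => ?_
    rw [Finset.mul_sum]
    exact Finset.sum_congr rfl fun j _ => by ring
  rw [h1, h1, ← Finset.sum_add_distrib]
  exact Finset.sum_congr rfl fun w _ => by rw [al_Hw w ht y i, mul_add]

/-- **The product formula** over `HeightOneSpectrum`. -/
theorem prod_formula {x : K} (hx : x ≠ 0) : ∑ w : InfinitePlace K, (w.mult : ℝ) * Real.log (w x) = -Real.log (∏ᶠ v : HeightOneSpectrum (𝓞 K), av v x) := by
  have h1 := prod_abs_eq_one (K := K) hx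
  have h2 : ∏ᶠ w : FinitePlace K, w x = ∏ᶠ v : HeightOneSpectrum (𝓞 K), av v x := by
    rw [← finprod_comp_equiv FinitePlace.equivHeightOneSpectrum.symm]
    refine finprod_congr fun v => ?_
    rw [FinitePlace.equivHeightOneSpectrum_symm_apply]
    exact FinitePlace.norm_embedding v x
  rw [h2] at h1
  have hpos : 0 < ∏ w : InfinitePlace K, w x ^ w.mult := Finset.prod_pos fun w _ => pow_pos (InfinitePlace.pos_iff.2 hx) _
  have h3 : ∏ᶠ v : HeightOneSpectrum (𝓞 K), av v x = (∏ w : InfinitePlace K, w x ^ w.mult)⁻¹ := eq_inv_of_mul_eq_one_right h1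
  rw [h3, Real.log_inv, neg_neg, Real.log_prod (fun w _ => (pow_pos (InfinitePlace.pos_iff.2 hx) _).ne')]
  exact Finset.sum_congr rfl fun w _ => by rw [Real.log_pow]

theorem finprod_av_pos {x : K} (hx : x ≠ 0) : 0 < ∏ᶠ v : HeightOneSpectrum (𝓞 K), av v x := by
  refine finprod_induction (fun z : ℝ => 0 < z) one_pos (fun _ _ => mul_pos) fun v => (av v).pos hx

/-- **`F_e` and the torus**: `F_e(t y) = ∏_k (∏_v |α_k(t)|_v) ^ (-e_k) F_e(y)`. -/
theorem Fe_torus (e : b.support → ℝ) {t : H} (ht : t.1 ∈ TK b K) (y : HRt H) :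
    Fe e (embH H t * y) = (∏ k, (∏ᶠ v : HeightOneSpectrum (𝓞 K), av v (tv b K t.1 k)) ^ (-e k)) * Fe e y := by
  have h1 : ∀ k, (∏ᶠ v : HeightOneSpectrum (𝓞 K), av v (tv b K t.1 k)) ^ (-e k) = Real.exp (e k * ∑ w : InfinitePlace K, (w.mult : ℝ) * Real.log (w (tv b K t.1 k))) := by
    intro k
    have hx : tv b K t.1 k ≠ 0 := tk_ne ht _
    rw [prod_formula hx, Real.rpow_def_of_pos (finprod_av_pos hx)]
    congr 1
    ring
  rw [Finset.prod_congr rfl fun k _ => h1 k, ← Real.exp_sum]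
  unfold Fe
  rw [← Real.exp_add, ← Finset.sum_add_distrib]
  congr 1
  exact Finset.sum_congr rfl fun k _ => by rw [al_Ht ht y k, mul_add]

end

end Pool.Agent.Lib.L8.FU
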