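import Pool.Agent.Lib.L8.FU.U2

/-!
# FU, U3: the mean of the sum over the pairs `(τ, u)`
-/

namespace Pool.Agent.Lib.L8.FU

open MeasureTheory Pool.Agent.Lib.H33W Pool.Agent.Lib.H67G Pool.Agent.Lib.L1S
open scoped ENNReal

noncomputable section

set_option linter.unusedSectionVars false

variable {T H S : Type} [Group T] [Group H] [MulAction H T]

/-- The measures of the semidirect product. -/
structure Msr [MeasurableSpace T] (k : H →* T) (π : T →* T) (q : H →* H) (ν νV νM : Measure T) : Prop where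
  mπ : Measurable π
  mt : Measurable fun t : T => t * (π t)⁻¹
  fV : SFinite νV
  fM : SFinite νM
  prod : ν = (νV.prod νM).map fun p => p.1 * p.2
  left : ∀ g : H, MeasurePreserving (fun t : T => g • t) ν ν
  aV : ∀ᵐ v ∂νV, π v = 1
  aM : ∀ᵐ m ∂νM, π m = m
  lV : ∀ g ∈ q.ker, MeasurePreserving (fun t : T => g • t) νV νV
  cV : ∀ m, π m = m → MeasurePreserving (fun t : T => m⁻¹ * t * m) νV νV

variable {k : H →* T} {π : T →* T} {q : H →* H}

/-- **The mean of the sum over the pairs.** -/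
theorem pairs_mean [MeasurableSpace T] [MeasurableMul₂ T] [Countable H] [Countable S] (hP : Prj k π q) {ν νV νM : Measure T} (hM : Msr k π q ν νV νM) {Γ : Subgroup H} {D'' D' D : Set T}
    (sV : SF (Γ ⊓ q.ker) D'') (sM : SF (Γ.map q) D') (sD : SF Γ D) (v0 : νV D'' ≠ 0) (vt : νV D'' ≠ ⊤)
    {X : S → Set H} (hX1 : ∀ τ, X τ ⊆ q.ker) (hX2 : ∀ τ, ∀ u ∈ X τ, ∀ δ ∈ Γ ⊓ q.ker, u * δ ∈ X τ) (hX3 : ∀ τ, ∀ u ∈ X τ, ∀ γ ∈ Γ, (q γ)⁻¹ * u * γ ∈ X τ)
    {φ : S → T → ℝ≥0∞} (mφ : ∀ τ, Measurable (φ τ)) (iφ : ∀ τ m t, π m = m → φ τ (m * t) = φ τ t) :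
    ∫⁻ t in D, ∑' τ, ∑' u : H, (X τ).indicator 1 u * φ τ (k u * t) ∂ν ≤ (∑' τ, nC (Γ ⊓ q.ker) (X τ) * ∫⁻ v, φ τ v ∂νV) / νV D'' * ν D := by
  have := hM.fV
  have := hM.fM
  have mu : ∀ τ (u : H), Measurable fun t : T => (X τ).indicator 1 u * φ τ (k u * t) := fun τ u => ((mφ τ).comp (measurable_const_mul (k u))).const_mul _
  have ms : ∀ τ, Measurable fun t : T => ∑' u : H, (X τ).indicator 1 u * φ τ (k u * t) := fun τ => Measurable.tsum fun u => mu τ u
  have mΦ : Measurable fun t : T => ∑' τ, ∑' u : H, (X τ).indicator 1 u * φ τ (k u * t) := Measurable.tsum ms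
  refine mean_prod hP hM.mπ hM.mt sV sM sD hM.prod hM.left hM.aV hM.aM mΦ ?_ ?_
  · intro γ hγ t
    refine tsum_congr fun τ => ?_
    obtain ⟨e, he⟩ : ∃ e : H ≃ H, ∀ u, e u = (q γ)⁻¹ * u * γ := ⟨(Equiv.mulLeft (q γ)⁻¹).trans (Equiv.mulRight γ), fun u => rfl⟩
    rw [← e.tsum_eq fun u => (X τ).indicator 1 u * φ τ (k u * t)]
    refine tsum_congr fun u => ?_
    have h1 : (e u ∈ X τ) ↔ u ∈ X τ := by
      refine ⟨fun h => ?_, fun h => by rw [he]; exact hX3 τ u h γ hγ⟩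
      have h2 := hX3 τ _ h γ⁻¹ (Γ.inv_mem hγ)
      rw [he, map_inv, inv_inv] at h2
      convert h2 using 1
      group
    have h2 : φ τ (k (e u) * t) = φ τ (k u * (γ • t)) := by
      have h3 : k u * (γ • t) = k (q γ) * (k (e u) * t) := by
        rw [hP.act, he]
        simp only [map_mul, map_inv, mul_assoc, mul_inv_cancel_left]
      rw [h3, iφ τ (k (q γ)) (k (e u) * t) (by rw [← hP.cpt, hP.idem])]
    rw [h2]
    by_cases h : u ∈ X τ
    · rw [Set.indicator_of_mem h, Set.indicator_of_mem (h1.2 h)]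
      rfl
    · rw [Set.indicator_of_notMem h, Set.indicator_of_notMem fun h' => h (h1.1 h')]
  · intro m hm
    have e1 : ∫⁻ v in D'', ∑' τ, ∑' u : H, (X τ).indicator 1 u * φ τ (k u * (v * m)) ∂νV = ∑' τ, nC (Γ ⊓ q.ker) (X τ) * ∫⁻ v, φ τ v ∂νV := by
      have h0 : ∀ τ, Measurable fun v : T => ∑' u : H, (X τ).indicator 1 u * φ τ (k u * (v * m)) := fun τ => (ms τ).comp (measurable_mul_const m)
      rw [lintegral_tsum fun τ => (h0 τ).aemeasurable]
      refine tsum_congr fun τ => ?_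
      have h1 := fibre hP.act sV (hX2 τ) (fun g hg => hM.lV g hg.2) (fun g hg => hM.lV g (hX1 τ hg)) (mφ τ) m
      refine h1.trans ?_
      congr 1
      have h2 := (hM.cV m hm).lintegral_comp (mφ τ)
      rw [← h2]
      refine lintegral_congr fun v => ?_
      rw [← iφ τ m (m⁻¹ * v * m) hm]
      congr 1
      group
    rw [ENNReal.div_mul_cancel v0 vt]
    exact e1.le

/-- The sum over the cosets `u Λ` of elements `u` of `V`. -/
def cC (Λ : Subgroup H) (G : H → ℝ≥0∞) : ℝ≥0∞ := ∑' c : H ⧸ Λ, G (Quotient.out c)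

/-- **Grouping by the cosets.** -/
theorem pairs_le {Λ : Subgroup H} {X L : S → Set H} {κ : ℝ≥0∞} (hk : ∀ τ, nC Λ (X τ) ≤ κ * nC Λ (L τ)) {I : S → ℝ≥0∞} {G : H → ℝ≥0∞}
    (hG : ∀ u, ∑' τ, (L τ).indicator 1 u * I τ ≤ G u) : ∑' τ, nC Λ (X τ) * I τ ≤ κ * cC Λ G := by
  calc ∑' τ, nC Λ (X τ) * I τ ≤ ∑' τ, κ * (nC Λ (L τ) * I τ) := ENNReal.tsum_le_tsum fun τ => by
        rw [← mul_assoc]
        exact mul_le_mul_left (hk τ) _
    _ = κ * ∑' τ, ∑' c : H ⧸ Λ, (L τ).indicator 1 (Quotient.out c) * I τ := by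
        rw [ENNReal.tsum_mul_left]
        congr 1
        refine tsum_congr fun τ => ?_
        rw [ENNReal.tsum_mul_right]
        rfl
    _ = κ * ∑' c : H ⧸ Λ, ∑' τ, (L τ).indicator 1 (Quotient.out c) * I τ := by
        rw [ENNReal.tsum_comm]
    _ ≤ κ * cC Λ G := mul_le_mul_right (ENNReal.tsum_le_tsum fun c => hG _) _

end

end Pool.Agent.Lib.L8.FU
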