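import Pool.Agent.Lib.L8.FU.M2
import Pool.Agent.Lib.L8.FL.C5J

/-!
# FU, V1 (helper33): the measures on `N_J` and `U_M` for the projections `piU`, `qU`
-/

namespace Pool.Agent.Lib.L8.FU

set_option linter.unusedSectionVars false

open MeasureTheory Matrix NumberField IsDedekindDomain Pool.Agent.Lib.H89N Pool.Agent.Lib.H33W Pool.Agent.Lib.H67G Pool.Agent.Lib.L1S Pool.Agent.Lib.L8.FL Pool.Agent.Lib.L8.FC
open scoped ENNReal

noncomputable section

variable {ι M N : Type} [Fintype ι] [DecidableEq ι] [AddCommGroup M] [Module ℚ M] [AddCommGroup N] [Module ℚ N]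
  {P : RootPairing ι ℚ M N} [P.IsCrystallographic] [P.IsReduced] [P.IsIrreducible] [P.IsRootSystem]

variable {b : P.Base} {K : Type} [Field K] [NumberField K] {H : Subgroup (GK b K)}

theorem v1_me (H : Subgroup (GK b K)) : MeasurableEmbedding (Subtype.val : UHR H → HRt H) := c5j_me H

/-- The image of the restriction to `U` of a Haar measure of `N_J`. -/
theorem comap_map {J : Finset b.support} {ν0 : Measure (HRt H)} (h0 : RH (NoH H J) ν0) : (ν0.comap (Subtype.val : UHR H → HRt H)).map (Subtype.val : UHR H → HRt H) = ν0 := by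
  rw [(v1_me H).map_comap]
  have e : Set.range (Subtype.val : UHR H → HRt H) = (UHR H : Set (HRt H)) := Subtype.range_coe
  rw [e]
  refine Measure.restrict_eq_self_of_ae_mem ?_
  filter_upwards [h0.ae] with x hx
  exact hx.1

/-- The restriction to `U` of a Haar measure of `N_J`. -/
theorem comap_RH (hT : H = ⊤) {J : Finset b.support} {ν0 : Measure (HRt H)} (h0 : RH (NoH H J) ν0) : RH (piU hT J).ker (ν0.comap (Subtype.val : UHR H → HRt H)) := by
  have hmap := comap_map h0
  have hM := v1_me H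
  obtain ⟨μ, hμ⟩ : ∃ μ : Measure (UHR H), μ = ν0.comap (Subtype.val : UHR H → HRt H) := ⟨_, rfl⟩
  rw [← hμ] at hmap ⊢
  refine ⟨?_, fun C hC => ?_, fun hz => ?_, fun v hv => ?_⟩
  · have h1 : ∀ᵐ x ∂(μ.map (Subtype.val : UHR H → HRt H)), x ∈ NoH H J := by
      rw [hmap]
      exact h0.ae
    rw [hM.ae_map_iff] at h1
    filter_upwards [h1] with x hx
    exact (piU_ker hT J x).2 hx
  · rw [hμ, hM.comap_apply]
    exact h0.fin _ (hC.image continuous_subtype_val)
  · apply h0.ne
    rw [← hmap, hz, Measure.map_zero]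
  · have e1 : (μ.map fun x => x * v).map (Subtype.val : UHR H → HRt H) = μ.map (Subtype.val : UHR H → HRt H) := by
      rw [Measure.map_map hM.measurable (measurable_mul_const _)]
      have e : (Subtype.val : UHR H → HRt H) ∘ (fun x : UHR H => x * v) = (fun x : HRt H => x * (v : HRt H)) ∘ (Subtype.val : UHR H → HRt H) := rfl
      rw [e, ← Measure.map_map (measurable_mul_const _) hM.measurable, hmap]
      exact h0.inv _ ((piU_ker hT J v).1 hv)
    have e2 := congrArg (Measure.comap (Subtype.val : UHR H → HRt H)) e1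
    rw [hM.comap_map, hM.comap_map] at e2
    exact e2

/-- **(V1b)** the integrals over the restriction. -/
theorem lint_comap {J : Finset b.support} {ν0 : Measure (HRt H)} (h0 : RH (NoH H J) ν0) (f : HRt H → ℝ≥0∞) :
    ∫⁻ v : UHR H, f (v : HRt H) ∂(ν0.comap (Subtype.val : UHR H → HRt H)) = ∫⁻ x, f x ∂ν0 := by
  have h1 := (v1_me H).lintegral_map (μ := ν0.comap (Subtype.val : UHR H → HRt H)) f
  rw [comap_map h0] at h1
  exact h1.symm

/-- **(V1a)** the measures of the semidirect product. Conjugation by every element of `U` preserves the measure on `N_J`. -/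
theorem exists_msr (hT : H = ⊤) (J : Finset b.support) {ν0 : Measure (HRt H)} (h0 : RH (NoH H J) ν0) (ν : Measure (UHR H)) [ν.IsHaarMeasure] :
    ∃ νM : Measure (UHR H), Msr (kUH H) (piU hT J) (qU hT J) ν (ν0.comap (Subtype.val : UHR H → HRt H)) νM := by
  have hH : ∀ g : GR b K, g ∈ HRs H := HRs_top hT
  have hπ := piU_cont (H := H) hT J
  have hP := prjU (H := H) hT J
  obtain ⟨φ, m, hm, p1, p2, p3, p4⟩ := c5i_phi hH
  have hc : ∀ x, piU hT J (φ x) = φ (piU hT J x) := by
    intro x
    refine UHR_ext (Matrix.ext fun r c => ?_)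
    rw [p3, piU_val, piU_val]
    show (if dJ b J r = dJ b J c then (φ x).1.1.1.1 r c else 0) = ((2 : ℝ) ^ (-(m * (ht b r - ht b c)))) • (if dJ b J r = dJ b J c then x.1.1.1.1 r c else 0)
    split_ifs with h1
    · exact p3 x r c
    · rw [smul_zero]
  obtain ⟨νV, νM, k1, k2, k3, k4, k5⟩ := c5h_split hπ (piU_idem hT J) φ p1 p2 p4 hc ν
  have k0 := comap_RH hT h0
  obtain ⟨μ, hμ⟩ : ∃ μ : Measure (UHR H), μ = ν0.comap (Subtype.val : UHR H → HRt H) := ⟨_, rfl⟩
  rw [← hμ] at k0 ⊢
  have c1 : IsClosed ((piU hT J).ker : Set (UHR H)) := by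
    have e : ((piU hT J).ker : Set (UHR H)) = piU hT J ⁻¹' {1} := by
      ext x
      exact Iff.rfl
    rw [e]
    exact isClosed_singleton.preimage hπ
  obtain ⟨a, a0, a1, ha⟩ := rh_uniq c1 k1 k0
  obtain ⟨a', a0', a1', ha'⟩ := rh_uniq c1 k0 k1
  have s0 : SigmaFinite μ := rh_sigma k0
  have s2 : SigmaFinite νM := rh_sigma k2
  have kM : RH (piU hT J).range (a • νM) := rh_smul k2 a0 a1
  have s3 : SigmaFinite (a • νM) := rh_sigma kM
  have hconj : ∀ g : UHR H, μ.map (fun x => g * x * g⁻¹) = μ := by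
    intro g
    rw [ha', Measure.map_smul, k4]
  have hleft : ∀ g ∈ (piU hT J).ker, μ.map (fun x => g * x) = μ := by
    intro g hg
    rw [ha', Measure.map_smul, k5 g hg]
  refine ⟨a • νM, ⟨hπ.measurable, (continuous_id.mul hπ.inv).measurable, inferInstance, inferInstance, ?_, fun g => th2_hp H ν g, ?_, ?_, fun g hg => ?_, fun m hm => ?_⟩⟩
  · rw [Measure.prod_smul_right, k3, ha, Measure.prod_smul_left]
  · filter_upwards [k0.ae] with v hv
    exact hv
  · filter_upwards [kM.ae] with v hv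
    obtain ⟨y, rfl⟩ := hv
    exact hP.idem y
  · refine ⟨measurable_const_mul (kUH H g), hleft _ ?_⟩
    rw [MonoidHom.mem_ker, hP.cpt, (MonoidHom.mem_ker).1 hg, map_one]
  · have h1 := hconj m⁻¹
    rw [inv_inv] at h1
    exact ⟨(by fun_prop : Continuous fun t : UHR H => m⁻¹ * t * m).measurable, h1⟩

end

end Pool.Agent.Lib.L8.FU
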