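import Pool.Agent.Lib.L8.FU.P1
import Pool.Agent.Lib.L8.FL.C5A

/-!
# FU, D: definitions for C3 (the unfolding of the exceptional cells)

`H : Subgroup (GK b L)` (used for `H = ⊤`), `Γ₁ : Subgroup H`, `ga gb : H` two members of the family of the Hecke elements, `za = ga⁻¹`, `zb = gb⁻¹`, `n` = the representative `nW b L Lw` of `w = w_J`.
`γ = u' τ n u` with `u' ∈ U(K)`, `τ ∈ T(K)`, `u ∈ N_J(K)`; the classes `(cjG Γ₁ ga ∩ U) γ`, `γ ∈ Zs Γ₁ ga gb`, are the pairs `(τ, u)`, `u ∈ XX τ`.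
-/

namespace Pool.Agent.Lib.L8.FU

set_option linter.unusedSectionVars false

open MeasureTheory Matrix NumberField IsDedekindDomain Pool.Agent.Lib.H89N Pool.Agent.Lib.H33W Pool.Agent.Lib.H67G Pool.Agent.Lib.L1S Pool.Agent.Lib.L8.FL
open scoped ENNReal

noncomputable section

variable {ι M N : Type} [Fintype ι] [DecidableEq ι] [AddCommGroup M] [Module ℚ M] [AddCommGroup N] [Module ℚ N]
  {P : RootPairing ι ℚ M N} [P.IsCrystallographic] [P.IsReduced] [P.IsIrreducible] [P.IsRootSystem]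

variable {b : P.Base} {L : Type} [Field L] [NumberField L] (H : Subgroup (GK b L))

/-- The rational torus elements of `H`. -/
abbrev TH : Type := {τ : H // τ.1 ∈ TK b L}

variable {H}

/-- `X_τ`: the `u ∈ N_J(K)` such that `u' τ n u ∈ ga⁻¹ Γ₁ gb` for some `u' ∈ U(K)`. -/
def XX (J : Finset b.support) (n : H) (Γ₁ : Subgroup H) (ga gb : H) (τ : TH H) : Set (HUH H) :=
  {u | u.1.1 ∈ NJ b L J ∧ ∃ u' ∈ HUH H, ga * (u' * τ.1 * n * u.1) * gb⁻¹ ∈ Γ₁}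

/-- `L_τ`: the level conditions at `n u gb⁻¹` and the heights of `τ n u gb⁻¹` are those of `ga⁻¹`. -/
def LL (J : Finset b.support) (𝔫 : Ideal (𝓞 L)) (A : Finset b.support) (n ga gb : H) (τ : TH H) : Set (HUH H) :=
  {u | u.1.1 ∈ NJ b L J ∧ (∀ j ∈ A, Chi b 𝔫 j (n.1 * u.1.1 * gb.1⁻¹)) ∧
    ∀ v k, av v (tv b L τ.1.1 k) * Ah b v (n.1 * u.1.1 * gb.1⁻¹) k = Ah b v ga.1⁻¹ k}

/-- `I_τ(y) = ∫_(N_∞) (F_e 1_S)(τ n v y) dv`. -/
def IT (S : Set (HRt H)) (e : b.support → ℝ) (n : H) (νV : Measure (UHR H)) (y : HRt H) (τ : TH H) : ℝ≥0∞ :=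
  ∫⁻ v, S.indicator (fun z => ENNReal.ofReal (Fe e z)) (embH H (τ.1 * n) * ((v : HRt H) * y)) ∂νV

open scoped Classical in
/-- The bound for the sum over `τ`. -/
def GT (𝔫 : Ideal (𝓞 L)) (A : Finset b.support) (e : b.support → ℝ) (n ga gb : H) (M : ℝ≥0∞) (νV : Measure (UHR H)) (y : HRt H) (u : HUH H) : ℝ≥0∞ :=
  if ∀ j ∈ A, Chi b 𝔫 j (n.1 * u.1.1 * gb.1⁻¹) then
    ENNReal.ofReal (fe b e (n.1 * u.1.1 * gb.1⁻¹) / fe b e ga.1⁻¹) * M * ∫⁻ v, ENNReal.ofReal (Fe e (embH H n * ((v : HRt H) * y))) ∂νV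
  else 0

end

end Pool.Agent.Lib.L8.FU
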