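import Pool.Agent.Lib.L8.FU.D
import Pool.Agent.Lib.L8.F2.R0

/-!
# FU, K1 (helper80): `X_τ ⊆ Xt ⊆ Lt`

`ga (u' τ n u) gb⁻¹ = γ ∈ Γ₁ ≤ G1(𝔫)` gives `u' τ n u = z γ z'⁻¹`, `z = ga⁻¹`, `z' = gb⁻¹`; so `n u z' = (u' τ)⁻¹ z γ`: the level conditions hold because `z ∈ K_v(𝔫)` at the places `v` which divide `𝔫` and `(u' τ)⁻¹ ∈ B(K) ⊆ P_j`, and
`|α_k(τ)|_v |n u z'|_(v, k) = |τ n u z'|_(v, k) = |u'⁻¹ z γ|_(v, k) = |z|_(v, k)`.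
-/

namespace Pool.Agent.Lib.L8.FU

set_option linter.unusedSectionVars false

open MeasureTheory Matrix NumberField IsDedekindDomain Pool.Agent.Lib.H89N Pool.Agent.Lib.H33W Pool.Agent.Lib.H67G Pool.Agent.Lib.L1S Pool.Agent.Lib.L8.FL
open scoped ENNReal

noncomputable section

variable {ι M N : Type} [Fintype ι] [DecidableEq ι] [AddCommGroup M] [Module ℚ M] [AddCommGroup N] [Module ℚ N]
  {P : RootPairing ι ℚ M N} [P.IsCrystallographic] [P.IsReduced] [P.IsIrreducible] [P.IsRootSystem]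

variable {b : P.Base} {L : Type} [Field L] [NumberField L] {H : Subgroup (GK b L)}

/-- `X_τ ⊆ Xt`, for two members of the family. -/
theorem XX_sub_Xt {J : Finset b.support} {Lw : List b.support} {𝔫 : Ideal (𝓞 L)} {n : H} (hn : n.1 = nW b L Lw) {Γ₁ : Subgroup H} (hG : ∀ g ∈ Γ₁, g.1 ∈ G1 b 𝔫) (ga gb : H) (τ : TH H) {u : HUH H}
    (hu : u ∈ XX J n Γ₁ ga gb τ) : u.1.1 ∈ F2.Xt b L J Lw 𝔫 (ga⁻¹).1 (gb⁻¹).1 τ.1.1 := by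
  obtain ⟨h1, u', hu', h2⟩ := hu
  refine ⟨h1, u'.1, hu', (ga * (u' * τ.1 * n * u.1) * gb⁻¹).1, hG _ h2, ?_⟩
  rw [← hn]
  show (u' * τ.1 * n * u.1 : H).1 = (ga⁻¹ * (ga * (u' * τ.1 * n * u.1) * gb⁻¹) * (gb⁻¹)⁻¹ : H).1
  congr 1
  group

/-- `X_τ ⊆ Xt` (K1). -/
theorem XX_sub' {J : Finset b.support} {Lw : List b.support} {𝔫 : Ideal (𝓞 L)} {n : H} (hn : n.1 = nW b L Lw) {Γ₁ : Subgroup H} (hG : ∀ g ∈ Γ₁, g.1 ∈ G1 b 𝔫) (g : H) (τ : TH H) {u : HUH H}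
    (hu : u ∈ XX J n Γ₁ g g τ) : u.1.1 ∈ F2.Xt b L J Lw 𝔫 (g⁻¹).1 (g⁻¹).1 τ.1.1 := XX_sub_Xt hn hG g g τ hu

/-- `Xt ⊆ Lt`: the level conditions for all `k` and the heights. -/
theorem Xt_sub_Lt {J : Finset b.support} {Lw : List b.support} {𝔫 : Ideal (𝓞 L)} (h0 : 𝔫 ≠ ⊥) {z z' τ : GK b L} (hz : ∀ v : HeightOneSpectrum (𝓞 L), aI v 𝔫 ≠ 1 → z ∈ Kv b 𝔫 v) (hτ : τ ∈ TK b L) :
    F2.Xt b L J Lw 𝔫 z z' τ ⊆ F2.Lt b L J Lw 𝔫 z z' τ := by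
  rintro u ⟨hu, u', hu', γ, hγ, e⟩
  have e1 : τ * (nW b L Lw * u * z') = u'⁻¹ * (z * γ) := by
    have e2 : τ * (nW b L Lw * u * z') = u'⁻¹ * (u' * τ * nW b L Lw * u) * z' := by group
    rw [e2, e]
    group
  refine ⟨hu, fun k => ?_, fun v k => ?_⟩
  · rw [← FI.Chi_T b hτ, e1, FI.Chi_U b ((HU b L).inv_mem hu'), FI.Chi_right b h0 hγ]
    refine FI.Chi_mk b fun v hv => ⟨1, ?_, z, hz v hv, (one_mul z).symm⟩
    intro r c hrc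
    show (1 : Matrix (I b) (I b) L) r c = 0
    exact Matrix.one_apply_ne fun h => by rw [h] at hrc; exact lt_irrefl _ hrc
  · rw [← FI.Ah_T b v hτ, e1, FI.Ah_U b v ((HU b L).inv_mem hu'), FI.Ah_G1 b v h0 hγ]

/-- The coset sum is monotone. -/
theorem rs_mono {G : Type} [Group G] (A Λ : Subgroup G) {f g : G → ℝ≥0∞} (h : ∀ x ∈ A, f x ≤ g x) : rs A Λ f ≤ rs A Λ g := by
  classical
  unfold rs ce
  refine ENNReal.tsum_le_tsum fun c => ?_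
  by_cases hc : (Quotient.out c)⁻¹ ∈ (A : Set G)
  · rw [if_pos hc, if_pos hc]
    exact h _ (A.inv_mem hc)
  · rw [if_neg hc, if_neg hc]

/-- **Stage 1**: the hypothesis `(hκ)` of `tau_sum` with `κ = 1`. -/
theorem rs_Xt_le {J : Finset b.support} {Lw : List b.support} {𝔫 : Ideal (𝓞 L)} (h0 : 𝔫 ≠ ⊥) {z z' τ : GK b L} (hz : ∀ v : HeightOneSpectrum (𝓞 L), aI v 𝔫 ≠ 1 → z ∈ Kv b 𝔫 v) (hτ : τ ∈ TK b L)
    (Λ : Subgroup (GK b L)) {X : Set (GK b L)} (hX : X ⊆ F2.Xt b L J Lw 𝔫 z z' τ) :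
    rs (NJ b L J) Λ (X.indicator 1) ≤ 1 * rs (NJ b L J) Λ ((F2.Lt b L J Lw 𝔫 z z' τ).indicator 1) := by
  rw [one_mul]
  exact rs_mono _ _ fun x _ => Set.indicator_le_indicator_of_subset (hX.trans (Xt_sub_Lt h0 hz hτ)) (fun _ => zero_le) x

end

end Pool.Agent.Lib.L8.FU
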