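import Pool.Agent.Lib.L8.FU.D
import Pool.Agent.Lib.L1S.AN16

/-!
# FU, U8V (helper29): covolumes of commensurable groups
-/

namespace Pool.Agent.Lib.L8.FU

set_option linter.unusedSectionVars false

open MeasureTheory Matrix NumberField IsDedekindDomain Pool.Agent.Lib.H89N Pool.Agent.Lib.H33W Pool.Agent.Lib.H67G Pool.Agent.Lib.L1S Pool.Agent.Lib.L8.FL
open scoped ENNReal

noncomputable section

section abs

variable {H T : Type} [Group H] [MulAction H T] [MeasurableSpace T]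

/-- A strict fundamental domain of a subgroup. -/
theorem sf_sub [Countable H] {G G' : Subgroup H} (hle : G' ≤ G) (hm : ∀ g ∈ G, Measurable fun x : T => g • x) {D : Set T} (hD : H33W.SF G D) : ∃ D' : Set T, H33W.SF G' D' := by
  have : Countable (G ⧸ G'.subgroupOf G) := Quotient.countable
  refine ⟨⋃ q : G ⧸ G'.subgroupOf G, (fun x : T => (q.out : G) • x) ⁻¹' D, ?_, fun x => ?_⟩
  · exact MeasurableSet.iUnion fun q => hm _ q.out.2 hD.meas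
  obtain ⟨g, hg, hg'⟩ := hD.fd x
  have hh : (QuotientGroup.mk g : G ⧸ G'.subgroupOf G).out⁻¹ * g ∈ G'.subgroupOf G := QuotientGroup.eq.1 (QuotientGroup.out_eq' _)
  have hh' : (((QuotientGroup.mk g : G ⧸ G'.subgroupOf G).out⁻¹ * g : G) : H) ∈ G' := hh
  refine ⟨⟨(((QuotientGroup.mk g : G ⧸ G'.subgroupOf G).out⁻¹ * g : G) : H), hh'⟩, ?_, fun γ hγ => ?_⟩
  · refine Set.mem_iUnion.2 ⟨QuotientGroup.mk g, ?_⟩
    show (QuotientGroup.mk g : G ⧸ G'.subgroupOf G).out • ((((QuotientGroup.mk g : G ⧸ G'.subgroupOf G).out⁻¹ * g : G) : H) • x) ∈ D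
    have e : (QuotientGroup.mk g : G ⧸ G'.subgroupOf G).out • ((((QuotientGroup.mk g : G ⧸ G'.subgroupOf G).out⁻¹ * g : G) : H) • x) = g • x := by
      show ((QuotientGroup.mk g : G ⧸ G'.subgroupOf G).out : H) • ((((QuotientGroup.mk g : G ⧸ G'.subgroupOf G).out⁻¹ * g : G) : H) • x) = (g : H) • x
      rw [smul_smul]
      congr 1
      rw [Subgroup.coe_mul, Subgroup.coe_inv, mul_inv_cancel_left]
    rw [e]
    exact hg
  · obtain ⟨q, hq⟩ := Set.mem_iUnion.1 hγ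
    have hq1 : q.out • (γ • x) ∈ D := hq
    have hγG : (γ : H) ∈ G := hle γ.2
    have e1 : (q.out * ⟨γ.1, hγG⟩ : G) • x ∈ D := by
      have e2 : (q.out * ⟨γ.1, hγG⟩ : G) • x = q.out • (γ • x) := by
        show ((q.out : H) * γ.1) • x = (q.out : H) • ((γ : H) • x)
        rw [smul_smul]
      rw [e2]
      exact hq1
    have e3 : q.out * ⟨γ.1, hγG⟩ = g := hg' _ e1
    have e4 : (QuotientGroup.mk g : G ⧸ G'.subgroupOf G) = q := by
      rw [← e3, ← QuotientGroup.out_eq' q]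
      refine QuotientGroup.eq.2 ?_
      rw [QuotientGroup.out_eq' q]
      have e5 : (q.out * ⟨γ.1, hγG⟩ : G)⁻¹ * q.out = (⟨γ.1, hγG⟩ : G)⁻¹ := by group
      rw [e5]
      exact inv_mem γ.2
    apply Subtype.ext
    show γ.1 = (((QuotientGroup.mk g : G ⧸ G'.subgroupOf G).out⁻¹ * g : G) : H)
    rw [e4, ← e3, inv_mul_cancel_left]

/-- **Covolumes of commensurable groups.** -/
theorem covol_abs [Countable H] {μ : Measure T} (V : Subgroup H) (hp : ∀ g ∈ V, MeasurePreserving (fun x : T => g • x) μ μ) {Λ Λ₀ : Subgroup H} (hΛ : Λ ≤ V) (hΛ₀ : Λ₀ ≤ V)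
    {D D₀ : Set T} (hD : H33W.SF Λ D) (hD₀ : H33W.SF Λ₀ D₀) (h1 : Λ.relIndex Λ₀ ≠ 0) (h2 : Λ₀.relIndex Λ ≠ 0) : (Λ₀.relIndex Λ : ℝ≥0∞) * μ D = (Λ.relIndex Λ₀ : ℝ≥0∞) * μ D₀ := by
  obtain ⟨E, hE⟩ := sf_sub (inf_le_left : Λ ⊓ Λ₀ ≤ Λ) (fun g hg => (hp g (hΛ hg)).measurable) hD
  have hsub : ∀ {A : Subgroup H} (hA : A ≤ V) {F : Set T} (hF : H33W.SF A F), H33W.SF (A.subgroupOf V) F := by
    intro A hA F hF
    refine ⟨hF.meas, fun x => ?_⟩
    obtain ⟨γ, h3, h4⟩ := hF.fd x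
    refine ⟨⟨⟨γ.1, hA γ.2⟩, γ.2⟩, h3, fun γ' h5 => ?_⟩
    have h6 := h4 ⟨γ'.1.1, γ'.2⟩ h5
    refine Subtype.ext (Subtype.ext ?_)
    exact (congrArg Subtype.val h6 : γ'.1.1 = γ.1)
  have hpV : ∀ g : V, MeasurePreserving (fun x : T => g • x) μ μ := fun g => hp g.1 g.2
  have a1 : (Λ ⊓ Λ₀).subgroupOf V ≤ Λ.subgroupOf V := fun x hx => hx.1
  have a2 : (Λ ⊓ Λ₀).subgroupOf V ≤ Λ₀.subgroupOf V := fun x hx => hx.2
  have b1 : ((Λ ⊓ Λ₀).subgroupOf V).relIndex (Λ.subgroupOf V) = Λ₀.relIndex Λ := by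
    rw [Subgroup.relIndex_subgroupOf hΛ, Subgroup.inf_relIndex_left]
  have b2 : ((Λ ⊓ Λ₀).subgroupOf V).relIndex (Λ₀.subgroupOf V) = Λ.relIndex Λ₀ := by
    rw [Subgroup.relIndex_subgroupOf hΛ₀, Subgroup.inf_relIndex_right]
  have c1 := u2_vol hpV a1 (hsub hΛ hD) (hsub (inf_le_left.trans hΛ) hE)
  have c2 := u2_vol hpV a2 (hsub hΛ₀ hD₀) (hsub (inf_le_left.trans hΛ) hE)
  rw [an_u2k (by rw [b1]; exact h2), b1] at c1
  rw [an_u2k (by rw [b2]; exact h1), b2] at c2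
  rw [← c1, c2]

end abs

end

end Pool.Agent.Lib.L8.FU
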