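import Pool.Agent.Lib.L8.FU.U2
import Pool.Agent.Lib.L8.FU.U8V
import Pool.Agent.Lib.L8.F2.R0
import Pool.Agent.Lib.H29F.FH3

/-!
# FU, U8 (helper29): the cosets in `G(K)`; commensurability of `Λ = N_J ∩ z Γ₁ z⁻¹` and `N_J(𝓞)`; the covolume of `Λ`
-/

namespace Pool.Agent.Lib.L8.FU

set_option linter.unusedSectionVars false

open MeasureTheory Matrix NumberField IsDedekindDomain Pool.Agent.Lib.H89N Pool.Agent.Lib.H33W Pool.Agent.Lib.H67G Pool.Agent.Lib.L1S Pool.Agent.Lib.L8.FL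
open scoped ENNReal

noncomputable section

variable {ι M N : Type} [Fintype ι] [DecidableEq ι] [AddCommGroup M] [Module ℚ M] [AddCommGroup N] [Module ℚ N]
  {P : RootPairing ι ℚ M N} [P.IsCrystallographic] [P.IsReduced] [P.IsIrreducible] [P.IsRootSystem]

variable {b : P.Base} {L : Type} [Field L] [NumberField L] {H : Subgroup (GK b L)}

variable (H) in
/-- The inclusion `U(K) → G(K)`. -/
def inU : HUH H →* GK b L := H.subtype.comp (HUH H).subtype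

theorem inU_apply (u : HUH H) : inU H u = u.1.1 := rfl

theorem inU_inj : Function.Injective (inU H) := fun _ _ h => Subtype.ext (Subtype.ext h)

/-- The number of cosets in `U(K)` and in `G(K)`. -/
theorem nC_rs {J : Finset b.support} {Λ : Subgroup (HUH H)} (hΛ : ∀ l ∈ Λ, l.1.1 ∈ NJ b L J) {X : Set (HUH H)} {Y : Set (GK b L)} (hXY : ∀ u ∈ X, u.1.1 ∈ NJ b L J ∧ u.1.1 ∈ Y)
    (hY : ∀ u ∈ Y, ∀ l ∈ Λ.map (inU H), u * l ∈ Y) : nC Λ X ≤ rs (NJ b L J) (Λ.map (inU H)) (Y.indicator 1) := by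
  classical
  unfold nC rs ce
  set Λ' := Λ.map (inU H) with hΛ'
  let φ : HUH H ⧸ Λ → GK b L ⧸ Λ' := fun c => QuotientGroup.mk (inU H (Quotient.out c))
  have hφ : Function.Injective φ := by
    intro c c' h
    have h1 : (inU H (Quotient.out c))⁻¹ * inU H (Quotient.out c') ∈ Λ' := QuotientGroup.eq.1 h
    rw [← map_inv, ← map_mul] at h1
    obtain ⟨l, hl, e⟩ := h1
    have h2 : (Quotient.out c)⁻¹ * Quotient.out c' ∈ Λ := by
      rw [← inU_inj e]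
      exact hl
    rw [← QuotientGroup.out_eq' c, ← QuotientGroup.out_eq' c']
    exact QuotientGroup.eq.2 h2
  refine le_trans (ENNReal.tsum_le_tsum fun c => ?_) (ENNReal.tsum_comp_le_tsum_of_injective hφ fun c' : GK b L ⧸ Λ' =>
    if (Quotient.out c')⁻¹ ∈ (NJ b L J : Set (GK b L)) then Y.indicator (1 : GK b L → ℝ≥0∞) ((Quotient.out c')⁻¹)⁻¹ else 0)
  by_cases hc : Quotient.out c ∈ X
  swap
  · rw [Set.indicator_of_notMem hc]
    exact zero_le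
  obtain ⟨h1, h2⟩ := hXY _ hc
  have h3 : (inU H (Quotient.out c))⁻¹ * Quotient.out (φ c) ∈ Λ' := by
    have h4 : (QuotientGroup.mk (inU H (Quotient.out c)) : GK b L ⧸ Λ') = QuotientGroup.mk (Quotient.out (φ c)) := (QuotientGroup.out_eq' (φ c)).symm
    exact QuotientGroup.eq.1 h4
  have h4 : Quotient.out (φ c) = inU H (Quotient.out c) * ((inU H (Quotient.out c))⁻¹ * Quotient.out (φ c)) := by group
  have h5 : Quotient.out (φ c) ∈ Y := by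
    rw [h4]
    exact hY _ h2 _ h3
  have h6 : Quotient.out (φ c) ∈ NJ b L J := by
    rw [h4]
    refine mul_mem h1 ?_
    obtain ⟨l, hl, e⟩ := h3
    rw [← e]
    exact hΛ l hl
  rw [Set.indicator_of_mem hc]
  show (1 : ℝ≥0∞) ≤ if (Quotient.out (φ c))⁻¹ ∈ (NJ b L J : Set (GK b L)) then Y.indicator (1 : GK b L → ℝ≥0∞) ((Quotient.out (φ c))⁻¹)⁻¹ else 0
  have h7 : (Quotient.out (φ c))⁻¹ ∈ (NJ b L J : Set (GK b L)) := inv_mem h6
  rw [if_pos h7, inv_inv, Set.indicator_of_mem h5]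
  exact le_refl _

/-! ## Discreteness and finite index -/

/-- `G1(𝓞) ∩ H` is discrete. -/
theorem dsc_G1 : Dsc H ((G1 b (⊤ : Ideal (𝓞 L))).subgroupOf H) := by
  refine dsc_sub H fun Q hQ => ?_
  refine t3_fin b (Γ := (G1 b (⊤ : Ideal (𝓞 L)) : Set (GK b L))) one_ne_zero (fun γ hγ i j => ?_) hQ
  obtain ⟨y, _, hy⟩ := (hγ i j).1
  by_cases h : i = j
  · subst h
    refine ⟨y + 1, ?_⟩
    rw [Matrix.sub_apply, Matrix.one_apply_eq] at hy
    have e : ((y + 1 : 𝓞 L) : L) = (y : L) + 1 := by simp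
    rw [Nat.cast_one, one_mul, e, hy, sub_add_cancel]
  · refine ⟨y, ?_⟩
    rw [Matrix.sub_apply, Matrix.one_apply_ne h, sub_zero] at hy
    rw [Nat.cast_one, one_mul]
    exact hy.symm

/-- A cocompact subgroup of a discrete group has finite index (in `U`). -/
theorem cch_idx {A B : Subgroup H} (hAB : A ≤ B) (hB : Dsc H B) (hA : CCH H A) : (A.subgroupOf (HUH H)).relIndex (B.subgroupOf (HUH H)) ≠ 0 := by
  obtain ⟨KT, hK, hcov⟩ := hA
  set AU := A.subgroupOf (HUH H)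
  set BU := B.subgroupOf (HUH H)
  have hK' : IsCompact ((fun x : UHR H => (x : HRt H)) '' KT) := hK.image continuous_subtype_val
  have hfin : {β : HUH H | β ∈ BU ∧ kUH H β ∈ KT}.Finite := by
    refine ((hB _ hK').preimage (f := fun γ : HUH H => (γ : H)) Subtype.val_injective.injOn).subset ?_
    rintro γ ⟨h1, h2⟩
    exact ⟨h1, kUH H γ, h2, rfl⟩
  have hF : Finite {β : HUH H | β ∈ BU ∧ kUH H β ∈ KT} := hfin
  let f : {β : HUH H | β ∈ BU ∧ kUH H β ∈ KT} → BU ⧸ AU.subgroupOf BU := fun β => QuotientGroup.mk ⟨β.1⁻¹, BU.inv_mem β.2.1⟩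
  have hf : Function.Surjective f := by
    intro q
    obtain ⟨β, rfl⟩ := QuotientGroup.mk_surjective q
    obtain ⟨δ, hδ, s, hs, e⟩ := hcov (kUH H β.1⁻¹)
    have hδ' : δ ∈ AU := hδ
    have hδB : δ ∈ BU := hAB hδ
    have h1 : kUH H (δ⁻¹ * β.1⁻¹) = s := by
      rw [map_mul, e, map_inv, inv_mul_cancel_left]
    have h2 : δ⁻¹ * β.1⁻¹ ∈ BU := BU.mul_mem (BU.inv_mem hδB) (BU.inv_mem β.2)
    refine ⟨⟨δ⁻¹ * β.1⁻¹, h2, by rw [h1]; exact hs⟩, ?_⟩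
    refine QuotientGroup.eq.2 ?_
    rw [Subgroup.mem_subgroupOf]
    have h3 : (((⟨(δ⁻¹ * β.1⁻¹)⁻¹, BU.inv_mem h2⟩ : BU)⁻¹ * β : BU) : HUH H) = δ⁻¹ := by
      show ((δ⁻¹ * β.1⁻¹)⁻¹)⁻¹ * β.1 = δ⁻¹
      rw [inv_inv, inv_mul_cancel_right]
    rw [h3]
    exact AU.inv_mem hδ'
  have hfin2 : Finite (BU ⧸ AU.subgroupOf BU) := Finite.of_surjective f hf
  exact Subgroup.index_ne_zero_of_finite

/-- `N_J(𝓞)` as a subgroup of `U(K)`. -/
def NO (H : Subgroup (GK b L)) (J : Finset b.support) : Subgroup (HUH H) := (NJ b L J ⊓ G1 b ⊤).comap (inU H)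

theorem mem_NO {J : Finset b.support} {u : HUH H} : u ∈ NO H J ↔ u.1.1 ∈ NJ b L J ∧ u.1.1 ∈ G1 b (⊤ : Ideal (𝓞 L)) := Iff.rfl

theorem map_NO (hT : H = ⊤) (J : Finset b.support) : (NO H J).map (inU H) = NJ b L J ⊓ G1 b ⊤ := by
  ext g
  constructor
  · rintro ⟨u, hu, rfl⟩
    exact hu
  · intro hg
    have h1 : g ∈ H := by rw [hT]; exact Subgroup.mem_top g
    exact ⟨⟨⟨g, h1⟩, hg.1.1⟩, hg, rfl⟩

/-- **Commensurability** of `Λ = N_J ∩ g⁻¹ Γ₁ g` and `N_J(𝓞)` from discreteness and cocompactness. -/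
theorem comm_NO (hT : H = ⊤) {𝔫 : Ideal (𝓞 L)} (h𝔫 : 𝔫 ≠ ⊥) {Γ₁ : Subgroup H} (hG : ∀ γ ∈ Γ₁, γ.1 ∈ G1 b 𝔫) {g : H} (hcc : CCH H (cjG Γ₁ g)) {J : Finset b.support} {Lw : List b.support} (hJ : IsWJ b J (wW b Lw))
    {Λ : Subgroup (HUH H)} (hΛ : ∀ l, l ∈ Λ ↔ (l : H) ∈ cjG Γ₁ g ∧ l.1.1 ∈ NJ b L J) : Subgroup.Commensurable (Λ.map (inU H)) (NJ b L J ⊓ G1 b ⊤) := by
  set B : Subgroup H := cjG ((G1 b 𝔫).subgroupOf H) g with hB
  have hAB : cjG Γ₁ g ≤ B := fun γ hγ => hG _ hγ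
  have hBd : Dsc H B := (dsc_conj H (dsc_G1 (H := H)) g).mono fun γ hγ => by
    have h1 : (g * γ * g⁻¹).1 ∈ G1 b 𝔫 := hγ
    exact fun r c => ⟨((h1 r c).1).top, ((h1 r c).2).top⟩
  have h1 := cch_idx hAB hBd hcc
  have hcz : Subgroup.Commensurable (NJ b L J ⊓ G1 b ⊤) (NJ b L J ⊓ H29F.cz (G1 b 𝔫) (g⁻¹).1) := by
    have h2 := H29F.U_comm h𝔫 Lw (g⁻¹).1
    rw [FC.Uw_eq_NJ hJ] at h2
    exact h2
  -- the middle group
  have hBmem : ∀ x : H, x ∈ B ↔ ((g⁻¹).1)⁻¹ * x.1 * (g⁻¹).1 ∈ G1 b 𝔫 := by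
    intro x
    have h4 : ((g⁻¹).1)⁻¹ * x.1 * (g⁻¹).1 = (g * x * g⁻¹).1 := by
      show (g.1⁻¹)⁻¹ * x.1 * g.1⁻¹ = g.1 * x.1 * g.1⁻¹
      rw [inv_inv]
    rw [h4]
    exact Iff.rfl
  have hBN : ((B.subgroupOf (HUH H)) ⊓ (NJ b L J).comap (inU H)).map (inU H) = NJ b L J ⊓ H29F.cz (G1 b 𝔫) (g⁻¹).1 := by
    ext x
    rw [Subgroup.mem_map, Subgroup.mem_inf, H29F.mem_cz]
    constructor
    · rintro ⟨u, hu, rfl⟩
      rw [Subgroup.mem_inf, Subgroup.mem_subgroupOf, Subgroup.mem_comap] at hu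
      exact ⟨hu.2, (hBmem u.1).1 hu.1⟩
    · rintro ⟨hx1, hx2⟩
      have hxH : x ∈ H := by rw [hT]; exact Subgroup.mem_top x
      have hxU : (⟨x, hxH⟩ : H) ∈ HUH H := hx1.1
      refine ⟨⟨⟨x, hxH⟩, hxU⟩, ?_, rfl⟩
      rw [Subgroup.mem_inf, Subgroup.mem_subgroupOf, Subgroup.mem_comap]
      exact ⟨(hBmem ⟨x, hxH⟩).2 hx2, hx1⟩
  have hΛ2 : Λ = ((cjG Γ₁ g).subgroupOf (HUH H)) ⊓ (NJ b L J).comap (inU H) := by
    ext l
    exact hΛ l
  have hc1 : Subgroup.Commensurable (Λ.map (inU H)) (NJ b L J ⊓ H29F.cz (G1 b 𝔫) (g⁻¹).1) := by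
    rw [← hBN]
    refine ⟨?_, ?_⟩
    · rw [Subgroup.relIndex_map_map_of_injective _ _ inU_inj, hΛ2]
      refine Subgroup.relIndex_inf_ne_zero ?_ ?_
      · exact fun h => h1 (Subgroup.relIndex_eq_zero_of_le_right inf_le_left h)
      · rw [Subgroup.relIndex_eq_one.2 inf_le_right]
        exact one_ne_zero
    · rw [Subgroup.relIndex_map_map_of_injective _ _ inU_inj]
      have h2 : Λ ≤ (B.subgroupOf (HUH H)) ⊓ (NJ b L J).comap (inU H) := by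
        rw [hΛ2]
        exact inf_le_inf_right _ fun x hx => hAB hx
      rw [Subgroup.relIndex_eq_one.2 h2]
      exact one_ne_zero
  exact hc1.trans hcz.symm

/-- **The covolume** of `Λ`. -/
theorem covol (hT : H = ⊤) {J : Finset b.support} {νV : Measure (UHR H)} (hp : ∀ u : HUH H, u.1.1 ∈ NJ b L J → MeasurePreserving (fun t : UHR H => u • t) νV νV) {Λ : Subgroup (HUH H)} (hΛ : ∀ l ∈ Λ, l.1.1 ∈ NJ b L J)
    (hc : Subgroup.Commensurable (Λ.map (inU H)) (NJ b L J ⊓ G1 b ⊤)) {D D₀ : Set (UHR H)} (hD : H33W.SF Λ D) (hD₀ : H33W.SF (NO H J) D₀) : νV D = FL.gi (NJ b L J ⊓ G1 b ⊤) (Λ.map (inU H)) * νV D₀ := by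
  have := L1S.th_count H
  have e1 : Λ.relIndex (NO H J) = (Λ.map (inU H)).relIndex (NJ b L J ⊓ G1 b ⊤) := by
    rw [← map_NO hT J, Subgroup.relIndex_map_map_of_injective _ _ inU_inj]
  have e2 : (NO H J).relIndex Λ = (NJ b L J ⊓ G1 b ⊤).relIndex (Λ.map (inU H)) := by
    rw [← map_NO hT J, Subgroup.relIndex_map_map_of_injective _ _ inU_inj]
  have h1 : Λ.relIndex (NO H J) ≠ 0 := by rw [e1]; exact hc.1
  have h2 : (NO H J).relIndex Λ ≠ 0 := by rw [e2]; exact hc.2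
  have key := covol_abs ((NJ b L J).comap (inU H)) (fun g hg => hp g hg) (fun l hl => hΛ l hl) (fun l hl => (mem_NO.1 hl).1) hD hD₀ h1 h2
  unfold FL.gi
  rw [← e1, ← e2]
  have h3 : ((NO H J).relIndex Λ : ℝ≥0∞) ≠ 0 := by exact_mod_cast h2
  have h4 : ((NO H J).relIndex Λ : ℝ≥0∞) ≠ ⊤ := ENNReal.natCast_ne_top _
  rw [ENNReal.div_eq_inv_mul, mul_assoc, ← key, ← mul_assoc, ENNReal.inv_mul_cancel h3 h4, one_mul]

end

end Pool.Agent.Lib.L8.FU
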