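import Pool.Agent.Lib.L8.FU.V1
import Pool.Agent.Lib.L8.FU.U8

/-!
# FU, K2 (helper80): fundamental domains of `N_J(O)` of positive measure
-/

namespace Pool.Agent.Lib.L8.FU

set_option linter.unusedSectionVars false

open MeasureTheory Matrix NumberField IsDedekindDomain Pool.Agent.Lib.H89N Pool.Agent.Lib.H33W Pool.Agent.Lib.H67G Pool.Agent.Lib.L1S Pool.Agent.Lib.L8.FL Pool.Agent.Lib.L8.FC
open scoped ENNReal

noncomputable section

variable {ι M N : Type} [Fintype ι] [DecidableEq ι] [AddCommGroup M] [Module ℚ M] [AddCommGroup N] [Module ℚ N]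
  {P : RootPairing ι ℚ M N} [P.IsCrystallographic] [P.IsReduced] [P.IsIrreducible] [P.IsRootSystem]

variable {b : P.Base} {K : Type} [Field K] [NumberField K] {H : Subgroup (GK b K)}

/-- The fundamental domains of the subgroups of `N_J(K)` have positive measure. -/
theorem sf_pos (hT : H = ⊤) (J : Finset b.support) {ν0 : Measure (HRt H)} (h0 : RH (NoH H J) ν0) {Λ : Subgroup (HUH H)} (hΛ : Λ ≤ (qU hT J).ker) {D : Set (UHR H)} (hD : H33W.SF Λ D) :
    (ν0.comap (Subtype.val : UHR H → HRt H)) D ≠ 0 := by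
  intro hz
  have := th_count H
  obtain ⟨νM, hM⟩ := exists_msr hT J h0 (Measure.haar : Measure (UHR H))
  have hne := (comap_RH hT h0).ne
  obtain ⟨μ, hμ⟩ : ∃ μ : Measure (UHR H), μ = ν0.comap (Subtype.val : UHR H → HRt H) := ⟨_, rfl⟩
  rw [← hμ] at hM hne hz
  apply hne
  have h1 : (Set.univ : Set (UHR H)) ⊆ ⋃ γ : Λ, (fun t : UHR H => (γ : HUH H) • t) ⁻¹' D := by
    intro t _
    obtain ⟨γ, hγ, -⟩ := hD.fd t
    exact Set.mem_iUnion.2 ⟨γ, hγ⟩
  have h2 : μ (⋃ γ : Λ, (fun t : UHR H => (γ : HUH H) • t) ⁻¹' D) = 0 := by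
    refine measure_iUnion_null fun γ => ?_
    rw [(hM.lV γ.1 (hΛ γ.2)).measure_preimage hD.meas.nullMeasurableSet]
    exact hz
  exact Measure.measure_univ_eq_zero.1 (measure_mono_null h1 h2)

/-- **(K2)** a fundamental domain of `N_J(O)` of positive measure. -/
theorem exists_D0 (hT : H = ⊤) (J : Finset b.support) {ν0 : Measure (HRt H)} (h0 : RH (NoH H J) ν0) :
    ∃ D₀ : Set (UHR H), H33W.SF (NO H J) D₀ ∧ (ν0.comap (Subtype.val : UHR H → HRt H)) D₀ ≠ 0 := by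
  have := th_count H
  obtain ⟨D, hD⟩ := (dsc_G1 (H := H)).sfU
  obtain ⟨D₀, h1⟩ := sf_sub (T := UHR H) (G := ((G1 b (⊤ : Ideal (𝓞 K))).subgroupOf H).subgroupOf (HUH H)) (G' := NO H J) (fun u hu => (mem_NO.1 hu).2) (fun g _ => measurable_const_mul (kUH H g)) hD
  exact ⟨D₀, h1, sf_pos hT J h0 (fun u hu => (qU_ker hT J u).2 (mem_NO.1 hu).1) h1⟩

end

end Pool.Agent.Lib.L8.FU
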