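import Pool.Agent.Lib.L8.FL.C5F
import Pool.Agent.Lib.L8.FC.D7
import Pool.Agent.Lib.L1S.TW0

/-!
# FU, M1: the real unipotent group is generated by the root groups; the degree preserving part
-/

namespace Pool.Agent.Lib.L8.FU

set_option linter.unusedSectionVars false

open MeasureTheory Matrix NumberField IsDedekindDomain Pool.Agent.Lib.H89N Pool.Agent.Lib.H33W Pool.Agent.Lib.H67G Pool.Agent.Lib.L1S Pool.Agent.Lib.L8.FL Pool.Agent.Lib.L8.FC
open scoped ENNReal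

noncomputable section

variable {ι M N : Type} [Fintype ι] [DecidableEq ι] [AddCommGroup M] [Module ℚ M] [AddCommGroup N] [Module ℚ N]
  {P : RootPairing ι ℚ M N} [P.IsCrystallographic] [P.IsReduced] [P.IsIrreducible] [P.IsRootSystem]

variable {b : P.Base} {K : Type} [Field K] [NumberField K]

theorem fr_le (S : Subgroup (UR b K)) (hS : ∀ β ∈ Pos b, ∀ t, (lieD b K).xU β t ∈ S) (m : ℕ) : ∀ k, 1 ≤ k → k + m = HM b + 1 → FR b K k ≤ S := by
  induction m with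
  | zero =>
    intro k _ hk
    have e : k = HM b + 1 := by omega
    rw [e, r1_FR_bot]
    exact bot_le
  | succ m ih =>
    intro k hk hkm g hg
    have hk1 := ih (k + 1) (by omega) (by omega)
    obtain ⟨s, hs⟩ : ∃ s : ι → EE K, s = fun β => (lieD b K).cf β g.1.1.1 := ⟨_, rfl⟩
    have h1 := r5_prE_FR (lieD b K) k s
    have h2 := r5_prE_dgk (lieD b K) hk s
    have h3 := r5_degE (lieD b K) hk hg
    have h4 : (lieD b K).prE k s ∈ S := by
      refine Subgroup.list_prod_mem S fun x hx => ?_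
      obtain ⟨β, hβ, rfl⟩ := List.mem_map.1 hx
      refine hS β ?_ _
      have h5 := Finset.mem_toList.1 hβ
      exact (r5d_Pos h5).1
    have h6 : ((lieD b K).prE k s)⁻¹ * g ∈ FR b K (k + 1) := by
      have h7 : ((lieD b K).prE k s)⁻¹ * g ∈ FR b K k := mul_mem (inv_mem h1) hg
      have h8 : dgk b k (((lieD b K).prE k s)⁻¹ * g).1.1.1 = 0 := by
        have h9 : dgk b k ((lieD b K).prE k s * (((lieD b K).prE k s)⁻¹ * g)).1.1.1 = dgk b k ((lieD b K).prE k s).1.1.1 + dgk b k (((lieD b K).prE k s)⁻¹ * g).1.1.1 := dgk_mul hk h1.1 h7.1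
        rw [mul_inv_cancel_left, h2, h3] at h9
        have h10 : (∑ β ∈ Posk b k, s β • (lieD b K).E (EE K) β) = ∑ β ∈ Posk b k, (lieD b K).cf β g.1.1.1 • (lieD b K).E (EE K) β := by rw [hs]
        rw [h10] at h9
        exact left_eq_add.1 h9
      have h11 : dgk b k (((lieD b K).prE k s)⁻¹ * g)⁻¹.1.1.1 = 0 := by
        have h9 : dgk b k ((((lieD b K).prE k s)⁻¹ * g) * (((lieD b K).prE k s)⁻¹ * g)⁻¹).1.1.1 = dgk b k (((lieD b K).prE k s)⁻¹ * g).1.1.1 + dgk b k (((lieD b K).prE k s)⁻¹ * g)⁻¹.1.1.1 :=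
          dgk_mul hk h7.1 h7.2
        rw [mul_inv_cancel, h8, zero_add] at h9
        rw [← h9]
        exact dgk_one hk
      exact ⟨(rs_succ hk).2 ⟨h7.1, h8⟩, (rs_succ hk).2 ⟨h7.2, h11⟩⟩
    have h12 := S.mul_mem h4 (hk1 h6)
    rwa [mul_inv_cancel_left] at h12

/-- **The root groups generate** the real unipotent group. -/
theorem ur_ind (S : Subgroup (UR b K)) (hS : ∀ β ∈ Pos b, ∀ t, (lieD b K).xU β t ∈ S) (g : UR b K) : g ∈ S := by
  have h1 := fr_le S hS (HM b) 1 le_rfl (by omega)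
  refine h1 ⟨fun r c hrc => ?_, fun r c hrc => ?_⟩
  · exact (g.2 r c (by push_cast at hrc; omega)).1
  · exact (g.2 r c (by push_cast at hrc; omega)).2

theorem xU_val {β : ι} (hβ : β ∈ Pos b) (t : EE K) : ((lieD b K).xU β t).1.1.1 = xx b β t ∧ ((lieD b K).xU β t)⁻¹.1.1.1 = xx b β (-t) := by
  have h1 : (lieD b K).xU β t = ⟨(lieD b K).xE β t, r5_xE_UR (lieD b K) hβ t⟩ := dif_pos hβ
  rw [h1]
  exact ⟨rfl, rfl⟩

/-- **The degree preserving part** of an element of the real unipotent group. -/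
theorem exists_dp (J : Finset b.support) (g : UR b K) : RaiseBy (dJ b J) 0 g.1.1.1 ∧ RaiseBy (dJ b J) 0 g⁻¹.1.1.1 ∧
    ∃ m : UR b K, m.1.1.1 = dp (dJ b J) g.1.1.1 ∧ m⁻¹.1.1.1 = dp (dJ b J) g⁻¹.1.1.1 := by
  have h0 : ∀ X Y : Matrix (I b) (I b) (EE K), RaiseBy (dJ b J) 0 X → RaiseBy (dJ b J) 0 Y → RaiseBy (dJ b J) 0 (X * Y) := fun X Y hX hY => by
    have h := b3_mul hX hY
    rwa [add_zero] at h
  have hone : RaiseBy (dJ b J) 0 (1 : Matrix (I b) (I b) (EE K)) := by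
    intro r c hrc
    rw [Matrix.one_apply_ne]
    rintro rfl
    omega
  obtain ⟨S, hS⟩ : ∃ S : Subgroup (UR b K), ∀ g, g ∈ S ↔ RaiseBy (dJ b J) 0 g.1.1.1 ∧ RaiseBy (dJ b J) 0 g⁻¹.1.1.1 ∧
      ∃ m : UR b K, m.1.1.1 = dp (dJ b J) g.1.1.1 ∧ m⁻¹.1.1.1 = dp (dJ b J) g⁻¹.1.1.1 := by
    refine ⟨⟨⟨⟨{g | RaiseBy (dJ b J) 0 g.1.1.1 ∧ RaiseBy (dJ b J) 0 g⁻¹.1.1.1 ∧
      ∃ m : UR b K, m.1.1.1 = dp (dJ b J) g.1.1.1 ∧ m⁻¹.1.1.1 = dp (dJ b J) g⁻¹.1.1.1}, ?_⟩, ?_⟩, ?_⟩, fun g => Iff.rfl⟩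
    · rintro g g' ⟨h1, h2, m, h3, h4⟩ ⟨h1', h2', m', h3', h4'⟩
      have e1 : (g * g').1.1.1 = g.1.1.1 * g'.1.1.1 := rfl
      have e2 : (g * g')⁻¹.1.1.1 = g'⁻¹.1.1.1 * g⁻¹.1.1.1 := by rw [_root_.mul_inv_rev]; rfl
      have e3 : (m * m').1.1.1 = m.1.1.1 * m'.1.1.1 := rfl
      have e4 : (m * m')⁻¹.1.1.1 = m'⁻¹.1.1.1 * m⁻¹.1.1.1 := by rw [_root_.mul_inv_rev]; rfl
      refine ⟨?_, ?_, m * m', ?_, ?_⟩
      · rw [e1]; exact h0 _ _ h1 h1'
      · rw [e2]; exact h0 _ _ h2' h2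
      · rw [e1, e3, dp_mul h1 h1', h3, h3']
      · rw [e2, e4, dp_mul h2' h2, h4, h4']
    · have e1 : (1 : UR b K).1.1.1 = 1 := rfl
      have e2 : (1 : UR b K)⁻¹.1.1.1 = 1 := by rw [inv_one]; rfl
      have e3 : dp (dJ b J) (1 : Matrix (I b) (I b) (EE K)) = 1 := by
        refine Matrix.ext fun r c => ?_
        simp only [dp, Matrix.of_apply]
        split_ifs with h1
        · rfl
        · rw [Matrix.one_apply_ne (fun h => h1 (by rw [h]))]
      refine ⟨?_, ?_, 1, ?_, ?_⟩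
      · rw [e1]; exact hone
      · rw [e2]; exact hone
      · rw [e1, e3]
      · rw [e2, e3]
    · rintro g ⟨h1, h2, m, h3, h4⟩
      exact ⟨h2, by rw [inv_inv]; exact h1, m⁻¹, h4, by rw [inv_inv, inv_inv]; exact h3⟩
  refine (hS g).1 (ur_ind S (fun β hβ t => (hS _).2 ?_) g)
  obtain ⟨e1, e2⟩ := xU_val (K := K) hβ t
  rw [e1, e2]
  have hpos : 0 ≤ dJ b J (Sum.inr β) := Finset.sum_nonneg fun j _ => mc_pos b ((b.isPos_iff).2 (Finset.mem_filter.1 hβ).2) j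
  refine ⟨x_raise0 (lin_dJ b J) hpos t, x_raise0 (lin_dJ b J) hpos (-t), ?_⟩
  rcases hpos.eq_or_lt with h | h
  · refine ⟨(lieD b K).xU β t, ?_, ?_⟩
    · rw [e1]
      refine Matrix.ext fun r c => ?_
      simp only [dp, Matrix.of_apply]
      split_ifs with h1
      · rfl
      · exact x_pres (lin_dJ b J) h.symm t h1
    · rw [e2]
      refine Matrix.ext fun r c => ?_
      simp only [dp, Matrix.of_apply]
      split_ifs with h1
      · rfl
      · exact x_pres (lin_dJ b J) h.symm (-t) h1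
  · have key : ∀ s : EE K, dp (dJ b J) (xx b β s) = 1 := by
      intro s
      refine Matrix.ext fun r c => ?_
      simp only [dp, Matrix.of_apply]
      split_ifs with h1
      · have h2 := x_raise1 (lin_dJ b J) h s r c (by rw [h1]; omega)
        rw [Matrix.sub_apply, sub_eq_zero] at h2
        exact h2
      · rw [Matrix.one_apply_ne (fun h => h1 (by rw [h]))]
    refine ⟨1, ?_, ?_⟩
    · rw [key]; rfl
    · rw [key, inv_one]; rfl

end

end Pool.Agent.Lib.L8.FU
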