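import Pool.Agent.Lib.L8.FU.M1
import Pool.Agent.Lib.L8.FU.U3

/-!
# FU, M2: the projections to the degree preserving part
-/

namespace Pool.Agent.Lib.L8.FU

set_option linter.unusedSectionVars false

open MeasureTheory Matrix NumberField IsDedekindDomain Pool.Agent.Lib.H89N Pool.Agent.Lib.H33W Pool.Agent.Lib.H67G Pool.Agent.Lib.L1S Pool.Agent.Lib.L8.FL Pool.Agent.Lib.L8.FC
open scoped ENNReal

noncomputable section

variable {ι M N : Type} [Fintype ι] [DecidableEq ι] [AddCommGroup M] [Module ℚ M] [AddCommGroup N] [Module ℚ N]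
  {P : RootPairing ι ℚ M N} [P.IsCrystallographic] [P.IsReduced] [P.IsIrreducible] [P.IsRootSystem]

variable {b : P.Base} {K : Type} [Field K] [NumberField K] {H : Subgroup (GK b K)}

/-- The real group of the full group. -/
theorem HRs_top (hT : H = ⊤) (g : GR b K) : g ∈ HRs H := by
  subst hT
  show g ∈ closure (((⊤ : Subgroup (GK b K)).map (emb b K) : Subgroup (GR b K)) : Set (GR b K))
  rw [closure_subtype]
  have h1 : g.1 ∈ closure (((GQ b K).map (embGL b K) : Subgroup (GL (I b) (EE K))) : Set (GL (I b) (EE K))) := g.2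
  refine closure_mono ?_ h1
  rintro _ ⟨x, hx, rfl⟩
  exact ⟨emb b K ⟨x, hx⟩, ⟨⟨x, hx⟩, Subgroup.mem_top _, rfl⟩, rfl⟩

theorem UHR_ext {u v : UHR H} (h : u.1.1.1.1 = v.1.1.1.1) : u = v := Subtype.ext (Subtype.ext (Subtype.ext (Units.ext h)))

theorem exists_dpH (hT : H = ⊤) (J : Finset b.support) (u : UHR H) : ∃ m : UHR H, m.1.1.1.1 = dp (dJ b J) u.1.1.1.1 ∧ m⁻¹.1.1.1.1 = dp (dJ b J) u⁻¹.1.1.1.1 := by
  obtain ⟨-, -, m, h1, h2⟩ := exists_dp J (iUH H u)
  exact ⟨⟨⟨m.1, HRs_top hT _⟩, m.2⟩, h1, h2⟩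

theorem raiseH (J : Finset b.support) (u : UHR H) : RaiseBy (dJ b J) 0 u.1.1.1.1 := (exists_dp J (iUH H u)).1

/-- **The Levi projection** of `U`. -/
def piU (hT : H = ⊤) (J : Finset b.support) : UHR H →* UHR H :=
  MonoidHom.mk' (fun u => (exists_dpH hT J u).choose) fun u v => UHR_ext (by
    have h1 := (exists_dpH hT J (u * v)).choose_spec.1
    have h2 := (exists_dpH hT J u).choose_spec.1
    have h3 := (exists_dpH hT J v).choose_spec.1
    rw [h1]
    show dp (dJ b J) (u.1.1.1.1 * v.1.1.1.1) = (exists_dpH hT J u).choose.1.1.1.1 * (exists_dpH hT J v).choose.1.1.1.1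
    rw [h2, h3, dp_mul (raiseH J u) (raiseH J v)])

theorem piU_val (hT : H = ⊤) (J : Finset b.support) (u : UHR H) : (piU hT J u).1.1.1.1 = dp (dJ b J) u.1.1.1.1 := (exists_dpH hT J u).choose_spec.1

theorem dp_dp {A : Type} [Zero A] (h : I b → ℤ) (X : Matrix (I b) (I b) A) : dp h (dp h X) = dp h X := by
  refine Matrix.ext fun r c => ?_
  simp only [dp, Matrix.of_apply]
  split_ifs <;> rfl

theorem piU_idem (hT : H = ⊤) (J : Finset b.support) (u : UHR H) : piU hT J (piU hT J u) = piU hT J u := UHR_ext (by rw [piU_val, piU_val, dp_dp])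

theorem piU_cont (hT : H = ⊤) (J : Finset b.support) : Continuous (piU (H := H) hT J) := by
  refine Continuous.subtype_mk (Continuous.subtype_mk (Continuous.subtype_mk (Units.continuous_iff.2 ⟨?_, ?_⟩) _) _) _
  · have h1 : Continuous fun u : UHR H => u.1.1.1.1 := Units.continuous_val.comp (continuous_subtype_val.comp (continuous_subtype_val.comp continuous_subtype_val))
    have h2 : (fun u : UHR H => (piU hT J u).1.1.1.1) = fun u => dp (dJ b J) u.1.1.1.1 := funext fun u => piU_val hT J u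
    show Continuous fun u : UHR H => (piU hT J u).1.1.1.1
    rw [h2]
    refine continuous_matrix fun r c => ?_
    simp only [dp, Matrix.of_apply]
    split_ifs
    · exact h1.matrix_elem r c
    · exact continuous_const
  · have h1 : Continuous fun u : UHR H => (u⁻¹).1.1.1.1 := (Units.continuous_val.comp (continuous_subtype_val.comp (continuous_subtype_val.comp continuous_subtype_val))).comp continuous_inv
    have h2 : (fun u : UHR H => (piU hT J u)⁻¹.1.1.1.1) = fun u => dp (dJ b J) (u⁻¹).1.1.1.1 := funext fun u => by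
      rw [← map_inv, piU_val]
    show Continuous fun u : UHR H => (piU hT J u)⁻¹.1.1.1.1
    rw [h2]
    refine continuous_matrix fun r c => ?_
    simp only [dp, Matrix.of_apply]
    split_ifs
    · exact h1.matrix_elem r c
    · exact continuous_const

/-- The kernel is `N_J`. -/
theorem piU_ker (hT : H = ⊤) (J : Finset b.support) (u : UHR H) : piU hT J u = 1 ↔ (u : HRt H) ∈ NoH H J := by
  have key : ∀ v : UHR H, piU hT J v = 1 → ∀ r c, dJ b J r ≤ dJ b J c → v.1.1.1.1 r c = (1 : Matrix (I b) (I b) (EE K)) r c := by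
    intro v hv r c hrc
    rcases hrc.eq_or_lt with h | h
    · have h1 := piU_val hT J v
      rw [hv] at h1
      have h2 : (1 : Matrix (I b) (I b) (EE K)) r c = dp (dJ b J) v.1.1.1.1 r c := congrFun (congrFun h1 r) c
      rw [h2]
      simp only [dp, Matrix.of_apply, if_pos h]
    · rw [raiseH J v r c (by omega), Matrix.one_apply_ne]
      rintro rfl
      exact lt_irrefl _ h
  constructor
  · intro h
    refine ⟨u.2, fun r c hrc => ⟨key u h r c hrc, key u⁻¹ (by rw [map_inv, h, inv_one]) r c hrc⟩⟩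
  · intro h
    refine UHR_ext ?_
    rw [piU_val]
    refine Matrix.ext fun r c => ?_
    show dp (dJ b J) u.1.1.1.1 r c = (1 : Matrix (I b) (I b) (EE K)) r c
    simp only [dp, Matrix.of_apply]
    split_ifs with h1
    · exact (h.2 r c h1.le).1
    · rw [Matrix.one_apply_ne]
      rintro rfl
      exact h1 rfl

/-! ## The rational groups -/

theorem exists_dpK (J : Finset b.support) {u : GK b K} (hu : u ∈ HU b K) : ∃ m ∈ HU b K, m.1.1 = dp (dJ b J) u.1.1 := by
  obtain ⟨t, ht⟩ := HU_prod hu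
  refine ⟨pK b K ((posL b).filter fun β => decide (dJ b J (Sum.inr β) = 0)) t, ?_, ?_⟩
  · refine pK_mem fun β hβ => b1_pos b K β ?_ _
    exact (posL_mem b β).1 (List.mem_filter.1 hβ).1
  · rw [ht, pK_coe, pK_coe, (dp_PL J t (posL b) fun β hβ => hβ).1]

theorem exists_dpHU (hT : H = ⊤) (J : Finset b.support) (u : HUH H) : ∃ m : HUH H, m.1.1.1.1 = dp (dJ b J) u.1.1.1.1 := by
  have hu : u.1.1 ∈ HU b K := u.2
  obtain ⟨m, h1, h2⟩ := exists_dpK J hu
  exact ⟨⟨⟨m, by rw [hT]; trivial⟩, h1⟩, h2⟩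

theorem HUH_ext {u v : HUH H} (h : u.1.1.1.1 = v.1.1.1.1) : u = v := Subtype.ext (Subtype.ext (Subtype.ext (Units.ext h)))

/-- The Levi projection of `U(K)`. -/
def qU (hT : H = ⊤) (J : Finset b.support) : HUH H →* HUH H :=
  MonoidHom.mk' (fun u => (exists_dpHU hT J u).choose) fun u v => HUH_ext (by
    have h1 := (exists_dpHU hT J (u * v)).choose_spec
    have h2 := (exists_dpHU hT J u).choose_spec
    have h3 := (exists_dpHU hT J v).choose_spec
    have hu : u.1.1 ∈ HU b K := u.2
    have hv : v.1.1 ∈ HU b K := v.2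
    rw [h1]
    show dp (dJ b J) (u.1.1.1.1 * v.1.1.1.1) = (exists_dpHU hT J u).choose.1.1.1.1 * (exists_dpHU hT J v).choose.1.1.1.1
    rw [h2, h3, dp_mul (HU_raise0 J hu) (HU_raise0 J hv)])

theorem qU_val (hT : H = ⊤) (J : Finset b.support) (u : HUH H) : (qU hT J u).1.1.1.1 = dp (dJ b J) u.1.1.1.1 := (exists_dpHU hT J u).choose_spec

theorem qU_cpt (hT : H = ⊤) (J : Finset b.support) (u : HUH H) : piU hT J (kUH H u) = kUH H (qU hT J u) := by
  refine UHR_ext ?_
  rw [piU_val]
  refine Matrix.ext fun r c => ?_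
  have h1 : (qU hT J u).1.1.1.1 r c = dp (dJ b J) u.1.1.1.1 r c := by rw [qU_val]
  show dp (dJ b J) (kUH H u).1.1.1.1 r c = mixedEmbedding K ((qU hT J u).1.1.1.1 r c)
  rw [h1]
  simp only [dp, Matrix.of_apply]
  split_ifs
  · rfl
  · rw [map_zero]

theorem qU_ker (hT : H = ⊤) (J : Finset b.support) (u : HUH H) : u ∈ (qU hT J).ker ↔ u.1.1 ∈ NJ b K J := by
  have hu : u.1.1 ∈ HU b K := u.2
  rw [MonoidHom.mem_ker]
  have key : ∀ v : HUH H, qU hT J v = 1 → ∀ r c, dJ b J r ≤ dJ b J c → v.1.1.1.1 r c = (1 : Matrix (I b) (I b) K) r c := by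
    intro v hv r c hrc
    have hv' : v.1.1 ∈ HU b K := v.2
    rcases hrc.eq_or_lt with h | h
    · have h1 := qU_val hT J v
      rw [hv] at h1
      have h2 : (1 : Matrix (I b) (I b) K) r c = dp (dJ b J) v.1.1.1.1 r c := congrFun (congrFun h1 r) c
      rw [h2]
      simp only [dp, Matrix.of_apply, if_pos h]
    · rw [HU_raise0 J hv' r c (by omega), Matrix.one_apply_ne]
      rintro rfl
      exact lt_irrefl _ h
  constructor
  · intro h
    exact ⟨hu, fun r c hrc => ⟨key u h r c hrc, key u⁻¹ (by rw [map_inv, h, inv_one]) r c hrc⟩⟩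
  · intro h
    refine HUH_ext ?_
    rw [qU_val]
    refine Matrix.ext fun r c => ?_
    show dp (dJ b J) u.1.1.1.1 r c = (1 : Matrix (I b) (I b) K) r c
    simp only [dp, Matrix.of_apply]
    split_ifs with h1
    · exact (h.2 r c h1.le).1
    · rw [Matrix.one_apply_ne]
      rintro rfl
      exact h1 rfl

theorem prjU (hT : H = ⊤) (J : Finset b.support) : Prj (kUH H) (piU hT J) (qU hT J) where
  act _ _ := rfl
  idem := piU_idem hT J
  cpt := qU_cpt hT J

end

end Pool.Agent.Lib.L8.FU
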