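import Pool.Agent.Lib.L8.FL.Defs
import Pool.Agent.Lib.L1S.L2G
import Pool.Agent.Lib.L1S.L123
import Pool.Agent.Lib.L1S.B9
import Pool.Agent.Lib.L1S.D5
import Pool.Agent.Lib.L1S.D7

/-!
# FU, P0 (helper80): the entries of the torus elements

For `t ∈ T(K)` the entries are `t_β = s ∏ c_k ^ (m_k(β))`, `t_0 = s`, and `s` is a root of unity; so for every absolute value `|t_β| = ∏ |α_k(t)| ^ (m_k(β))` and `|t_0| = 1`.
-/

namespace Pool.Agent.Lib.L8.FU

set_option linter.unusedSectionVars false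

open Matrix NumberField IsDedekindDomain Pool.Agent.Lib.H89N Pool.Agent.Lib.H33W Pool.Agent.Lib.H67G Pool.Agent.Lib.L1S Pool.Agent.Lib.L8.FL

noncomputable section

variable {ι M N : Type} [Fintype ι] [DecidableEq ι] [AddCommGroup M] [Module ℚ M] [AddCommGroup N] [Module ℚ N]
  {P : RootPairing ι ℚ M N} [P.IsCrystallographic] [P.IsReduced] [P.IsIrreducible] [P.IsRootSystem]

variable {b : P.Base} {K : Type} [Field K] [NumberField K]

theorem tk_diag {t : GK b K} (ht : t ∈ TK b K) : t.1.1 = Matrix.diagonal fun r => t.1.1 r r := by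
  ext r c
  by_cases h : r = c
  · subst h
    rw [Matrix.diagonal_apply_eq]
  · rw [Matrix.diagonal_apply_ne _ h, (ht r c h).1]

theorem tk_inv {t : GK b K} (ht : t ∈ TK b K) (r : I b) : t.1.1 r r * t⁻¹.1.1 r r = 1 := by
  have h1 : t.1.1 * t⁻¹.1.1 = 1 := t.1.mul_inv
  have h2 := congrFun (congrFun h1 r) r
  rw [Matrix.mul_apply, Finset.sum_eq_single r, Matrix.one_apply_eq] at h2
  · exact h2
  · intro k _ hk
    rw [(ht r k hk.symm).1, zero_mul]
  · intro h
    exact absurd (Finset.mem_univ r) h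

theorem tk_ne {t : GK b K} (ht : t ∈ TK b K) (r : I b) : t.1.1 r r ≠ 0 := fun h => by
  have h1 := tk_inv ht r
  rw [h, zero_mul] at h1
  exact zero_ne_one h1

/-- `t E_i t⁻¹ = c_i E_i`. -/
theorem tk_conj {t : GK b K} (ht : t ∈ TK b K) (i : b.support) : ∃ c : K, c ≠ 0 ∧ ∀ r s, E b (i : ι) r s ≠ 0 → t.1.1 r r = c * t.1.1 s s := by
  set X : Matrix (I b) (I b) K := t.1.1 * toA K (E b (i : ι)) * t⁻¹.1.1 with hX
  have hent : ∀ r s, X r s = t.1.1 r r * ((E b (i : ι) r s : ℤ) : K) * t⁻¹.1.1 s s := by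
    intro r s
    have h1 : t⁻¹.1.1 = Matrix.diagonal fun r => t⁻¹.1.1 r r := tk_diag (inv_mem ht)
    have h0 : X = (Matrix.diagonal fun r => t.1.1 r r) * toA K (E b (i : ι)) * (Matrix.diagonal fun r => t⁻¹.1.1 r r) := by
      rw [← tk_diag ht, ← h1]
    rw [h0, Matrix.mul_diagonal, Matrix.diagonal_mul]
    rfl
  have hmem : X ∈ gR b K := ((GQ_Nmz b t.2).2.2 _ (l124_E b (i : ι))).1
  have hwt : HasWt b (P.root (i : ι)) X := by
    intro r s hne
    rw [hent] at hne
    refine hasWt_E b (i : ι) r s ?_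
    intro h0
    rw [h0] at hne
    exact hne (by simp)
  have hc := gR_root b hmem (i : ι) hwt
  have hrel : ∀ r s, E b (i : ι) r s ≠ 0 → t.1.1 r r = cf b (i : ι) X * t.1.1 s s := by
    intro r s hne
    have h1 := congrFun (congrFun hc r) s
    rw [hent] at h1
    have h2 : (cf b (i : ι) X • toA K (E b (i : ι))) r s = cf b (i : ι) X * ((E b (i : ι) r s : ℤ) : K) := rfl
    rw [h2] at h1
    have h3 : ((E b (i : ι) r s : ℤ) : K) ≠ 0 := by exact_mod_cast hne
    have h4 := tk_inv ht s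
    have h5 : t.1.1 r r * t⁻¹.1.1 s s = cf b (i : ι) X := by
      refine mul_right_cancel₀ h3 ?_
      rw [← h1]
      ring
    calc t.1.1 r r = t.1.1 r r * (t.1.1 s s * t⁻¹.1.1 s s) := by rw [h4, mul_one]
      _ = (t.1.1 r r * t⁻¹.1.1 s s) * t.1.1 s s := by ring
      _ = _ := by rw [h5]
  refine ⟨cf b (i : ι) X, ?_, hrel⟩
  intro h0
  have h1 := hrel (Sum.inl i) (Sum.inr (P.reflectionPerm i i)) (by
    rw [E_simple_entry, if_pos rfl]
    exact one_ne_zero)
  rw [h0, zero_mul] at h1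
  exact tk_ne ht _ h1

theorem mc_add {β γ δ : ι} (h : P.root γ = P.root β + P.root δ) (k : b.support) : mc b k (Sum.inr γ) = mc b k (Sum.inr β) + mc b k (Sum.inr δ) := by
  have h1 : ((mc b k (Sum.inr γ) : ℤ) : ℚ) = ((mc b k (Sum.inr β) : ℤ) : ℚ) + ((mc b k (Sum.inr δ) : ℤ) : ℚ) := by
    rw [d5_mc, d5_mc, d5_mc]
    show b.toWeightBasis.repr (P.root γ) k = b.toWeightBasis.repr (P.root β) k + b.toWeightBasis.repr (P.root δ) k
    rw [h, map_add, Finsupp.add_apply]
  exact_mod_cast h1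

theorem mc_simple (i k : b.support) : mc b k (Sum.inr (i : ι)) = if k = i then 1 else 0 := by
  have h1 : ((mc b k (Sum.inr (i : ι)) : ℤ) : ℚ) = ((if k = i then 1 else 0 : ℤ) : ℚ) := by
    rw [d5_mc]
    show b.toWeightBasis.repr (P.root i) k = _
    rw [b.toWeightBasis_repr_root i, Finsupp.single_apply]
    by_cases h : k = i
    · rw [if_pos h, if_pos h.symm]
      norm_num
    · rw [if_neg h, if_neg fun h' => h h'.symm]
      norm_num
  exact_mod_cast h1

/-- **The entries of the torus elements.** -/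
theorem tk_entries {t : GK b K} (ht : t ∈ TK b K) : ∃ (s : K) (c : b.support → K), s ≠ 0 ∧ (∀ k, c k ≠ 0) ∧ (∀ j, t.1.1 (Sum.inl j) (Sum.inl j) = s) ∧
    ∀ β, t.1.1 (Sum.inr β) (Sum.inr β) = s * ∏ k, c k ^ mc b k (Sum.inr β) := by
  classical
  choose c hc0 hc using fun i : b.support => tk_conj ht i
  set τ : I b → K := fun r => t.1.1 r r with hτ
  have hrel : ∀ (i : b.support) (r s : I b), E b (i : ι) r s ≠ 0 → τ r = c i * τ s := fun i r s h => hc i r s h
  have r1 : ∀ i : b.support, τ (Sum.inl i) = c i * τ (Sum.inr (P.reflectionPerm i i)) := by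
    intro i
    refine hrel i _ _ ?_
    rw [E_simple_entry, if_pos rfl]
    exact one_ne_zero
  have r2 : ∀ i j : b.support, b.cartanMatrix i j ≠ 0 → τ (Sum.inr i) = c i * τ (Sum.inl j) := by
    intro i j hij
    refine hrel i _ _ ?_
    rw [E_simple]
    have e : eZ b i (Sum.inr i) (Sum.inl j) = |b.cartanMatrix i j| := by
      simp [eZ]
    rw [e]
    exact abs_ne_zero.2 hij
  have r3 : ∀ (i : b.support) (γ δ : ι), P.root γ = P.root i + P.root δ → τ (Sum.inr γ) = c i * τ (Sum.inr δ) := by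
    intro i γ δ h
    refine hrel i _ _ ?_
    rw [E_simple]
    have e : eZ b i (Sum.inr γ) (Sum.inr δ) = (P.chainBotCoeff i δ : ℤ) + 1 := by
      simp [eZ, h]
    rw [e]
    positivity
  have hng : ∀ β, P.root (P.reflectionPerm β β) = -P.root β := fun β => by rw [P.root_reflectionPerm, P.reflection_apply_self]
  by_cases hne : Nonempty b.support
  swap
  · rw [not_nonempty_iff] at hne
    refine ⟨1, fun _ => 1, one_ne_zero, fun _ => one_ne_zero, fun j => hne.elim j, fun β => ?_⟩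
    have h1 := d5_root b β
    rw [Finset.univ_eq_empty, Finset.sum_empty] at h1
    exact absurd h1 (P.ne_zero β)
  obtain ⟨i0⟩ := hne
  have s1 : ∀ j : b.support, τ (Sum.inl j) = τ (Sum.inl i0) := by
    intro j
    refine b.induction_on_cartanMatrix (fun j => τ (Sum.inl j) = τ (Sum.inl i0)) (i := i0) rfl ?_
    intro i j hi hij
    have h1 := r2 j i hij
    have h2 := r2 j j (by rw [b.cartanMatrix_apply_same]; norm_num)
    rw [h1] at h2
    show τ (Sum.inl j) = τ (Sum.inl i0)
    rw [← mul_left_cancel₀ (hc0 j) h2]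
    exact hi
  set s := τ (Sum.inl i0) with hs
  have hprod : ∀ i : b.support, ∏ k, c k ^ mc b k (Sum.inr (i : ι)) = c i := by
    intro i
    rw [Finset.prod_eq_single i]
    · rw [mc_simple, if_pos rfl, zpow_one]
    · intro k _ hk
      rw [mc_simple, if_neg hk, zpow_zero]
    · intro h
      exact absurd (Finset.mem_univ i) h
  have hneg : ∀ β, ∏ k, c k ^ mc b k (Sum.inr (P.reflectionPerm β β)) = (∏ k, c k ^ mc b k (Sum.inr β))⁻¹ := by
    intro β
    rw [← Finset.prod_inv_distrib]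
    exact Finset.prod_congr rfl fun k _ => by rw [d7_mc_neg, _root_.zpow_neg]
  have hadd : ∀ {β γ : ι} (i : b.support), P.root γ = P.root i + P.root β → ∏ k, c k ^ mc b k (Sum.inr γ) = c i * ∏ k, c k ^ mc b k (Sum.inr β) := by
    intro β γ i h
    rw [← hprod i, ← Finset.prod_mul_distrib]
    refine Finset.prod_congr rfl fun k _ => ?_
    rw [mc_add h, zpow_add₀ (hc0 k)]
  have hτ0 : ∀ r, τ r ≠ 0 := fun r => tk_ne ht r
  have hP0 : ∀ β, ∏ k, c k ^ mc b k (Sum.inr β) ≠ 0 := fun β => Finset.prod_ne_zero_iff.2 fun k _ => zpow_ne_zero _ (hc0 k)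
  have s3 : ∀ β, b.IsPos β → τ (Sum.inr β) = s * ∏ k, c k ^ mc b k (Sum.inr β) ∧ τ (Sum.inr (P.reflectionPerm β β)) = s * ∏ k, c k ^ mc b k (Sum.inr (P.reflectionPerm β β)) := by
    intro β hβ
    refine hβ.induction_on_add (p := fun β => τ (Sum.inr β) = s * ∏ k, c k ^ mc b k (Sum.inr β) ∧ τ (Sum.inr (P.reflectionPerm β β)) = s * ∏ k, c k ^ mc b k (Sum.inr (P.reflectionPerm β β))) ?_ ?_
    · intro i hi
      refine ⟨?_, ?_⟩
      · have h1 := hprod ⟨i, hi⟩
        rw [h1, r2 ⟨i, hi⟩ ⟨i, hi⟩ (by rw [b.cartanMatrix_apply_same]; norm_num), s1, mul_comm]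
      · rw [hneg]
        have h1 := hprod ⟨i, hi⟩
        rw [h1, eq_mul_inv_iff_mul_eq₀ (hc0 _), mul_comm, ← r1 ⟨i, hi⟩, s1]
    · intro i j k hk hi hj
      refine ⟨?_, ?_⟩
      · have h1 : P.root k = P.root (⟨j, hj⟩ : b.support) + P.root i := by rw [hk, add_comm]
        rw [r3 ⟨j, hj⟩ k i h1, hi.1, hadd ⟨j, hj⟩ h1]
        ring
      · have h1 : P.root (P.reflectionPerm i i) = P.root (⟨j, hj⟩ : b.support) + P.root (P.reflectionPerm k k) := by
          rw [hng, hng, hk]
          show -P.root i = P.root j + -(P.root i + P.root j)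
          abel
        have h2 := r3 ⟨j, hj⟩ _ _ h1
        rw [hi.2, hadd ⟨j, hj⟩ h1] at h2
        have h3 : c ⟨j, hj⟩ * (s * ∏ k_1, c k_1 ^ mc b k_1 (Sum.inr (P.reflectionPerm k k))) = c ⟨j, hj⟩ * τ (Sum.inr (P.reflectionPerm k k)) := by
          rw [← h2]
          ring
        exact (mul_left_cancel₀ (hc0 _) h3).symm
  refine ⟨s, c, hτ0 _, hc0, s1, ?_⟩
  intro β
  by_cases hβ : b.IsPos β
  · exact (s3 β hβ).1
  · have h1 := (RootPairing.Base.IsPos.neg_iff_not b β).2 hβ
    have h2 := (s3 _ h1).2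
    have e : P.reflectionPerm (P.reflectionPerm β β) (P.reflectionPerm β β) = β := by
      apply P.root.injective
      rw [hng, hng, neg_neg]
    have h3 : τ (Sum.inr (P.reflectionPerm (P.reflectionPerm β β) (P.reflectionPerm β β))) = s * ∏ k, c k ^ mc b k (Sum.inr (P.reflectionPerm (P.reflectionPerm β β) (P.reflectionPerm β β))) := h2
    rw [e] at h3
    exact h3

/-- The coefficients of `α_k` in all the roots have the sum `0`. -/
theorem mc_sum (k : b.support) : ∑ β : ι, mc b k (Sum.inr β) = 0 := by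
  have hng : ∀ β, P.reflectionPerm (P.reflectionPerm β β) (P.reflectionPerm β β) = β := by
    intro β
    apply P.root.injective
    rw [P.root_reflectionPerm, P.reflection_apply_self, P.root_reflectionPerm, P.reflection_apply_self, neg_neg]
  let σ : ι ≃ ι := ⟨fun β => P.reflectionPerm β β, fun β => P.reflectionPerm β β, hng, hng⟩
  have h1 : ∑ β : ι, mc b k (Sum.inr β) = ∑ β : ι, mc b k (Sum.inr (σ β)) := (Equiv.sum_comp σ fun β => mc b k (Sum.inr β)).symm
  have h2 : ∀ β, mc b k (Sum.inr (σ β)) = -mc b k (Sum.inr β) := fun β => d7_mc_neg b k β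
  rw [Finset.sum_congr rfl fun β _ => h2 β, Finset.sum_neg_distrib] at h1
  omega

/-- **The absolute values of the entries of the torus elements.** -/
theorem tk_abs {t : GK b K} (ht : t ∈ TK b K) (f : AbsoluteValue K ℝ) : (∀ j, f (t.1.1 (Sum.inl j) (Sum.inl j)) = 1) ∧
    ∀ β, f (t.1.1 (Sum.inr β) (Sum.inr β)) = ∏ k, f (tv b K t k) ^ mc b k (Sum.inr β) := by
  classical
  obtain ⟨s, c, hs0, hc0, h1, h2⟩ := tk_entries ht
  have hprod : ∀ i : b.support, ∏ k, c k ^ mc b k (Sum.inr (i : ι)) = c i := by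
    intro i
    rw [Finset.prod_eq_single i]
    · rw [mc_simple, if_pos rfl, zpow_one]
    · intro k _ hk
      rw [mc_simple, if_neg hk, zpow_zero]
    · intro h
      exact absurd (Finset.mem_univ i) h
  have htv : ∀ i, tv b K t i = s * c i := fun i => by
    unfold tv
    rw [h2, hprod]
  have hdet := b9_det t
  rw [tk_diag ht, Matrix.det_diagonal, Fintype.prod_sum_type] at hdet
  rw [Finset.prod_congr rfl fun j _ => h1 j, Finset.prod_congr rfl fun β _ => h2 β, Finset.prod_const, Finset.prod_mul_distrib, Finset.prod_const, Finset.prod_comm] at hdet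
  have h3 : ∏ k, ∏ β : ι, c k ^ mc b k (Sum.inr β) = 1 := by
    refine Finset.prod_eq_one fun k _ => ?_
    have h4 : ∏ β : ι, c k ^ mc b k (Sum.inr β) = c k ^ ∑ β : ι, mc b k (Sum.inr β) := by
      have h5 : ∀ S : Finset ι, ∏ β ∈ S, c k ^ mc b k (Sum.inr β) = c k ^ ∑ β ∈ S, mc b k (Sum.inr β) := by
        intro S
        induction S using Finset.induction_on with
        | empty => simp
        | insert a S ha ih => rw [Finset.prod_insert ha, Finset.sum_insert ha, ih, zpow_add₀ (hc0 k)]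
      exact h5 Finset.univ
    rw [h4, mc_sum, zpow_zero]
  rw [h3, mul_one, ← pow_add] at hdet
  have hn : Finset.univ.card (α := b.support) + Finset.univ.card (α := ι) ≠ 0 ∨ IsEmpty ι := by
    by_cases h : IsEmpty ι
    · exact Or.inr h
    · rw [not_isEmpty_iff] at h
      obtain ⟨β⟩ := h
      left
      have : 0 < (Finset.univ : Finset ι).card := Finset.card_pos.2 ⟨β, Finset.mem_univ _⟩
      omega
  rcases hn with hn | hn
  · have hfs : f s = 1 := by
      have h5 : f s ^ (Finset.univ.card (α := b.support) + Finset.univ.card (α := ι)) = 1 := by rw [← map_pow, hdet, map_one]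
      exact (pow_eq_one_iff_of_nonneg (f.nonneg s) hn).1 h5
    refine ⟨fun j => by rw [h1 j, hfs], fun β => ?_⟩
    rw [h2 β, map_mul, hfs, one_mul, map_prod]
    refine Finset.prod_congr rfl fun k _ => ?_
    rw [htv, map_mul, hfs, one_mul, map_zpow₀]
  · refine ⟨fun j => hn.elim j.1, fun β => hn.elim β⟩

end

end Pool.Agent.Lib.L8.FU
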