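import Pool.Agent.Lib.L8.F2.R0
import Pool.Agent.Lib.L8.FL.C5A
import Pool.Agent.Lib.H29F.FT1

/-!
# FU, T1 (helper29): the sum over the torus part (U4)
-/

namespace Pool.Agent.Lib.L8.FU

set_option linter.unusedSectionVars false

open MeasureTheory Matrix NumberField IsDedekindDomain Pool.Agent.Lib.H89N Pool.Agent.Lib.H33W Pool.Agent.Lib.H67G Pool.Agent.Lib.L1S Pool.Agent.Lib.L8 Pool.Agent.Lib.L8.FL
open scoped ENNReal

noncomputable section

/-- A sum of integrals is at most the integral of the sum (any index set). -/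
theorem t1_tsum {I X : Type} [MeasurableSpace X] (ν : Measure X) (f : I → X → ℝ≥0∞) (hf : ∀ i, AEMeasurable (f i) ν) : ∑' i, ∫⁻ x, f i x ∂ν ≤ ∫⁻ x, ∑' i, f i x ∂ν := by
  rw [ENNReal.tsum_eq_iSup_sum]
  refine iSup_le fun s => ?_
  rw [← lintegral_finsetSum' s fun i _ => hf i]
  exact lintegral_mono fun x => ENNReal.sum_le_tsum s

/-- The sum of a constant over a finite set. -/
theorem t1_const {I : Type} {T : Set I} (hT : T.Finite) {M : ℝ} (hM : (T.ncard : ℝ) ≤ M) (a : ℝ≥0∞) : ∑' i, T.indicator (fun _ => a) i ≤ ENNReal.ofReal M * a := by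
  classical
  rw [tsum_eq_sum (s := hT.toFinset) fun i hi => Set.indicator_of_notMem (fun h => hi (hT.mem_toFinset.2 h)) _]
  rw [Finset.sum_congr rfl fun i hi => Set.indicator_of_mem (hT.mem_toFinset.1 hi) _, Finset.sum_const, nsmul_eq_mul, ← Set.ncard_eq_toFinset_card T hT]
  gcongr
  rw [← ENNReal.ofReal_natCast]
  exact ENNReal.ofReal_le_ofReal hM

variable {ι M N : Type} [Fintype ι] [DecidableEq ι] [AddCommGroup M] [Module ℚ M] [AddCommGroup N] [Module ℚ N]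
  {P : RootPairing ι ℚ M N} [P.IsCrystallographic] [P.IsReduced] [P.IsIrreducible] [P.IsRootSystem]

variable {b : P.Base} {K : Type} [Field K] [NumberField K] {H : Subgroup (GK b K)}

/-- **(U4)**: the product formula for `c ∈ L_τ`. -/
theorem Fe_Lt (e : b.support → ℝ) {J : Finset b.support} {L : List b.support} {𝔫 : Ideal (𝓞 K)} {z z' : GK b K} {τ : H} (hτ : τ.1 ∈ TK b K) {c : GK b K} (hc : c ∈ F2.Lt b K J L 𝔫 z z' τ.1) (y : HRt H) :
    Fe e (embH H τ * y) = (fe b e z)⁻¹ * fe b e (nW b K L * c * z') * Fe e y := by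
  have h1 : fe b e (τ.1 * (nW b K L * c * z')) = fe b e z := by
    unfold fe
    refine finprod_congr fun v => Finset.prod_congr rfl fun k _ => ?_
    rw [FI.Ah_T b v hτ, hc.2.2 v k]
  rw [FI.fe_T b e hτ] at h1
  have hp : ∀ k, 0 < ∏ᶠ v : HeightOneSpectrum (𝓞 K), av v (tv b K τ.1 k) := fun k => finprod_av_pos (tk_ne hτ _)
  have h2 : 0 < fe b e z := FI.fe_pos b e z
  have h3 : 0 < fe b e (nW b K L * c * z') := FI.fe_pos b e _
  have h4 : ∏ k, (∏ᶠ v : HeightOneSpectrum (𝓞 K), av v (tv b K τ.1 k)) ^ (-e k) = (∏ k, (∏ᶠ v : HeightOneSpectrum (𝓞 K), av v (tv b K τ.1 k)) ^ e k)⁻¹ := by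
    rw [← Finset.prod_inv_distrib]
    exact Finset.prod_congr rfl fun k _ => Real.rpow_neg (hp k).le _
  have h5 : 0 < ∏ k, (∏ᶠ v : HeightOneSpectrum (𝓞 K), av v (tv b K τ.1 k)) ^ e k := Finset.prod_pos fun k _ => Real.rpow_pos_of_pos (hp k) _
  rw [Fe_torus e hτ, h4, ← h1]
  field_simp

/-- **(U4)**: for one class `c` and one point: the sum over the torus elements. -/
theorem tau_pt (b : P.Base) (K : Type) [Field K] [NumberField K] (A : ℝ) (hA0 : 0 ≤ A) : ∃ M : ℝ, 0 < M ∧ ∀ (H : Subgroup (GK b K)) (S : Set (HRt H)), (∀ y ∈ S, ∀ y' ∈ S, ∀ w i, |Hw w y i - Hw w y' i| ≤ A) →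
    ∀ (e : b.support → ℝ) (J : Finset b.support) (L : List b.support) (𝔫 : Ideal (𝓞 K)) (z z' : GK b K) (c : GK b K) (y : HRt H),
    ∑' τ : {τ : H // τ.1 ∈ TK b K}, (F2.Lt b K J L 𝔫 z z' τ.1.1).indicator (1 : GK b K → ℝ≥0∞) c * S.indicator (fun y => ENNReal.ofReal (Fe e y)) (embH H τ.1 * y) ≤
      ENNReal.ofReal M * (open scoped Classical in if ∀ k, Chi b 𝔫 k (nW b K L * c * z') then ENNReal.ofReal ((fe b e z)⁻¹) * ENNReal.ofReal (fe b e (nW b K L * c * z')) else 0) * ENNReal.ofReal (Fe e y) := by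
  classical
  obtain ⟨C, hC, D, hcount⟩ := H29F.tau_count b K
  refine ⟨C * (1 + A) ^ D, by positivity, fun H S hS e J L 𝔫 z z' c y => ?_⟩
  by_cases hchi : ∀ k, Chi b 𝔫 k (nW b K L * c * z')
  swap
  · rw [if_neg hchi, mul_zero, zero_mul]
    refine le_of_eq (ENNReal.tsum_eq_zero.2 fun τ => ?_)
    rw [Set.indicator_of_notMem (fun h => hchi h.2.1), zero_mul]
  rw [if_pos hchi]
  set T : Set {τ : H // τ.1 ∈ TK b K} := {τ | c ∈ F2.Lt b K J L 𝔫 z z' τ.1.1 ∧ embH H τ.1 * y ∈ S} with hT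
  set a : ℝ≥0∞ := ENNReal.ofReal ((fe b e z)⁻¹) * ENNReal.ofReal (fe b e (nW b K L * c * z')) * ENNReal.ofReal (Fe e y) with ha
  have h1 : ∀ τ : {τ : H // τ.1 ∈ TK b K}, (F2.Lt b K J L 𝔫 z z' τ.1.1).indicator (1 : GK b K → ℝ≥0∞) c * S.indicator (fun y => ENNReal.ofReal (Fe e y)) (embH H τ.1 * y) = T.indicator (fun _ => a) τ := by
    intro τ
    by_cases h2 : c ∈ F2.Lt b K J L 𝔫 z z' τ.1.1
    · by_cases h3 : embH H τ.1 * y ∈ S
      · rw [Set.indicator_of_mem h2, Set.indicator_of_mem h3, Set.indicator_of_mem (show τ ∈ T from ⟨h2, h3⟩), Pi.one_apply, one_mul, Fe_Lt e τ.2 h2 y, ha]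
        have h4 := (FI.fe_pos b e z).le
        have h5 := (FI.fe_pos b e (nW b K L * c * z')).le
        rw [ENNReal.ofReal_mul (by positivity), ENNReal.ofReal_mul (by positivity)]
      · rw [Set.indicator_of_notMem h3, Set.indicator_of_notMem (fun h : τ ∈ T => h3 h.2), mul_zero]
    · rw [Set.indicator_of_notMem h2, Set.indicator_of_notMem (fun h : τ ∈ T => h2 h.1), zero_mul]
  rw [tsum_congr h1]
  have hfin : T.Finite ∧ (T.ncard : ℝ) ≤ C * (1 + A) ^ D := by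
    rcases T.eq_empty_or_nonempty with hE | ⟨τ0, hτ0⟩
    · rw [hE, Set.ncard_empty, Nat.cast_zero]
      exact ⟨Set.finite_empty, by positivity⟩
    obtain ⟨hf, hn⟩ := hcount H (fun v k => Ah b v z k / Ah b v (nW b K L * c * z') k) y (fun w j => Hw w (embH H τ0.1 * y) j) A hA0
    have hmaps : Set.MapsTo (fun τ : {τ : H // τ.1 ∈ TK b K} => τ.1) T
        {t : H | t.1 ∈ TK b K ∧ (∀ v k, av v (tv b K t.1 k) = Ah b v z k / Ah b v (nW b K L * c * z') k) ∧ ∀ w j, |Hw w (embH H t * y) j - Hw w (embH H τ0.1 * y) j| ≤ A} := by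
      intro τ hτ
      refine ⟨τ.2, fun v k => ?_, fun w j => hS _ hτ.2 _ hτ0.2 w j⟩
      rw [← hτ.1.2.2 v k, mul_div_cancel_right₀ _ (FI.Ah_pos b v _ k).ne']
    have hinj : Set.InjOn (fun τ : {τ : H // τ.1 ∈ TK b K} => τ.1) T := fun τ _ τ' _ h => Subtype.ext h
    refine ⟨Set.Finite.of_finite_image (hf.subset hmaps.image_subset) hinj, le_trans ?_ hn⟩
    exact_mod_cast Set.ncard_le_ncard_of_injOn _ hmaps hinj hf
  refine (t1_const hfin.1 hfin.2 a).trans (le_of_eq ?_)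
  rw [ha]
  ring

/-- **(U4), (U5)**: the sum over the torus part of the integrals over `N_J`. -/
theorem tau_sum (b : P.Base) (K : Type) [Field K] [NumberField K] (A : ℝ) (hA0 : 0 ≤ A) : ∃ M : ℝ, 0 < M ∧ ∀ (H : Subgroup (GK b K)) (S : Set (HRt H)), MeasurableSet S →
    (∀ y ∈ S, ∀ y' ∈ S, ∀ w i, |Hw w y i - Hw w y' i| ≤ A) →
    ∀ (e : b.support → ℝ) (J : Finset b.support) (L : List b.support) (𝔫 : Ideal (𝓞 K)) (z z' : GK b K) (Λ : Subgroup (GK b K)) (X : GK b K → Set (GK b K)) (κ : ℝ≥0∞),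
    (∀ τ ∈ TK b K, rs (NJ b K J) Λ ((X τ).indicator 1) ≤ κ * rs (NJ b K J) Λ ((F2.Lt b K J L 𝔫 z z' τ).indicator 1)) →
    ∀ (ν : Measure (HRt H)) (n y : HRt H),
    ∑' τ : {τ : H // τ.1 ∈ TK b K}, rs (NJ b K J) Λ ((X τ.1.1).indicator 1) * ∫⁻ v, S.indicator (fun y => ENNReal.ofReal (Fe e y)) (embH H τ.1 * (n * v * y)) ∂ν ≤
      κ * (ENNReal.ofReal M * ENNReal.ofReal ((fe b e z)⁻¹) *
        rs (NJ b K J) Λ (fun c => open scoped Classical in if ∀ k, Chi b 𝔫 k (nW b K L * c * z') then ENNReal.ofReal (fe b e (nW b K L * c * z')) else 0) * ∫⁻ v, ENNReal.ofReal (Fe e (n * v * y)) ∂ν) := by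
  classical
  obtain ⟨M, hM, hpt⟩ := tau_pt b K A hA0
  refine ⟨M, hM, fun H S hSm hS e J L 𝔫 z z' Λ X κ hκ ν n y => ?_⟩
  set I : {τ : H // τ.1 ∈ TK b K} → ℝ≥0∞ := fun τ => ∫⁻ v, S.indicator (fun y => ENNReal.ofReal (Fe e y)) (embH H τ.1 * (n * v * y)) ∂ν with hI
  have hFm : Measurable fun y : HRt H => ENNReal.ofReal (Fe e y) := ENNReal.measurable_ofReal.comp (Fe_cont e).measurable
  have hgm : ∀ τ : {τ : H // τ.1 ∈ TK b K}, Measurable fun v : HRt H => S.indicator (fun y => ENNReal.ofReal (Fe e y)) (embH H τ.1 * (n * v * y)) := by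
    intro τ
    have hc : Continuous fun v : HRt H => embH H τ.1 * (n * v * y) := continuous_const.mul ((continuous_const.mul continuous_id).mul continuous_const)
    have hm : Measurable fun v : HRt H => embH H τ.1 * (n * v * y) := hc.measurable
    exact (hFm.indicator hSm).comp hm
  have h1 : ∑' τ : {τ : H // τ.1 ∈ TK b K}, rs (NJ b K J) Λ ((X τ.1.1).indicator 1) * I τ ≤
      κ * ∑' τ : {τ : H // τ.1 ∈ TK b K}, rs (NJ b K J) Λ ((F2.Lt b K J L 𝔫 z z' τ.1.1).indicator 1) * I τ := by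
    rw [← ENNReal.tsum_mul_left]
    refine ENNReal.tsum_le_tsum fun τ => ?_
    rw [← mul_assoc]
    gcongr
    exact hκ τ.1.1 τ.2
  refine h1.trans ?_
  gcongr
  -- exchange the sums
  set a : (GK b K ⧸ Λ) → {τ : H // τ.1 ∈ TK b K} → ℝ≥0∞ := fun q τ =>
    if (Quotient.out q)⁻¹ ∈ (NJ b K J : Set (GK b K)) then (F2.Lt b K J L 𝔫 z z' τ.1.1).indicator (1 : GK b K → ℝ≥0∞) ((Quotient.out q)⁻¹)⁻¹ else 0 with ha
  have h2 : ∀ τ : {τ : H // τ.1 ∈ TK b K}, rs (NJ b K J) Λ ((F2.Lt b K J L 𝔫 z z' τ.1.1).indicator 1) = ∑' q, a q τ := fun τ => rfl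
  have h3 : ∑' τ : {τ : H // τ.1 ∈ TK b K}, rs (NJ b K J) Λ ((F2.Lt b K J L 𝔫 z z' τ.1.1).indicator 1) * I τ = ∑' q, ∑' τ, a q τ * I τ := by
    rw [ENNReal.tsum_comm]
    refine tsum_congr fun τ => ?_
    rw [h2, ENNReal.tsum_mul_right]
  rw [h3]
  have h4 : ∀ q, ∑' τ, a q τ * I τ ≤ ENNReal.ofReal M * ENNReal.ofReal ((fe b e z)⁻¹) *
      (if (Quotient.out q)⁻¹ ∈ (NJ b K J : Set (GK b K)) then (if ∀ k, Chi b 𝔫 k (nW b K L * ((Quotient.out q)⁻¹)⁻¹ * z') then ENNReal.ofReal (fe b e (nW b K L * ((Quotient.out q)⁻¹)⁻¹ * z')) else 0) else 0) *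
      ∫⁻ v, ENNReal.ofReal (Fe e (n * v * y)) ∂ν := by
    intro q
    by_cases hq : (Quotient.out q)⁻¹ ∈ (NJ b K J : Set (GK b K))
    swap
    · rw [if_neg hq, mul_zero, zero_mul]
      refine le_of_eq (ENNReal.tsum_eq_zero.2 fun τ => ?_)
      rw [ha]
      show (if (Quotient.out q)⁻¹ ∈ (NJ b K J : Set (GK b K)) then (F2.Lt b K J L 𝔫 z z' τ.1.1).indicator (1 : GK b K → ℝ≥0∞) ((Quotient.out q)⁻¹)⁻¹ else 0) * I τ = 0
      rw [if_neg hq, zero_mul]
    rw [if_pos hq]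
    set c : GK b K := ((Quotient.out q)⁻¹)⁻¹ with hc
    have h5 : ∀ τ : {τ : H // τ.1 ∈ TK b K}, a q τ * I τ = ∫⁻ v, (F2.Lt b K J L 𝔫 z z' τ.1.1).indicator (1 : GK b K → ℝ≥0∞) c * S.indicator (fun y => ENNReal.ofReal (Fe e y)) (embH H τ.1 * (n * v * y)) ∂ν := by
      intro τ
      rw [lintegral_const_mul _ (hgm τ)]
      show (if (Quotient.out q)⁻¹ ∈ (NJ b K J : Set (GK b K)) then (F2.Lt b K J L 𝔫 z z' τ.1.1).indicator (1 : GK b K → ℝ≥0∞) ((Quotient.out q)⁻¹)⁻¹ else 0) * I τ = _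
      rw [if_pos hq]
    rw [tsum_congr h5]
    refine (t1_tsum ν _ fun τ => ((hgm τ).const_mul _).aemeasurable).trans ?_
    have hc2 : Continuous fun v : HRt H => n * v * y := (continuous_const.mul continuous_id).mul continuous_const
    have hm2 : Measurable fun v : HRt H => ENNReal.ofReal (Fe e (n * v * y)) := hFm.comp hc2.measurable
    rw [← lintegral_const_mul _ hm2]
    refine lintegral_mono fun v => ?_
    refine (hpt H S hS e J L 𝔫 z z' c (n * v * y)).trans (le_of_eq ?_)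
    by_cases hchi : ∀ k, Chi b 𝔫 k (nW b K L * c * z')
    · rw [if_pos hchi, if_pos hchi]
      ring
    · rw [if_neg hchi, if_neg hchi, mul_zero, mul_zero]
  refine (ENNReal.tsum_le_tsum h4).trans (le_of_eq ?_)
  rw [ENNReal.tsum_mul_right, ENNReal.tsum_mul_left]
  rfl

end

end Pool.Agent.Lib.L8.FU
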