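import Pool.Agent.Lib.L1S.TW0

/-!
# FU, U1: the mean over a fundamental domain of a semidirect product

`T` a group with the measure `ν`, `π : T → T` an idempotent homomorphism (the projection to the Levi part), `V = ker π`. `ν` is the image of `νV × νM` under `(v, m) ↦ v m`. A discrete group `Γ` with fundamental
domains `D''` of `Γ ∩ V` and `D'` of `π(Γ)`: the set of the `t` with `π(t) ∈ D'`, `t π(t)⁻¹ ∈ D''` is a fundamental domain of `Γ`, and the mean over it is the mean of the means over the fibres.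
-/

namespace Pool.Agent.Lib.L8.FU

open MeasureTheory Pool.Agent.Lib.H33W Pool.Agent.Lib.H67G Pool.Agent.Lib.L1S
open scoped ENNReal

noncomputable section

set_option linter.unusedSectionVars false

variable {T H : Type} [Group T] [Group H] [MulAction H T]

/-- The algebraic data: `H` acts on `T` by left multiplication through `k`; the projections `π` and `q` of `T` and `H` are compatible. -/
structure Prj (k : H →* T) (π : T →* T) (q : H →* H) : Prop where
  act : ∀ (h : H) (t : T), h • t = k h * t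
  idem : ∀ t, π (π t) = π t
  cpt : ∀ h, π (k h) = k (q h)

variable {k : H →* T} {π : T →* T} {q : H →* H}

/-- The product of the fundamental domains. -/
def PD (π : T →* T) (D'' D' : Set T) : Set T := {t | π t ∈ D' ∧ t * (π t)⁻¹ ∈ D''}

/-- **Fundamental domains of semidirect products.** -/
theorem sf_prod [MeasurableSpace T] (hP : Prj k π q) (mπ : Measurable π) (mt : Measurable fun t : T => t * (π t)⁻¹) {Γ : Subgroup H} {D'' D' : Set T}
    (hV : SF (Γ ⊓ q.ker) D'') (hM : SF (Γ.map q) D') : SF Γ (PD π D'' D') := by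
  refine ⟨(mπ hM.meas).inter (mt hV.meas), fun t => ?_⟩
  obtain ⟨⟨γ₁, hγ₁⟩, h1, h2⟩ := hM.fd (π t)
  obtain ⟨γ, hγ, rfl⟩ := hγ₁
  have h1' : k (q γ) * π t ∈ D' := by
    have h3 : (q γ) • (π t) ∈ D' := h1
    rwa [hP.act] at h3
  obtain ⟨⟨δ, hδ⟩, h3, h4⟩ := hV.fd (k γ * t * (π (k γ * t))⁻¹)
  have h3' : k δ * (k γ * t * (π (k γ * t))⁻¹) ∈ D'' := by
    have h5 : δ • (k γ * t * (π (k γ * t))⁻¹) ∈ D'' := h3
    rwa [hP.act] at h5
  have kδ : π (k δ) = 1 := by
    rw [hP.cpt, MonoidHom.mem_ker.1 hδ.2, map_one]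
  refine ⟨⟨δ * γ, Γ.mul_mem hδ.1 hγ⟩, ⟨?_, ?_⟩, ?_⟩
  · show π ((δ * γ) • t) ∈ D'
    rw [hP.act, map_mul π, map_mul k, map_mul π, kδ, one_mul, hP.cpt]
    exact h1'
  · show (δ * γ) • t * (π ((δ * γ) • t))⁻¹ ∈ D''
    have e9 : π ((δ * γ) • t) = π (k γ * t) := by
      rw [hP.act, map_mul π, map_mul k, map_mul π, kδ, one_mul, map_mul π]
    rw [e9, hP.act, map_mul k]
    convert h3' using 1
    simp only [mul_assoc]
  · rintro ⟨γ', hγ'⟩ ⟨h5, h6⟩
    have h5' : k (q γ') * π t ∈ D' := by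
      have h7 : π (γ' • t) ∈ D' := h5
      rwa [hP.act, map_mul, hP.cpt] at h7
    have h6' : k γ' * t * (π (k γ' * t))⁻¹ ∈ D'' := by
      have h7 : γ' • t * (π (γ' • t))⁻¹ ∈ D'' := h6
      rwa [hP.act] at h7
    have e1 : q γ' = q γ := by
      have h8 := h2 ⟨q γ', ⟨γ', hγ', rfl⟩⟩ (by
        show (q γ') • (π t) ∈ D'
        rwa [hP.act])
      exact congrArg Subtype.val h8
    have hδ' : γ' * γ⁻¹ ∈ Γ ⊓ q.ker := ⟨Γ.mul_mem hγ' (Γ.inv_mem hγ), (MonoidHom.mem_ker (f := q)).2 (by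
      rw [map_mul, map_inv, e1, mul_inv_cancel])⟩
    have e2 : π (k γ' * t) = π (k γ * t) := by
      rw [map_mul, map_mul, hP.cpt, hP.cpt, e1]
    have h9 := h4 ⟨γ' * γ⁻¹, hδ'⟩ (by
      show (γ' * γ⁻¹) • (k γ * t * (π (k γ * t))⁻¹) ∈ D''
      rw [hP.act]
      rw [e2] at h6'
      convert h6' using 1
      rw [map_mul, map_inv]
      group)
    have e3 : γ' * γ⁻¹ = δ := congrArg Subtype.val h9
    apply Subtype.ext
    show γ' = δ * γ
    rw [← e3, inv_mul_cancel_right]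

/-- **The mean over a fundamental domain of a semidirect product** is bounded by the means over the fibres. -/
theorem mean_prod [MeasurableSpace T] [MeasurableMul₂ T] (hP : Prj k π q) (mπ : Measurable π) (mt : Measurable fun t : T => t * (π t)⁻¹) {Γ : Subgroup H} [Countable H] {D'' D' D : Set T}
    (hV : SF (Γ ⊓ q.ker) D'') (hM : SF (Γ.map q) D') (hD : SF Γ D) {ν νV νM : Measure T} [SFinite νV] [SFinite νM]
    (hν : ν = (νV.prod νM).map fun p => p.1 * p.2) (hp : ∀ g : H, MeasurePreserving (fun t : T => g • t) ν ν)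
    (aV : ∀ᵐ v ∂νV, π v = 1) (aM : ∀ᵐ m ∂νM, π m = m) {Φ : T → ℝ≥0∞} (mΦ : Measurable Φ) (iΦ : ∀ γ ∈ Γ, ∀ t, Φ (γ • t) = Φ t)
    {B : ℝ≥0∞} (hB : ∀ m, π m = m → ∫⁻ v in D'', Φ (v * m) ∂νV ≤ B * νV D'') : ∫⁻ t in D, Φ t ∂ν ≤ B * ν D := by
  have hs := sf_prod hP mπ mt hV hM
  have hm : Measurable fun p : T × T => p.1 * p.2 := measurable_mul
  have e0 : ∀ {Ψ : T → ℝ≥0∞}, Measurable Ψ → (∀ γ ∈ Γ, ∀ t, Ψ (γ • t) = Ψ t) → ∫⁻ t in D, Ψ t ∂ν = ∫⁻ t in PD π D'' D', Ψ t ∂ν := by
    intro Ψ mΨ iΨ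
    rw [u2_lint hp le_rfl hs hD mΨ iΨ, an_u2k (by rw [Subgroup.relIndex_self]; exact one_ne_zero), Subgroup.relIndex_self, Nat.cast_one, one_mul]
  have key : ∀ {Ψ : T → ℝ≥0∞}, Measurable Ψ → ∫⁻ t in PD π D'' D', Ψ t ∂ν = ∫⁻ m, D'.indicator 1 m * ∫⁻ v in D'', Ψ (v * m) ∂νV ∂νM := by
    intro Ψ mΨ
    have mI : Measurable ((PD π D'' D').indicator Ψ) := mΨ.indicator hs.meas
    rw [← lintegral_indicator hs.meas, hν, lintegral_map mI hm, lintegral_prod_symm (fun p : T × T => (PD π D'' D').indicator Ψ (p.1 * p.2)) (mI.comp hm).aemeasurable]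
    refine lintegral_congr_ae ?_
    filter_upwards [aM] with m hmm
    show ∫⁻ v, (PD π D'' D').indicator Ψ (v * m) ∂νV = _
    have m2 : Measurable (D''.indicator fun v => Ψ (v * m)) := (mΨ.comp (measurable_mul_const m)).indicator hV.meas
    rw [← lintegral_indicator hV.meas, ← lintegral_const_mul _ m2]
    refine lintegral_congr_ae ?_
    filter_upwards [aV] with v hvv
    have e1 : π (v * m) = m := by rw [map_mul, hvv, one_mul, hmm]
    have e2 : v * m * (π (v * m))⁻¹ = v := by rw [e1, mul_inv_cancel_right]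
    show (PD π D'' D').indicator Ψ (v * m) = D'.indicator 1 m * D''.indicator (fun v => Ψ (v * m)) v
    by_cases h1 : m ∈ D'
    · by_cases h2 : v ∈ D''
      · have h3 : v * m ∈ PD π D'' D' := ⟨by rw [e1]; exact h1, by rw [e2]; exact h2⟩
        rw [Set.indicator_of_mem h3, Set.indicator_of_mem h1, Set.indicator_of_mem h2, Pi.one_apply, one_mul]
      · have h3 : v * m ∉ PD π D'' D' := fun h => h2 (by rw [← e2]; exact h.2)
        rw [Set.indicator_of_notMem h3, Set.indicator_of_notMem h2, mul_zero]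
    · have h3 : v * m ∉ PD π D'' D' := fun h => h1 (by rw [← e1]; exact h.1)
      rw [Set.indicator_of_notMem h3, Set.indicator_of_notMem h1, zero_mul]
  have e3 : ν D = ∫⁻ m, D'.indicator 1 m * νV D'' ∂νM := by
    have h1 := e0 (Ψ := fun _ => 1) measurable_const (fun _ _ _ => rfl)
    rw [key measurable_const] at h1
    simpa using h1
  rw [e0 mΦ iΦ, key mΦ, e3]
  have m1 : Measurable fun m : T => D'.indicator (1 : T → ℝ≥0∞) m * νV D'' := (measurable_one.indicator hM.meas).mul_const _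
  rw [← lintegral_const_mul _ m1]
  refine lintegral_mono_ae ?_
  filter_upwards [aM] with m hmm
  rw [mul_left_comm]
  exact mul_le_mul_right (hB m hmm) _

end

end Pool.Agent.Lib.L8.FU
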