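import Pool.Agent.Lib.L8.FU.U1

/-!
# FU, U2: unfolding on the fibres
-/

namespace Pool.Agent.Lib.L8.FU

open MeasureTheory Pool.Agent.Lib.H33W Pool.Agent.Lib.H67G Pool.Agent.Lib.L1S
open scoped ENNReal

noncomputable section

set_option linter.unusedSectionVars false

variable {T H : Type} [Group T] [Group H] [MulAction H T]

/-- Sums over a group by cosets `h Γ`. -/
theorem tsum_coset (Γ : Subgroup H) (f : H → ℝ≥0∞) : ∑' h, f h = ∑' c : H ⧸ Γ, ∑' u : Γ, f (Quotient.out c * u) := by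
  rw [← (u2e Γ).tsum_eq]
  exact ENNReal.tsum_prod (f := fun (c : H ⧸ Γ) (u : Γ) => f (u2e Γ (c, u)))

/-- **Unfolding** over a subgroup `Λ` which preserves the measure. -/
theorem unf [MeasurableSpace T] {Λ : Subgroup H} [Countable Λ] {F : Set T} (hF : SF Λ F) {μ : Measure T} (hp : ∀ g ∈ Λ, MeasurePreserving (fun t : T => g • t) μ μ)
    {G : T → ℝ≥0∞} (hG : Measurable G) : ∫⁻ x, G x ∂μ = ∫⁻ x in F, ∑' γ : Λ, G (γ.1 • x) ∂μ := by
  have hm : MeasurableSet F := hF.meas
  have mc : ∀ γ : Λ, Measurable fun x : T => γ.1 • x := fun γ => (hp γ.1 γ.2).measurable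
  have hone : ∀ x : T, ∑' γ : Λ, F.indicator (fun _ => (1 : ℝ≥0∞)) (γ.1 • x) = 1 := fun x =>
    a1_single (hF.fd x) (fun z hz => Set.indicator_of_mem hz _) (fun z hz => Set.indicator_of_notMem hz _)
  calc ∫⁻ x, G x ∂μ = ∫⁻ x, ∑' γ : Λ, G x * F.indicator (fun _ => (1 : ℝ≥0∞)) (γ.1 • x) ∂μ := by
        refine lintegral_congr fun x => ?_
        rw [ENNReal.tsum_mul_left, hone, mul_one]
    _ = ∑' γ : Λ, ∫⁻ x, G x * F.indicator (fun _ => (1 : ℝ≥0∞)) (γ.1 • x) ∂μ :=
        lintegral_tsum fun γ => (hG.mul ((measurable_const.indicator hm).comp (mc γ))).aemeasurable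
    _ = ∑' γ : Λ, ∫⁻ x in F, G (γ.1⁻¹ • x) ∂μ := by
        refine tsum_congr fun γ => ?_
        have m0 : Measurable fun x => G (γ.1⁻¹ • x) * F.indicator (fun _ => (1 : ℝ≥0∞)) x :=
          (hG.comp (mc γ⁻¹)).mul (measurable_const.indicator hm)
        have h1 := (hp γ.1 γ.2).lintegral_comp m0
        simp only [inv_smul_smul] at h1
        rw [h1, ← lintegral_indicator hm]
        refine lintegral_congr fun v => ?_
        by_cases hv : v ∈ F
        · rw [Set.indicator_of_mem hv, Set.indicator_of_mem hv, mul_one]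
        · rw [Set.indicator_of_notMem hv, Set.indicator_of_notMem hv, mul_zero]
    _ = ∑' γ : Λ, ∫⁻ x in F, G (γ.1 • x) ∂μ := by
        rw [← (Equiv.inv Λ).tsum_eq]
        refine tsum_congr fun γ => ?_
        have e : (Equiv.inv Λ γ).1⁻¹ = γ.1 := by
          change ((γ⁻¹ : Λ).1)⁻¹ = γ.1
          rw [InvMemClass.coe_inv, inv_inv]
        rw [e]
    _ = ∫⁻ x in F, ∑' γ : Λ, G (γ.1 • x) ∂μ :=
        (lintegral_tsum (μ := μ.restrict F) fun γ : Λ => (hG.comp (mc γ)).aemeasurable).symm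

/-- The number of the cosets `u Λ` in the set `X`. -/
def nC (Λ : Subgroup H) (X : Set H) : ℝ≥0∞ := ∑' c : H ⧸ Λ, X.indicator 1 (Quotient.out c)

theorem nC_mono {Λ : Subgroup H} {X Y : Set H} (h : X ⊆ Y) : nC Λ X ≤ nC Λ Y := by
  refine ENNReal.tsum_le_tsum fun c => ?_
  by_cases h1 : Quotient.out c ∈ X
  · rw [Set.indicator_of_mem h1, Set.indicator_of_mem (h h1)]
  · rw [Set.indicator_of_notMem h1]
    exact zero_le

/-- **Unfolding of the sum over a set `X` of elements of `V`**: `∫_(D'') ∑_(u ∈ X) φ(u v m) dv = #(X / Λ) ∫_V φ(v m) dv`. -/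
theorem fibre [MeasurableSpace T] [MeasurableMul₂ T] {k : H →* T} (act : ∀ (h : H) (t : T), h • t = k h * t) [Countable H] {Λ : Subgroup H} {D'' : Set T} (hV : SF Λ D'')
    {μ : Measure T} {X : Set H} (hX : ∀ u ∈ X, ∀ δ ∈ Λ, u * δ ∈ X) (hp : ∀ g : H, g ∈ Λ → MeasurePreserving (fun t : T => g • t) μ μ)
    (hp' : ∀ g ∈ X, MeasurePreserving (fun t : T => g • t) μ μ) {φ : T → ℝ≥0∞} (mφ : Measurable φ) (m : T) :
    ∫⁻ v in D'', ∑' u : H, X.indicator 1 u * φ (k u * (v * m)) ∂μ = nC Λ X * ∫⁻ v, φ (v * m) ∂μ := by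
  have hX' : ∀ u : H, ∀ δ : Λ, (u * δ ∈ X ↔ u ∈ X) := fun u δ => ⟨fun h => by
    have h1 := hX _ h _ (Λ.inv_mem δ.2)
    rwa [mul_inv_cancel_right] at h1, fun h => hX u h _ δ.2⟩
  have cq : Countable (H ⧸ Λ) := Quotient.countable
  have mm : ∀ g : T, Measurable fun v : T => φ (g * (v * m)) := fun g => mφ.comp ((measurable_mul_const m).const_mul g)
  calc ∫⁻ v in D'', ∑' u : H, X.indicator 1 u * φ (k u * (v * m)) ∂μ
      = ∫⁻ v in D'', ∑' c : H ⧸ Λ, X.indicator 1 (Quotient.out c) * ∑' δ : Λ, φ (k (Quotient.out c) * ((δ.1 • v) * m)) ∂μ := by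
        refine lintegral_congr fun v => ?_
        rw [tsum_coset Λ]
        refine tsum_congr fun c => ?_
        rw [← ENNReal.tsum_mul_left]
        refine tsum_congr fun δ => ?_
        have e1 : X.indicator (1 : H → ℝ≥0∞) (Quotient.out c * δ) = X.indicator 1 (Quotient.out c) := by
          by_cases h : Quotient.out c ∈ X
          · rw [Set.indicator_of_mem h, Set.indicator_of_mem ((hX' _ δ).2 h)]
            rfl
          · rw [Set.indicator_of_notMem h, Set.indicator_of_notMem fun h' => h ((hX' _ δ).1 h')]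
        rw [e1, act, map_mul]
        simp only [mul_assoc]
    _ = ∑' c : H ⧸ Λ, X.indicator 1 (Quotient.out c) * ∫⁻ v in D'', ∑' δ : Λ, φ (k (Quotient.out c) * ((δ.1 • v) * m)) ∂μ := by
        have ms : ∀ c : H ⧸ Λ, Measurable fun v : T => ∑' δ : Λ, φ (k (Quotient.out c) * ((δ.1 • v) * m)) := fun c =>
          Measurable.ennreal_tsum fun δ => (mm (k (Quotient.out c))).comp (hp δ.1 δ.2).measurable
        rw [lintegral_tsum fun c => ((ms c).const_mul _).aemeasurable]
        refine tsum_congr fun c => ?_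
        rw [lintegral_const_mul _ (ms c)]
    _ = ∑' c : H ⧸ Λ, X.indicator 1 (Quotient.out c) * ∫⁻ v, φ (v * m) ∂μ := by
        refine tsum_congr fun c => ?_
        by_cases h : Quotient.out c ∈ X
        · congr 1
          rw [← unf hV hp (G := fun v => φ (k (Quotient.out c) * (v * m))) (mm _)]
          have h1 := (hp' _ h).lintegral_comp (f := fun v => φ (v * m)) (mφ.comp (measurable_mul_const m))
          rw [← h1]
          refine lintegral_congr fun v => ?_
          rw [act, mul_assoc]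
        · rw [Set.indicator_of_notMem h, zero_mul, zero_mul]
    _ = nC Λ X * ∫⁻ v, φ (v * m) ∂μ := by
        rw [ENNReal.tsum_mul_right]
        rfl

end

end Pool.Agent.Lib.L8.FU
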