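import Pool.Agent.Lib.L8.FU.D
import Pool.Agent.Lib.L8.FC.D7
import Pool.Agent.Lib.L1S.TW0

/-!
# FU, U5: the classes of the cell are pairs `(τ, u)`

PROOF. `γ ∈ cell b L w`: `γ = u₁ m u₂`, `IsN b L w m`; `u₂ = μ v` (`HU_split`: `μ ∈ UM`, `v ∈ NJ`), `m = τ n` (`IsN` of `nW`: torus times representative), `m μ m⁻¹ ∈ HU` (`conj_UM`). So `γ = u' τ n v`.
For `γ, γ'` with the same `(τ, v)`: `γ' γ⁻¹ ∈ HU` and `ga γ' γ⁻¹ ga⁻¹ ∈ Γ₁`. So the map of the classes (`(Quotient.out c)⁻¹ ∈ S`, `c : H ⧸ U₀`) to the pairs is injective (`QuotientGroup.eq`), and `F γ = F (τ n v)`;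
`ENNReal.tsum_comp_le_tsum_of_injective` (after `tsum_subtype`), `ENNReal.tsum_prod`.
-/

namespace Pool.Agent.Lib.L8.FU

set_option linter.unusedSectionVars false

open MeasureTheory Matrix NumberField IsDedekindDomain Pool.Agent.Lib.H89N Pool.Agent.Lib.H33W Pool.Agent.Lib.H67G Pool.Agent.Lib.L1S Pool.Agent.Lib.L8.FL
open scoped ENNReal

noncomputable section

variable {ι M N : Type} [Fintype ι] [DecidableEq ι] [AddCommGroup M] [Module ℚ M] [AddCommGroup N] [Module ℚ N]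
  {P : RootPairing ι ℚ M N} [P.IsCrystallographic] [P.IsReduced] [P.IsIrreducible] [P.IsRootSystem]

variable {b : P.Base} {L : Type} [Field L] [NumberField L] {H : Subgroup (GK b L)}

/-- **The classes of the cell** inject into the pairs `(τ, u)`. -/
theorem ce_pairs (hT : H = ⊤) {J : Finset b.support} {w : Equiv.Perm ι} {Lw : List b.support} (hw : IsWJ b J w) (hW : wW b Lw = w) {n : H} (hn : n.1 = nW b L Lw) (Γ₁ : Subgroup H) (ga gb : H)
    {F : H → ℝ≥0∞} (hF : ∀ u ∈ HUH H, ∀ γ, F (u * γ) = F γ) :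
    ce (cjG Γ₁ ga ⊓ HUH H) (Zs Γ₁ ga gb ∩ {γ | γ.1 ∈ cell b L w}) F ≤ ∑' τ : TH H, ∑' u : HUH H, (XX J n Γ₁ ga gb τ).indicator 1 u * F (τ.1 * n * u.1) := by
  classical
  set U₀ : Subgroup H := cjG Γ₁ ga ⊓ HUH H with hU₀
  set S : Set H := Zs Γ₁ ga gb ∩ {γ | γ.1 ∈ cell b L w} with hS
  have hmem : ∀ g : GK b L, g ∈ H := fun g => by rw [hT]; exact Subgroup.mem_top g
  have hdec : ∀ c : {c : H ⧸ U₀ // (Quotient.out c)⁻¹ ∈ S}, ∃ q : TH H × HUH H, ∃ u' ∈ HUH H, (Quotient.out c.1)⁻¹ = u' * q.1.1 * n * q.2.1 ∧ q.2.1.1 ∈ NJ b L J := by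
    intro c
    have h1 : ((Quotient.out c.1)⁻¹ : H).1 ∈ cell b L (wW b Lw) := by rw [hW]; exact c.2.2
    obtain ⟨u, hu, t, ht, v, hv, e⟩ := FC.cell_split (J := J) (by rw [hW]; exact hw) h1
    refine ⟨(⟨⟨t, hmem t⟩, ht⟩, ⟨⟨v, hmem v⟩, hv.1⟩), ⟨u, hmem u⟩, hu, ?_, hv⟩
    apply Subtype.ext
    rw [e]
    show u * t * nW b L Lw * v = u * t * n.1 * v
    rw [hn]
  choose q u' hu' hq hqJ using hdec
  have hinj : Function.Injective q := by
    intro c c' h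
    have h1 : (Quotient.out c.1)⁻¹ * Quotient.out c'.1 = u' c * (u' c')⁻¹ := by
      have h2 : Quotient.out c'.1 = ((Quotient.out c'.1)⁻¹)⁻¹ := (inv_inv _).symm
      rw [h2, hq c, hq c', h]
      group
    have h3 : (Quotient.out c.1)⁻¹ * Quotient.out c'.1 ∈ U₀ := by
      refine ⟨?_, ?_⟩
      · have h4 := c.2.1
        have h5 := c'.2.1
        have h6 : ga * ((Quotient.out c.1)⁻¹ * Quotient.out c'.1) * ga⁻¹ = (ga * (Quotient.out c.1)⁻¹ * gb⁻¹) * (ga * (Quotient.out c'.1)⁻¹ * gb⁻¹)⁻¹ := by group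
        have h7 : (Quotient.out c.1)⁻¹ * Quotient.out c'.1 ∈ cjG Γ₁ ga := by
          rw [cjG_mem, h6]
          exact Γ₁.mul_mem h4 (Γ₁.inv_mem h5)
        exact h7
      · have h7 : (Quotient.out c.1)⁻¹ * Quotient.out c'.1 ∈ HUH H := by
          rw [h1]
          exact (HUH H).mul_mem (hu' c) ((HUH H).inv_mem (hu' c'))
        exact h7
    apply Subtype.ext
    rw [← QuotientGroup.out_eq' c.1, ← QuotientGroup.out_eq' c'.1]
    exact QuotientGroup.eq.2 h3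
  have h1 : ce U₀ S F = ∑' c : {c : H ⧸ U₀ // (Quotient.out c)⁻¹ ∈ S}, F (Quotient.out c.1)⁻¹ := by
    unfold ce
    refine Eq.trans (tsum_congr fun c => ?_) (tsum_subtype {c : H ⧸ U₀ | (Quotient.out c)⁻¹ ∈ S} fun c => F (Quotient.out c)⁻¹).symm
    by_cases h : (Quotient.out c)⁻¹ ∈ S
    · rw [if_pos h, Set.indicator_of_mem (show c ∈ {c : H ⧸ U₀ | (Quotient.out c)⁻¹ ∈ S} from h)]
    · rw [if_neg h, Set.indicator_of_notMem (show c ∉ {c : H ⧸ U₀ | (Quotient.out c)⁻¹ ∈ S} from h)]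
  set g : TH H × HUH H → ℝ≥0∞ := fun x => (XX J n Γ₁ ga gb x.1).indicator 1 x.2 * F (x.1.1 * n * x.2.1) with hg
  have h2 : ∀ c, F (Quotient.out c.1)⁻¹ = g (q c) := by
    intro c
    have h3 : (q c).2 ∈ XX J n Γ₁ ga gb (q c).1 := ⟨hqJ c, u' c, hu' c, by rw [← hq c]; exact c.2.1⟩
    rw [hg]
    show _ = (XX J n Γ₁ ga gb (q c).1).indicator 1 (q c).2 * F ((q c).1.1 * n * (q c).2.1)
    rw [Set.indicator_of_mem h3, Pi.one_apply, one_mul, hq c, mul_assoc, mul_assoc, hF _ (hu' c), ← mul_assoc]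
  rw [h1, tsum_congr h2]
  refine (ENNReal.tsum_comp_le_tsum_of_injective hinj g).trans (le_of_eq ?_)
  exact ENNReal.tsum_prod (f := fun τ u => (XX J n Γ₁ ga gb τ).indicator 1 u * F (τ.1 * n * u.1))

end

end Pool.Agent.Lib.L8.FU
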