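import Pool.Agent.Lib.L8.FU.D
import Pool.Agent.Lib.H29F.FH1

/-!
# FU, U6: `X_τ ⊆ L_τ`, and the product formula on `L_τ`

PROOF of `XX_sub`. `ga (u' τ n u) gb⁻¹ = γ₁ ∈ Γ₁ ≤ G1 𝔫`: `n u gb⁻¹ = τ⁻¹ u'⁻¹ ga⁻¹ γ₁`. `Chi` is invariant under left multiplication by `TK`, `HU` (they are in `PJ`, which is stable under them) and right multiplication by `G1 𝔫` (`Chi_mul`).
Heights: `Ah v (τ g) k = |α_k(τ)|_v Ah v g k`, `Ah v (u g) = Ah v g`, `Ah v (g γ₁) = Ah v g` (FI / FH1).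
PROOF of `Fe_LL`: `Fe_torus` and `∏_v |α_k(τ)|_v = ∏_v (Ah v ga⁻¹ k / Ah v (n u gb⁻¹) k)` (finite supports), `fe = ∏ᶠ v, ∏ k, Ah ^ e k`.
-/

namespace Pool.Agent.Lib.L8.FU

set_option linter.unusedSectionVars false

open MeasureTheory Matrix NumberField IsDedekindDomain Pool.Agent.Lib.H89N Pool.Agent.Lib.H33W Pool.Agent.Lib.H67G Pool.Agent.Lib.L1S Pool.Agent.Lib.L8.FL
open scoped ENNReal

noncomputable section

variable {ι M N : Type} [Fintype ι] [DecidableEq ι] [AddCommGroup M] [Module ℚ M] [AddCommGroup N] [Module ℚ N]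
  {P : RootPairing ι ℚ M N} [P.IsCrystallographic] [P.IsReduced] [P.IsIrreducible] [P.IsRootSystem]

variable {b : P.Base} {L : Type} [Field L] [NumberField L] {H : Subgroup (GK b L)}

/-- `X_τ ⊆ L_τ`. -/
theorem XX_sub (J : Finset b.support) {𝔫 : Ideal (𝓞 L)} (A : Finset b.support) (n : H) {Γ₁ : Subgroup H} (hG : ∀ g ∈ Γ₁, g.1 ∈ G1 b 𝔫) (ga gb : H) (hχ : ∀ j ∈ A, Chi b 𝔫 j ga.1⁻¹) (τ : TH H) :
    XX J n Γ₁ ga gb τ ⊆ LL J 𝔫 A n ga gb τ := by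
  sorry

/-- The product formula on `L_τ`. -/
theorem Fe_LL {J : Finset b.support} {𝔫 : Ideal (𝓞 L)} {A : Finset b.support} {n ga gb : H} {τ : TH H} {u : HUH H} (hu : u ∈ LL J 𝔫 A n ga gb τ) (e : b.support → ℝ) (y : HRt H) :
    Fe e (embH H τ.1 * y) = fe b e (n.1 * u.1.1 * gb.1⁻¹) / fe b e ga.1⁻¹ * Fe e y := by
  sorry

end

end Pool.Agent.Lib.L8.FU
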