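import Pool.Agent.Lib.L8.FU.U6
import Pool.Agent.Lib.L8.FU.T1

/-!
# FU, U7: the number of the torus elements and the sum over `τ`

PROOF of `th_count`. Take `τ₀` in the set. For `τ` in it `t = τ₀⁻¹ τ` (or `τ τ₀⁻¹`) satisfies `|α_k(t)|_v = 1` for all finite `v` (so `α_k(t)` is a unit) and `|log |α_k(t)|_w| ≤ C A₀` (`al_Hw`, `al` is linear with bounded
coefficients); `t` is determined by its `α_k(t)` and its scalar `s = t_(inl j)`, a root of unity (`tk_entries`, `tk_abs`): finitely many (`uR_card_pi` and the units with all absolute values one).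
PROOF of `sum_IT`: `IT ≤ ∫ 1_S(τ n v y) (f(n u gb⁻¹) / f(ga⁻¹)) F_e(n v y)` by `Fe_LL`; exchange the sum over `τ` and the integral (`lintegral_tsum`, `TH H` countable); for fixed `v` at most `M` elements `τ` with `u ∈ L_τ`, `τ n v y ∈ S`.
-/

namespace Pool.Agent.Lib.L8.FU

set_option linter.unusedSectionVars false

open MeasureTheory Matrix NumberField IsDedekindDomain Pool.Agent.Lib.H89N Pool.Agent.Lib.H33W Pool.Agent.Lib.H67G Pool.Agent.Lib.L1S Pool.Agent.Lib.L8.FL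
open scoped ENNReal

noncomputable section

variable {ι M N : Type} [Fintype ι] [DecidableEq ι] [AddCommGroup M] [Module ℚ M] [AddCommGroup N] [Module ℚ N]
  {P : RootPairing ι ℚ M N} [P.IsCrystallographic] [P.IsReduced] [P.IsIrreducible] [P.IsRootSystem]

/-- **The number of the torus elements** with given finite absolute values which move a point into a set of bounded height differences. -/
theorem th_count (b : P.Base) (L : Type) [Field L] [NumberField L] (A₀ : ℝ) :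
    ∃ M : ℕ, ∀ (H : Subgroup (GK b L)) (S : Set (HRt H)), (∀ z ∈ S, ∀ z' ∈ S, ∀ w i, |Hw w z i - Hw w z' i| ≤ A₀) → ∀ (T : Set (TH H)) (y : HRt H),
      (∀ τ ∈ T, embH H τ.1 * y ∈ S) → (∀ τ ∈ T, ∀ τ' ∈ T, ∀ v k, av v (tv b L τ.1.1 k) = av v (tv b L τ'.1.1 k)) → T.encard ≤ M := by
  obtain ⟨C, hC, D, hcount⟩ := H29F.tau_count b L
  refine ⟨⌈C * (1 + max A₀ 0) ^ D⌉₊, fun H S hS T y hTS hTa => ?_⟩
  rcases T.eq_empty_or_nonempty with hE | ⟨τ0, hτ0⟩
  · rw [hE, Set.encard_empty]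
    exact zero_le
  obtain ⟨hf, hn⟩ := hcount H (fun v k => av v (tv b L τ0.1.1 k)) y (fun w j => Hw w (embH H τ0.1 * y) j) (max A₀ 0) (le_max_right _ _)
  have hmaps : Set.MapsTo (fun τ : TH H => τ.1) T
      {t : H | t.1 ∈ TK b L ∧ (∀ v k, av v (tv b L t.1 k) = av v (tv b L τ0.1.1 k)) ∧ ∀ w j, |Hw w (embH H t * y) j - Hw w (embH H τ0.1 * y) j| ≤ max A₀ 0} := by
    intro τ hτ
    exact ⟨τ.2, hTa τ hτ τ0 hτ0, fun w j => (hS _ (hTS τ hτ) _ (hTS τ0 hτ0) w j).trans (le_max_left _ _)⟩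
  have hinj : Set.InjOn (fun τ : TH H => τ.1) T := fun τ _ τ' _ h => Subtype.ext h
  have hTf : T.Finite := Set.Finite.of_finite_image (hf.subset hmaps.image_subset) hinj
  have h1 : (T.ncard : ℝ) ≤ C * (1 + max A₀ 0) ^ D := le_trans (by exact_mod_cast Set.ncard_le_ncard_of_injOn _ hmaps hinj hf) hn
  rw [← hTf.cast_ncard_eq]
  exact_mod_cast (Nat.cast_le (α := ℝ)).1 (h1.trans (Nat.le_ceil _))

variable {b : P.Base} {L : Type} [Field L] [NumberField L] {H : Subgroup (GK b L)}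

/-- **The sum over the torus elements.** `M` is the number of `th_count`. -/
theorem sum_IT [Countable H] {M₀ : ℕ} {S : Set (HRt H)} (mS : MeasurableSet S)
    (hM : ∀ (T : Set (TH H)) (y : HRt H), (∀ τ ∈ T, embH H τ.1 * y ∈ S) → (∀ τ ∈ T, ∀ τ' ∈ T, ∀ v k, av v (tv b L τ.1.1 k) = av v (tv b L τ'.1.1 k)) → T.encard ≤ M₀)
    (J : Finset b.support) (𝔫 : Ideal (𝓞 L)) (A : Finset b.support) (e : b.support → ℝ) (n ga gb : H) (νV : Measure (UHR H)) (y : HRt H) (u : HUH H) :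
    ∑' τ : TH H, (LL J 𝔫 A n ga gb τ).indicator 1 u * IT S e n νV y τ ≤ GT 𝔫 A e n ga gb M₀ νV y u := by
  classical
  unfold GT
  by_cases hchi : ∀ j ∈ A, Chi b 𝔫 j (n.1 * u.1.1 * gb.1⁻¹)
  swap
  · rw [if_neg hchi]
    refine le_of_eq (ENNReal.tsum_eq_zero.2 fun τ => ?_)
    rw [Set.indicator_of_notMem (fun h => hchi h.2.1), zero_mul]
  rw [if_pos hchi]
  have hFm : Measurable fun y : HRt H => ENNReal.ofReal (Fe e y) := ENNReal.measurable_ofReal.comp (Fe_cont e).measurable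
  have hgm : ∀ τ : TH H, Measurable fun v : UHR H => S.indicator (fun z => ENNReal.ofReal (Fe e z)) (embH H (τ.1 * n) * ((v : HRt H) * y)) := by
    intro τ
    have hc : Continuous fun v : UHR H => embH H (τ.1 * n) * ((v : HRt H) * y) := continuous_const.mul (continuous_subtype_val.mul continuous_const)
    exact (hFm.indicator mS).comp hc.measurable
  have hc2 : Continuous fun v : UHR H => embH H n * ((v : HRt H) * y) := continuous_const.mul (continuous_subtype_val.mul continuous_const)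
  have hm2 : Measurable fun v : UHR H => ENNReal.ofReal (Fe e (embH H n * ((v : HRt H) * y))) := hFm.comp hc2.measurable
  have h5 : ∀ τ : TH H, (LL J 𝔫 A n ga gb τ).indicator 1 u * IT S e n νV y τ =
      ∫⁻ v, (LL J 𝔫 A n ga gb τ).indicator 1 u * S.indicator (fun z => ENNReal.ofReal (Fe e z)) (embH H (τ.1 * n) * ((v : HRt H) * y)) ∂νV := fun τ => (lintegral_const_mul _ (hgm τ)).symm
  rw [tsum_congr h5]
  refine (t1_tsum νV _ fun τ => ((hgm τ).const_mul _).aemeasurable).trans ?_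
  rw [← lintegral_const_mul _ hm2]
  refine lintegral_mono fun v => ?_
  set y' : HRt H := embH H n * ((v : HRt H) * y) with hy'
  set a : ℝ≥0∞ := ENNReal.ofReal (fe b e (n.1 * u.1.1 * gb.1⁻¹) / fe b e ga.1⁻¹) * ENNReal.ofReal (Fe e y') with ha
  set T : Set (TH H) := {τ | u ∈ LL J 𝔫 A n ga gb τ ∧ embH H τ.1 * y' ∈ S} with hT
  have hf1 : 0 < fe b e (n.1 * u.1.1 * gb.1⁻¹) := FI.fe_pos b e _
  have hf2 : 0 < fe b e ga.1⁻¹ := FI.fe_pos b e _
  have h1 : ∀ τ : TH H, (LL J 𝔫 A n ga gb τ).indicator 1 u * S.indicator (fun z => ENNReal.ofReal (Fe e z)) (embH H (τ.1 * n) * ((v : HRt H) * y)) = T.indicator (fun _ => a) τ := by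
    intro τ
    have e1 : embH H (τ.1 * n) * ((v : HRt H) * y) = embH H τ.1 * y' := by rw [map_mul, mul_assoc]
    rw [e1]
    by_cases h2 : u ∈ LL J 𝔫 A n ga gb τ
    · by_cases h3 : embH H τ.1 * y' ∈ S
      · rw [Set.indicator_of_mem h2, Set.indicator_of_mem h3, Set.indicator_of_mem (show τ ∈ T from ⟨h2, h3⟩), Pi.one_apply, one_mul, Fe_LL h2 e y', ha,
          ENNReal.ofReal_mul (div_pos hf1 hf2).le]
      · rw [Set.indicator_of_notMem h3, Set.indicator_of_notMem (fun h : τ ∈ T => h3 h.2), mul_zero]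
    · rw [Set.indicator_of_notMem h2, Set.indicator_of_notMem (fun h : τ ∈ T => h2 h.1), zero_mul]
  have hcard : T.encard ≤ M₀ := by
    refine hM T y' (fun τ hτ => hτ.2) fun τ hτ τ' hτ' v k => ?_
    have h2 := hτ.1.2.2 v k
    rw [← hτ'.1.2.2 v k] at h2
    exact mul_right_cancel₀ (FI.Ah_pos b v _ k).ne' h2
  have hTf : T.Finite := Set.finite_of_encard_le_coe hcard
  have hn : (T.ncard : ℝ) ≤ (M₀ : ℝ) := by
    rw [← hTf.cast_ncard_eq] at hcard
    exact_mod_cast hcard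
  calc ∑' τ : TH H, (LL J 𝔫 A n ga gb τ).indicator 1 u * S.indicator (fun z => ENNReal.ofReal (Fe e z)) (embH H (τ.1 * n) * ((v : HRt H) * y)) = ∑' τ : TH H, T.indicator (fun _ => a) τ := tsum_congr h1
    _ ≤ ENNReal.ofReal (M₀ : ℝ) * a := t1_const hTf hn a
    _ = _ := by
      rw [ENNReal.ofReal_natCast, ha]
      ring

end

end Pool.Agent.Lib.L8.FU
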