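import Pool.Agent.Lib.L8.FU.U8
import Pool.Agent.Lib.L8.FU.T1
import Pool.Agent.Lib.L8.FL.C5F
import Pool.Agent.Lib.L8.FI.G1
import Pool.Agent.Lib.L8.FU.V1

/-!
# FU, U9 (helper29): the sum over the torus part, final form
-/

namespace Pool.Agent.Lib.L8.FU

set_option linter.unusedSectionVars false

open MeasureTheory Matrix NumberField IsDedekindDomain Pool.Agent.Lib.H89N Pool.Agent.Lib.H33W Pool.Agent.Lib.H67G Pool.Agent.Lib.L1S Pool.Agent.Lib.L8 Pool.Agent.Lib.L8.FL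
open scoped ENNReal

noncomputable section

variable {ι M N : Type} [Fintype ι] [DecidableEq ι] [AddCommGroup M] [Module ℚ M] [AddCommGroup N] [Module ℚ N]
  {P : RootPairing ι ℚ M N} [P.IsCrystallographic] [P.IsReduced] [P.IsIrreducible] [P.IsRootSystem]

variable {b : P.Base} {L : Type} [Field L] [NumberField L] {H : Subgroup (GK b L)}

/-- `Chi_j(z)` for all `j` if `z ∈ K_v(𝔫)` for all `v` which divide `𝔫`. -/
theorem chi_z {𝔫 : Ideal (𝓞 L)} {z : GK b L} (hz : ∀ v : HeightOneSpectrum (𝓞 L), aI v 𝔫 ≠ 1 → z ∈ Kv b 𝔫 v) (j : b.support) : Chi b 𝔫 j z := by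
  intro v
  by_cases hv : aI v 𝔫 = 1
  · exact H29F.Chi_prime hv j z
  · refine ⟨1, ?_, z, hz v hv, (one_mul z).symm⟩
    intro r c hrc
    exact Matrix.one_apply_ne fun e => by
      rw [e] at hrc
      exact lt_irrefl _ hrc

theorem xx_sub {J : Finset b.support} {Lw : List b.support} {n : H} (hn : n.1 = nW b L Lw) {𝔫 : Ideal (𝓞 L)} {Γ₁ : Subgroup H} (hG : ∀ γ ∈ Γ₁, γ.1 ∈ G1 b 𝔫) {g : H} {τ : TH H} {u : HUH H} (hu : u ∈ XX J n Γ₁ g g τ) :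
    u.1.1 ∈ F2.Xt b L J Lw 𝔫 (g⁻¹).1 (g⁻¹).1 τ.1.1 := by
  obtain ⟨h1, u', hu', h2⟩ := hu
  refine ⟨h1, u'.1, hu', (g * (u' * τ.1 * n * u.1) * g⁻¹).1, hG _ h2, ?_⟩
  rw [← hn]
  show u'.1 * τ.1.1 * n.1 * u.1.1 = g.1⁻¹ * (g.1 * (u'.1 * τ.1.1 * n.1 * u.1.1) * g.1⁻¹) * (g.1⁻¹)⁻¹
  group

theorem xt_right {J : Finset b.support} {Lw : List b.support} {𝔫 : Ideal (𝓞 L)} {z τ : GK b L} {Λ : Subgroup (GK b L)} (h1 : Λ ≤ NJ b L J) (h2 : ∀ l ∈ Λ, z⁻¹ * l * z ∈ G1 b 𝔫) :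
    ∀ u ∈ F2.Xt b L J Lw 𝔫 z z τ, ∀ l ∈ Λ, u * l ∈ F2.Xt b L J Lw 𝔫 z z τ := by
  rintro u ⟨hu, u', hu', γ, hγ, e⟩ l hl
  refine ⟨mul_mem hu (h1 hl), u', hu', γ * (z⁻¹ * l * z), mul_mem hγ (h2 l hl), ?_⟩
  rw [← mul_assoc, e]
  group

/-- The exponent of the gain is at least the number of letters. -/
theorem ga_ge {κ : ℝ} (hκ : 1 ≤ κ) (e : b.support → ℝ) (A : Finset b.support) {Lw : List b.support} (hP : PosW b κ e Lw) (B : Finset b.support) : ((A.filter (· ∈ Lw)).card : ℝ) ≤ H29F.ga b e A B Lw := by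
  classical
  induction Lw generalizing B with
  | nil => simp [H29F.ga_nil]
  | cons i Lw ih =>
    have h1 := ih hP.2 (B.erase i)
    rw [H29F.ga_cons]
    by_cases h : i ∈ A ∧ i ∉ Lw
    · rw [if_pos h]
      have e1 : A.filter (· ∈ i :: Lw) = insert i (A.filter (· ∈ Lw)) := by
        ext j
        rw [Finset.mem_filter, Finset.mem_insert, Finset.mem_filter, List.mem_cons]
        constructor
        · rintro ⟨h2, h3 | h3⟩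
          · exact Or.inl h3
          · exact Or.inr ⟨h2, h3⟩
        · rintro (h2 | ⟨h2, h3⟩)
          · exact ⟨h2 ▸ h.1, Or.inl h2⟩
          · exact ⟨h2, Or.inr h3⟩
      rw [e1, Finset.card_insert_of_notMem fun h2 => h.2 (Finset.mem_filter.1 h2).2]
      have h4 : (1 : ℝ) ≤ if i ∈ B then mu b (eW b e Lw) i else 1 := by
        split_ifs
        · exact hκ.trans hP.1
        · exact le_refl _
      push_cast
      linarith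
    · rw [if_neg h, add_zero]
      have e1 : A.filter (· ∈ i :: Lw) = A.filter (· ∈ Lw) := by
        ext j
        rw [Finset.mem_filter, Finset.mem_filter, List.mem_cons]
        constructor
        · rintro ⟨h2, h3 | h3⟩
          · refine ⟨h2, ?_⟩
            by_contra h4
            exact h ⟨h3 ▸ h2, h3 ▸ h4⟩
          · exact ⟨h2, h3⟩
        · rintro ⟨h2, h3⟩
          exact ⟨h2, Or.inr h3⟩
      rw [e1]
      exact h1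

/-- **The sum over the torus part, general form.** -/
theorem u9_gen {κ₀ : ℝ} (hκ₀ : 1 < κ₀) {e : b.support → ℝ} {J : Finset b.support} {Lw : List b.support} (hL : RedW b Lw) (hP : PosW b κ₀ e Lw) (hJ : IsWJ b J (wW b Lw)) (A₀ : ℝ) (hA₀ : 0 ≤ A₀)
    (hT : H = ⊤) (hH : ∀ g : GR b L, g ∈ HRs H) {ν0 : Measure (HRt H)} (h0 : RH (NoH H J) ν0)
    (hp : ∀ u : HUH H, u.1.1 ∈ NJ b L J → MeasurePreserving (fun t : UHR H => u • t) (ν0.comap (Subtype.val : UHR H → HRt H)) (ν0.comap (Subtype.val : UHR H → HRt H)))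
    {D₀ : Set (UHR H)} (hD₀ : H33W.SF (NO H J) D₀) (hD₀' : (ν0.comap (Subtype.val : UHR H → HRt H)) D₀ ≠ 0) :
    ∃ C : ℝ, 0 < C ∧ ∀ 𝔫 : Ideal (𝓞 L), 𝔫 ≠ ⊥ → ∀ Γ₁ : Subgroup H, (∀ γ ∈ Γ₁, γ.1 ∈ G1 b 𝔫) → ∀ g : H, CCH H (cjG Γ₁ g) → (∀ v : HeightOneSpectrum (𝓞 L), aI v 𝔫 ≠ 1 → (g⁻¹).1 ∈ Kv b 𝔫 v) →
      ∀ n : H, n.1 = nW b L Lw → ∀ S : Set (HRt H), MeasurableSet S → (∀ y ∈ S, ∀ y' ∈ S, ∀ w i, |Hw w y i - Hw w y' i| ≤ A₀) →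
      ∀ Λ : Subgroup (HUH H), (∀ l, l ∈ Λ ↔ (l : H) ∈ cjG Γ₁ g ∧ l.1.1 ∈ NJ b L J) →
      ∀ κ : ℝ≥0∞, (∀ τ ∈ TK b L, rs (NJ b L J) (Λ.map (inU H)) ((F2.Xt b L J Lw 𝔫 (g⁻¹).1 (g⁻¹).1 τ).indicator 1) ≤ κ * rs (NJ b L J) (Λ.map (inU H)) ((F2.Lt b L J Lw 𝔫 (g⁻¹).1 (g⁻¹).1 τ).indicator 1)) →
      ∀ D₂ : Set (UHR H), H33W.SF Λ D₂ → ∀ y : HRt H,
      ∑' τ : TH H, nC Λ (XX J n Γ₁ g g τ) * IT S e n (ν0.comap (Subtype.val : UHR H → HRt H)) y τ ≤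
        κ * ENNReal.ofReal (C * (Ideal.absNorm 𝔫 : ℝ) ^ (-H29F.ga b e Finset.univ Finset.univ Lw) * (fe b (eW b e Lw) (g⁻¹).1 / fe b e (g⁻¹).1)) * ENNReal.ofReal (Fe (eW b e Lw) y) *
          (ν0.comap (Subtype.val : UHR H → HRt H)) D₂ := by
  classical
  obtain ⟨M, hM, htau⟩ := tau_sum b L A₀ hA₀
  obtain ⟨Z, hZ, hfin⟩ := H29F.fin_sum2 b L hκ₀
  obtain ⟨C5, hC5, harch⟩ := arch_int hH (zero_lt_one.trans hκ₀) e hL hP hJ h0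
  set νV := ν0.comap (Subtype.val : UHR H → HRt H) with hνV
  obtain ⟨c₀, hc₀, hc₀'⟩ : ∃ c₀ : ℝ, 0 < c₀ ∧ ENNReal.ofReal c₀ ≤ νV D₀ := by
    have h1 : min (νV D₀) 1 ≠ ⊤ := ne_top_of_le_ne_top ENNReal.one_ne_top (min_le_right _ _)
    have h2 : 0 < min (νV D₀) 1 := lt_min (pos_iff_ne_zero.2 hD₀') zero_lt_one
    refine ⟨(min (νV D₀) 1).toReal, ENNReal.toReal_pos h2.ne' h1, ?_⟩
    rw [ENNReal.ofReal_toReal h1]
    exact min_le_left _ _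
  refine ⟨M * Z ^ Lw.length * C5 / c₀, by positivity, fun 𝔫 h𝔫 Γ₁ hG g hcc hg n hn S hSm hS Λ hΛ κ hκ D₂ hD₂ y => ?_⟩
  set z : GK b L := (g⁻¹).1 with hz
  set Λ' := Λ.map (inU H) with hΛ'
  have hΛ1 : Λ' ≤ NJ b L J := by
    rintro _ ⟨l, hl, rfl⟩
    exact ((hΛ l).1 hl).2
  have hΛ2 : ∀ l ∈ Λ', z⁻¹ * l * z ∈ G1 b 𝔫 := by
    rintro _ ⟨l, hl, rfl⟩
    have h1 : (g * l.1 * g⁻¹).1 ∈ G1 b 𝔫 := hG _ ((hΛ l).1 hl).1
    have h2 : z⁻¹ * (inU H l) * z = (g * l.1 * g⁻¹).1 := by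
      show (g.1⁻¹)⁻¹ * l.1.1 * g.1⁻¹ = g.1 * l.1.1 * g.1⁻¹
      rw [inv_inv]
    rw [h2]
    exact h1
  have hcomm : Subgroup.Commensurable Λ' (NJ b L J ⊓ G1 b ⊤) := comm_NO hT h𝔫 hG hcc hJ hΛ
  -- the comparison of the summands
  have hIT : ∀ τ : TH H, IT S e n νV y τ ≤ ∫⁻ v, S.indicator (fun y => ENNReal.ofReal (Fe e y)) (embH H τ.1 * (embH H n * v * y)) ∂ν0 := by
    intro τ
    have h1 : IT S e n νV y τ = ∫⁻ v, S.indicator (fun y => ENNReal.ofReal (Fe e y)) (embH H (τ.1 * n) * (v * y)) ∂ν0 :=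
      lint_comap h0 fun v => S.indicator (fun y => ENNReal.ofReal (Fe e y)) (embH H (τ.1 * n) * (v * y))
    rw [h1]
    refine le_of_eq (lintegral_congr fun v => ?_)
    rw [map_mul]
    simp only [mul_assoc]
  have h1 : ∑' τ : TH H, nC Λ (XX J n Γ₁ g g τ) * IT S e n νV y τ ≤
      ∑' τ : {τ : H // τ.1 ∈ TK b L}, rs (NJ b L J) Λ' ((F2.Xt b L J Lw 𝔫 z z τ.1.1).indicator 1) * ∫⁻ v, S.indicator (fun y => ENNReal.ofReal (Fe e y)) (embH H τ.1 * (embH H n * v * y)) ∂ν0 := by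
    refine ENNReal.tsum_le_tsum fun τ => ?_
    have h2 : nC Λ (XX J n Γ₁ g g τ) ≤ rs (NJ b L J) Λ' ((F2.Xt b L J Lw 𝔫 z z τ.1.1).indicator 1) :=
      nC_rs (fun l hl => ((hΛ l).1 hl).2) (fun u hu => ⟨hu.1, xx_sub hn hG hu⟩) (xt_right hΛ1 hΛ2)
    exact mul_le_mul' h2 (hIT τ)
  refine h1.trans ?_
  refine (htau H S hSm hS e J Lw 𝔫 z z Λ' (fun τ => F2.Xt b L J Lw 𝔫 z z τ) κ hκ ν0 (embH H n) y).trans ?_
  have hUN : Uw b L Lw = NJ b L J := FC.Uw_eq_NJ hJ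
  have h3 := hfin Lw hL e hP 𝔫 h𝔫 Finset.univ Finset.univ z (fun j _ => chi_z hg j) Λ' (by rw [hUN]; exact hΛ1) hΛ2 (by rw [hUN]; exact hcomm.1) (by rw [hUN]; exact hcomm.2)
  rw [hUN] at h3
  have h4 := harch y
  rw [← embH_nW hH hn] at h4
  have h5 : rs (NJ b L J) Λ' (fun c => open scoped Classical in if ∀ k, Chi b 𝔫 k (nW b L Lw * c * z) then ENNReal.ofReal (fe b e (nW b L Lw * c * z)) else 0) ≤
      ENNReal.ofReal (Z ^ Lw.length * fe b (eW b e Lw) z / (Ideal.absNorm 𝔫 : ℝ) ^ H29F.ga b e Finset.univ Finset.univ Lw) * FL.gi (NJ b L J ⊓ G1 b ⊤) Λ' := by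
    refine le_trans (le_of_eq ?_) h3
    congr 1
    funext c
    exact if_congr ⟨fun h j _ => h j, fun h k => h k (Finset.mem_univ k)⟩ rfl rfl
  have h6 : νV D₂ = FL.gi (NJ b L J ⊓ G1 b ⊤) Λ' * νV D₀ := covol hT hp (fun l hl => ((hΛ l).1 hl).2) hcomm hD₂ hD₀
  rw [h6]
  have hN : (0 : ℝ) < (Ideal.absNorm 𝔫 : ℝ) := by
    rw [Nat.cast_pos]
    exact Nat.pos_of_ne_zero fun h => h𝔫 (Ideal.absNorm_eq_zero_iff.1 h)
  set γ := H29F.ga b e Finset.univ Finset.univ Lw with hγ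
  have hNγ : (0 : ℝ) < (Ideal.absNorm 𝔫 : ℝ) ^ γ := Real.rpow_pos_of_pos hN _
  have hf1 : 0 < fe b e z := FI.fe_pos b e z
  have hf2 : 0 < fe b (eW b e Lw) z := FI.fe_pos b _ z
  have hF : 0 < Fe (eW b e Lw) y := Fe_pos _ _
  have hZ0 : 0 < Z := zero_lt_one.trans_le hZ
  set gI := FL.gi (NJ b L J ⊓ G1 b ⊤) Λ' with hgI
  calc κ * (ENNReal.ofReal M * ENNReal.ofReal ((fe b e z)⁻¹) * rs (NJ b L J) Λ' (fun c => open scoped Classical in if ∀ k, Chi b 𝔫 k (nW b L Lw * c * z) then ENNReal.ofReal (fe b e (nW b L Lw * c * z)) else 0) *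
        ∫⁻ v, ENNReal.ofReal (Fe e (embH H n * v * y)) ∂ν0)
      ≤ κ * (ENNReal.ofReal M * ENNReal.ofReal ((fe b e z)⁻¹) * (ENNReal.ofReal (Z ^ Lw.length * fe b (eW b e Lw) z / (Ideal.absNorm 𝔫 : ℝ) ^ γ) * gI) * ENNReal.ofReal (C5 * Fe (eW b e Lw) y)) := by gcongr
    _ = κ * (ENNReal.ofReal M * ENNReal.ofReal ((fe b e z)⁻¹) * ENNReal.ofReal (Z ^ Lw.length * fe b (eW b e Lw) z / (Ideal.absNorm 𝔫 : ℝ) ^ γ) * ENNReal.ofReal (C5 * Fe (eW b e Lw) y)) * gI := by ring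
    _ = κ * (ENNReal.ofReal (M * Z ^ Lw.length * C5 / c₀ * (Ideal.absNorm 𝔫 : ℝ) ^ (-γ) * (fe b (eW b e Lw) z / fe b e z)) * ENNReal.ofReal (Fe (eW b e Lw) y) * ENNReal.ofReal c₀) * gI := by
        congr 2
        rw [← ENNReal.ofReal_mul (by positivity), ← ENNReal.ofReal_mul (by positivity), ← ENNReal.ofReal_mul (by positivity), ← ENNReal.ofReal_mul (by positivity), ← ENNReal.ofReal_mul (by positivity)]
        congr 1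
        rw [Real.rpow_neg hN.le]
        field_simp
    _ = κ * ENNReal.ofReal (M * Z ^ Lw.length * C5 / c₀ * (Ideal.absNorm 𝔫 : ℝ) ^ (-γ) * (fe b (eW b e Lw) z / fe b e z)) * ENNReal.ofReal (Fe (eW b e Lw) y) * (gI * ENNReal.ofReal c₀) := by ring
    _ ≤ _ := by gcongr

/-- **The sum over the torus part, final form** (`hD₀`: helper80's K2). -/
theorem u9 (hT : H = ⊤) {κ' : ℝ} (hκ' : 1 < κ') {J : Finset b.support} {Lw : List b.support} (hL : RedW b Lw) (hJ : IsWJ b J (wW b Lw)) (e : b.support → ℝ) (hP : PosW b κ' e Lw) (A : ℝ)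
    {ν0 : Measure (HRt H)} (h0 : RH (NoH H J) ν0) (hD₀ : ∃ D₀ : Set (UHR H), H33W.SF (NO H J) D₀ ∧ (ν0.comap (Subtype.val : UHR H → HRt H)) D₀ ≠ 0) :
    ∃ C : ℝ, 0 < C ∧ ∀ 𝔫 : Ideal (𝓞 L), 𝔫 ≠ ⊥ → ∀ Γ₁ : Subgroup H, (∀ γ ∈ Γ₁, γ.1 ∈ G1 b 𝔫) → (∀ h : H, CCH H (cjG Γ₁ h)) → ∀ g : H, (∀ v : HeightOneSpectrum (𝓞 L), aI v 𝔫 ≠ 1 → (g⁻¹).1 ∈ Kv b 𝔫 v) →
      ∀ S : Set (HRt H), (∀ y ∈ S, ∀ y' ∈ S, ∀ w i, |Hw w y i - Hw w y' i| ≤ A) → MeasurableSet S →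
      ∀ κ : ℝ≥0∞, (∀ τ ∈ TK b L, rs (NJ b L J) (((cjG Γ₁ g).subgroupOf (HUH H) ⊓ (qU hT J).ker).map (inU H)) ((F2.Xt b L J Lw 𝔫 (g⁻¹).1 (g⁻¹).1 τ).indicator 1) ≤
        κ * rs (NJ b L J) (((cjG Γ₁ g).subgroupOf (HUH H) ⊓ (qU hT J).ker).map (inU H)) ((F2.Lt b L J Lw 𝔫 (g⁻¹).1 (g⁻¹).1 τ).indicator 1)) →
      ∀ n : H, n.1 = nW b L Lw → ∀ D₂ : Set (UHR H), H33W.SF ((cjG Γ₁ g).subgroupOf (HUH H) ⊓ (qU hT J).ker) D₂ → ∀ y : HRt H,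
      ∑' τ : TH H, nC ((cjG Γ₁ g).subgroupOf (HUH H) ⊓ (qU hT J).ker) (XX J n Γ₁ g g τ) * IT S e n (ν0.comap (Subtype.val : UHR H → HRt H)) y τ ≤
        κ * ENNReal.ofReal (C * (Ideal.absNorm 𝔫 : ℝ) ^ (-H29F.ga b e Finset.univ Finset.univ Lw) * (fe b (eW b e Lw) (g⁻¹).1 / fe b e (g⁻¹).1)) * ENNReal.ofReal (Fe (eW b e Lw) y) *
          (ν0.comap (Subtype.val : UHR H → HRt H)) D₂ := by
  obtain ⟨D₀, h1, h2⟩ := hD₀
  obtain ⟨νM, hM⟩ := exists_msr hT J h0 (Measure.haar : Measure (UHR H))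
  have hp : ∀ u : HUH H, u.1.1 ∈ NJ b L J → MeasurePreserving (fun t : UHR H => u • t) (ν0.comap (Subtype.val : UHR H → HRt H)) (ν0.comap (Subtype.val : UHR H → HRt H)) :=
    fun u hu => hM.lV u ((qU_ker hT J u).2 hu)
  obtain ⟨C, hC, h3⟩ := u9_gen hκ' hL hP hJ (max A 0) (le_max_right _ _) hT (HRs_top hT) h0 hp h1 h2
  refine ⟨C, hC, fun 𝔫 h𝔫 Γ₁ hG hcc g hg S hS hSm κ hκ n hn D₂ hD₂ y => ?_⟩
  refine h3 𝔫 h𝔫 Γ₁ hG g (hcc g) hg n hn S hSm (fun y hy y' hy' w i => (hS y hy y' hy' w i).trans (le_max_left _ _)) _ (fun l => ?_) κ hκ D₂ hD₂ y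
  rw [Subgroup.mem_inf, Subgroup.mem_subgroupOf, qU_ker]

end

end Pool.Agent.Lib.L8.FU
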