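import Pool.Agent.Lib.L8.FU.M2
import Pool.Agent.Lib.L8.FU.D
import Pool.Agent.Lib.L1S.QC3
import Pool.Agent.Lib.L1S.TH3

/-!
# FU, W1: strict fundamental domains of `Γ_V` and of the image of `Γ_U` in the Levi part
-/

namespace Pool.Agent.Lib.L8.FU

set_option linter.unusedSectionVars false

open MeasureTheory Matrix NumberField IsDedekindDomain Pool.Agent.Lib.H89N Pool.Agent.Lib.H33W Pool.Agent.Lib.H67G Pool.Agent.Lib.L1S Pool.Agent.Lib.L8.FL Pool.Agent.Lib.L8.FC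
open scoped ENNReal

noncomputable section

variable {ι M N : Type} [Fintype ι] [DecidableEq ι] [AddCommGroup M] [Module ℚ M] [AddCommGroup N] [Module ℚ N]
  {P : RootPairing ι ℚ M N} [P.IsCrystallographic] [P.IsReduced] [P.IsIrreducible] [P.IsRootSystem]

variable {b : P.Base} {L : Type} [Field L] [NumberField L] {H : Subgroup (GK b L)}

/-- Common denominators of the entries of `g⁻¹ Γ₁ g`. -/
theorem cj_den {𝔫 : Ideal (𝓞 L)} {Γ₁ : Subgroup H} (hG : ∀ γ ∈ Γ₁, γ.1 ∈ G1 b 𝔫) (g : H) :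
    ∃ c : ℕ, c ≠ 0 ∧ ∀ γ ∈ cjG Γ₁ g, ∀ i j, ∃ y : 𝓞 L, (c : L) * γ.1.1.1 i j = ((y : 𝓞 L) : L) := by
  obtain ⟨m1, hm1, h1⟩ := qc_dens (L := L) (α := I b × I b) fun a => (g⁻¹ : H).1.1.1 a.1 a.2
  obtain ⟨m2, hm2, h2⟩ := qc_dens (L := L) (α := I b × I b) fun a => g.1.1.1 a.1 a.2
  have hint : ∀ γ ∈ cjG Γ₁ g, ∀ i j, L1S.InI (⊤ : Ideal (𝓞 L)) (((m1 * m2 : ℤ) : L) * γ.1.1.1 i j) := by
    intro γ hγ i j
    have e : γ = g⁻¹ * (g * γ * g⁻¹) * g := by group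
    have e' : γ.1.1.1 = (g⁻¹ : H).1.1.1 * (g * γ * g⁻¹ : H).1.1.1 * g.1.1.1 := by
      conv_lhs => rw [e]
      rfl
    have h3 : ∀ r c, L1S.InI (⊤ : Ideal (𝓞 L)) ((g * γ * g⁻¹ : H).1.1.1 r c) := by
      intro r c
      have h4 := (hG _ hγ r c).1
      have h5 : L1S.InI (⊤ : Ideal (𝓞 L)) (((g * γ * g⁻¹ : H).1.1.1 - 1) r c) := by
        obtain ⟨y, -, hy⟩ := h4
        exact ⟨y, Submodule.mem_top, hy⟩
      have h6 : L1S.InI (⊤ : Ideal (𝓞 L)) ((1 : Matrix (I b) (I b) L) r c) := by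
        by_cases h : r = c
        · subst h
          exact ⟨1, Submodule.mem_top, by rw [Matrix.one_apply_eq]; simp⟩
        · exact ⟨0, Submodule.mem_top, by rw [Matrix.one_apply_ne h]; simp⟩
      have h7 := h5.add h6
      rwa [Matrix.sub_apply, sub_add_cancel] at h7
    have e2 : ((m1 * m2 : ℤ) : L) * γ.1.1.1 i j = ∑ k, (∑ l, ((m1 : L) * (g⁻¹ : H).1.1.1 i l) * (g * γ * g⁻¹ : H).1.1.1 l k) * ((m2 : L) * g.1.1.1 k j) := by
      rw [e', Matrix.mul_apply, Finset.mul_sum]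
      refine Finset.sum_congr rfl fun k _ => ?_
      rw [Matrix.mul_apply, Finset.sum_mul, Finset.mul_sum, Finset.sum_mul]
      refine Finset.sum_congr rfl fun l _ => ?_
      push_cast
      ring
    rw [e2]
    have hmul : ∀ x y : L, L1S.InI (⊤ : Ideal (𝓞 L)) x → L1S.InI (⊤ : Ideal (𝓞 L)) y → L1S.InI (⊤ : Ideal (𝓞 L)) (x * y) := by
      rintro x y ⟨a, -, rfl⟩ ⟨c, -, rfl⟩
      exact ⟨a * c, Submodule.mem_top, by simp⟩
    have hsum : ∀ f : I b → L, (∀ k, L1S.InI (⊤ : Ideal (𝓞 L)) (f k)) → L1S.InI (⊤ : Ideal (𝓞 L)) (∑ k, f k) := by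
      intro f hf
      refine Finset.sum_induction f (L1S.InI (⊤ : Ideal (𝓞 L))) (fun _ _ => InI.add) ⟨0, Submodule.mem_top, by simp⟩ fun k _ => hf k
    exact hsum _ fun k => hmul _ _ (hsum _ fun l => hmul _ _ (h1 (i, l)) (h3 l k)) (h2 (k, j))
  refine ⟨(m1 * m2).natAbs, by simpa using ⟨hm1, hm2⟩, fun γ hγ i j => ?_⟩
  obtain ⟨y, -, hy⟩ := hint γ hγ i j
  rcases Int.natAbs_eq (m1 * m2) with h | h
  · refine ⟨y, ?_⟩
    rw [hy, h]
    simp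
  · refine ⟨-y, ?_⟩
    have e : ((-y : 𝓞 L) : L) = -(y : L) := by simp
    rw [e, hy]
    have h' : ((m1 * m2).natAbs : ℤ) = -(m1 * m2) := by omega
    have h'' : (((m1 * m2).natAbs : ℤ) : L) = ((-(m1 * m2) : ℤ) : L) := by rw [h']
    rw [Int.cast_natCast] at h''
    rw [h'']
    push_cast
    ring

/-- `Γ_V`. -/
theorem sf_ker (hT : H = ⊤) (J : Finset b.support) {Γ₁ : Subgroup H} (hD : Dsc H Γ₁) (g : H) :
    ∃ D'' : Set (UHR H), H33W.SF ((cjG Γ₁ g).subgroupOf (HUH H) ⊓ (qU hT J).ker) D'' := by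
  have := th_count H
  refine t2_exists_sf (e := kUH H) (fun h x => rfl) (fun γ _ e => kUH_inj H (by rw [e, map_one])) fun Q hQ => ?_
  have hQ' : IsCompact ((fun x : UHR H => (x : HRt H)) '' Q) := hQ.image continuous_subtype_val
  have h : Dsc H (cjG Γ₁ g) := dsc_conj H hD g
  refine ((h _ hQ').preimage (f := fun γ : HUH H => (γ : H)) Subtype.val_injective.injOn).subset ?_
  rintro γ ⟨h1, h2⟩
  exact ⟨h1.1, kUH H γ, h2, rfl⟩

/-- The image of `Γ_U` in the Levi part. -/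
theorem sf_map (hT : H = ⊤) (J : Finset b.support) {𝔫 : Ideal (𝓞 L)} {Γ₁ : Subgroup H} (hG : ∀ γ ∈ Γ₁, γ.1 ∈ G1 b 𝔫) (g : H) :
    ∃ D' : Set (UHR H), H33W.SF (((cjG Γ₁ g).subgroupOf (HUH H)).map (qU hT J)) D' := by
  have := th_count H
  refine t2_exists_sf (e := kUH H) (fun h x => rfl) (fun γ _ e => kUH_inj H (by rw [e, map_one])) fun Q hQ => ?_
  have hQ' : IsCompact ((fun x : UHR H => ((x : HRt H) : GR b L)) '' Q) := hQ.image (continuous_subtype_val.comp continuous_subtype_val)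
  obtain ⟨c, hc, hc'⟩ := cj_den hG g
  have h := t3_fin b (Γ := {δ : GK b L | ∃ δ' ∈ ((cjG Γ₁ g).subgroupOf (HUH H)).map (qU hT J), δ'.1.1 = δ}) hc (by
    rintro _ ⟨_, ⟨γ, hγ, rfl⟩, rfl⟩ i j
    obtain ⟨y, hy⟩ := hc' γ.1 hγ i j
    have e : (qU hT J γ).1.1.1.1 i j = dp (dJ b J) γ.1.1.1.1 i j := by rw [qU_val]
    rw [e]
    simp only [dp, Matrix.of_apply]
    split_ifs
    · exact ⟨y, hy⟩
    · exact ⟨0, by simp⟩) hQ'
  refine (h.preimage (f := fun γ : HUH H => ((γ : H) : GK b L)) (Subtype.val_injective.comp Subtype.val_injective).injOn).subset ?_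
  rintro γ ⟨h1, h2⟩
  exact ⟨⟨γ, h1, rfl⟩, kUH H γ, h2, rfl⟩

end

end Pool.Agent.Lib.L8.FU
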