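import Pool.Agent.Lib.L8.FU.W1
import Pool.Agent.Lib.L8.FC.D7
import Pool.Agent.Lib.L8.FL.C5A

/-!
# FU, W2: density of `U(K)` in `U`, conjugation of the Levi part, the invariances of `XX`
-/

namespace Pool.Agent.Lib.L8.FU

set_option linter.unusedSectionVars false

open MeasureTheory Matrix NumberField IsDedekindDomain Pool.Agent.Lib.H89N Pool.Agent.Lib.H33W Pool.Agent.Lib.H67G Pool.Agent.Lib.L1S Pool.Agent.Lib.L8.FL Pool.Agent.Lib.L8.FC
open scoped ENNReal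

noncomputable section

variable {ι M N : Type} [Fintype ι] [DecidableEq ι] [AddCommGroup M] [Module ℚ M] [AddCommGroup N] [Module ℚ N]
  {P : RootPairing ι ℚ M N} [P.IsCrystallographic] [P.IsReduced] [P.IsIrreducible] [P.IsRootSystem]

variable {b : P.Base} {L : Type} [Field L] [NumberField L] {H : Subgroup (GK b L)}

/-- The inclusion of the real unipotent group. -/
def jU (hT : H = ⊤) : UR b L →* UHR H where
  toFun u := ⟨⟨u.1, HRs_top hT _⟩, u.2⟩
  map_one' := rfl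
  map_mul' _ _ := rfl

theorem jU_cont (hT : H = ⊤) : Continuous (jU hT) := (continuous_subtype_val.subtype_mk _).subtype_mk _

theorem kUH_dense (hT : H = ⊤) (u : UHR H) : u ∈ closure (Set.range (kUH H)) := by
  have key : ∀ g : UR b L, g ∈ ((kUH H).range.topologicalClosure).comap (jU hT) := by
    intro g
    refine ur_ind _ (fun β hβ t => ?_) g
    show jU hT ((lieD b L).xU β t) ∈ closure (((kUH H).range : Subgroup (UHR H)) : Set (UHR H))
    have hc : Continuous fun t : EE L => jU hT ((lieD b L).xU β t) := by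
      refine (jU_cont hT).comp ?_
      have e : ∀ t : EE L, (⟨(lieD b L).xE β t, r5_xE_UR (lieD b L) hβ t⟩ : UR b L) = (lieD b L).xU β t := fun t => by
        have h1 : (lieD b L).xU β t = ⟨(lieD b L).xE β t, r5_xE_UR (lieD b L) hβ t⟩ := dif_pos hβ
        exact h1.symm
      exact (((lieD b L).xE_cont β hβ).subtype_mk fun t => r5_xE_UR (lieD b L) hβ t).congr e
    have hd : t ∈ closure (Set.range fun x : L => (mixedEmbedding L x : EE L)) := by rw [(t3_dense L).closure_range]; trivial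
    refine map_mem_closure (f := fun t : EE L => jU hT ((lieD b L).xU β t)) hc hd ?_
    rintro _ ⟨s, rfl⟩
    have hs : b1x b L β s ∈ HU b L := b1_pos b L β ((posL_mem b β).1 (by simpa [posL] using hβ)) s
    refine ⟨⟨⟨b1x b L β s, by rw [hT]; trivial⟩, hs⟩, UHR_ext ?_⟩
    show ((b1x b L β s).1.1).map (mixedEmbedding L) = ((lieD b L).xU β (mixedEmbedding L s)).1.1.1
    rw [(xU_val hβ _).1]
    exact xx_map b β (mixedEmbedding L) s
  exact key (iUH H u)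

theorem qU_UM (hT : H = ⊤) (J : Finset b.support) (u : HUH H) : (qU hT J u).1.1 ∈ UM b L J := by
  refine ⟨(qU hT J u).2, fun r c hrc => ⟨?_, ?_⟩⟩
  · have e : (qU hT J u).1.1.1.1 r c = dp (dJ b J) u.1.1.1.1 r c := by rw [qU_val]
    rw [e]
    simp only [dp, Matrix.of_apply, if_neg hrc]
  · have e : (qU hT J u)⁻¹.1.1.1.1 r c = dp (dJ b J) (u⁻¹).1.1.1.1 r c := by rw [← map_inv, qU_val]
    show (qU hT J u)⁻¹.1.1.1.1 r c = 0
    rw [e]
    simp only [dp, Matrix.of_apply, if_neg hrc]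

/-- `n m n⁻¹ ∈ U` for `m` in the Levi part of `U`. -/
theorem conj_piU (hT : H = ⊤) {J : Finset b.support} {w : Equiv.Perm ι} (hw : IsWJ b J w) {n : H} (hn : IsN b L w n.1) (u : UHR H) :
    embH H n * (piU hT J u : HRt H) * (embH H n)⁻¹ ∈ UHR H := by
  have hc : Continuous fun u : UHR H => embH H n * (piU hT J u : HRt H) * (embH H n)⁻¹ :=
    (continuous_const.mul (continuous_subtype_val.comp (piU_cont hT J))).mul continuous_const
  have h1 := map_mem_closure hc (kUH_dense hT u) (t := (UHR H : Set (HRt H))) (by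
    rintro _ ⟨v, rfl⟩
    show embH H n * (piU hT J (kUH H v) : HRt H) * (embH H n)⁻¹ ∈ UHR H
    rw [qU_cpt]
    show embH H n * embH H (qU hT J v).1 * (embH H n)⁻¹ ∈ UHR H
    rw [← map_mul, ← map_inv, ← map_mul]
    have h2 : (n * (qU hT J v).1 * n⁻¹).1 ∈ HU b L := conj_UM hw hn (qU_UM hT J v)
    exact (HUH_mem H _).2 h2)
  rwa [(UHR_closed H).closure_eq] at h1

/-- `T(K)` normalises `U`. -/
theorem conj_TU (hT : H = ⊤) {τ : H} (hτ : τ.1 ∈ TK b L) (u : UHR H) : embH H τ * (u : HRt H) * (embH H τ)⁻¹ ∈ UHR H := by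
  have hc : Continuous fun u : UHR H => embH H τ * (u : HRt H) * (embH H τ)⁻¹ :=
    (continuous_const.mul continuous_subtype_val).mul continuous_const
  have h1 := map_mem_closure hc (kUH_dense hT u) (t := (UHR H : Set (HRt H))) (by
    rintro _ ⟨v, rfl⟩
    show embH H τ * embH H v.1 * (embH H τ)⁻¹ ∈ UHR H
    rw [← map_mul, ← map_inv, ← map_mul]
    have h2 : (τ * v.1 * τ⁻¹).1 ∈ HU b L := TK_HU hτ v.2
    exact (HUH_mem H _).2 h2)
  rwa [(UHR_closed H).closure_eq] at h1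

/-- `τ n m (τ n)⁻¹ ∈ U`. -/
theorem conj_TnU (hT : H = ⊤) {J : Finset b.support} {w : Equiv.Perm ι} (hw : IsWJ b J w) {n : H} (hn : IsN b L w n.1) {τ : H} (hτ : τ.1 ∈ TK b L) {m : UHR H} (hm : piU hT J m = m) :
    embH H (τ * n) * (m : HRt H) * (embH H (τ * n))⁻¹ ∈ UHR H := by
  have h1 := conj_piU hT hw hn m
  rw [hm] at h1
  have h2 := conj_TU hT hτ ⟨_, h1⟩
  have e : embH H (τ * n) * (m : HRt H) * (embH H (τ * n))⁻¹ = embH H τ * (embH H n * (m : HRt H) * (embH H n)⁻¹) * (embH H τ)⁻¹ := by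
    rw [map_mul]
    group
  rw [e]
  exact h2

/-! ## The invariances of `XX` -/

variable {J : Finset b.support} {n : H} {Γ₁ : Subgroup H} {ga gb : H} {τ : TH H}

theorem XX_ker (hT : H = ⊤) : XX J n Γ₁ ga gb τ ⊆ (qU hT J).ker := fun u hu => (qU_ker hT J u).2 hu.1

theorem XX_right (hT : H = ⊤) {u : HUH H} (hu : u ∈ XX J n Γ₁ ga gb τ) {δ : HUH H} (hδ : δ ∈ (cjG Γ₁ gb).subgroupOf (HUH H) ⊓ (qU hT J).ker) :
    u * δ ∈ XX J n Γ₁ ga gb τ := by
  obtain ⟨hu1, u', hu', h2⟩ := hu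
  refine ⟨(NJ b L J).mul_mem hu1 ((qU_ker hT J δ).1 hδ.2), u', hu', ?_⟩
  have e : ga * (u' * τ.1 * n * (u * δ : HUH H).1) * gb⁻¹ = ga * (u' * τ.1 * n * u.1) * gb⁻¹ * (gb * δ.1 * gb⁻¹) := by
    rw [Subgroup.coe_mul]
    group
  rw [e]
  exact Γ₁.mul_mem h2 hδ.1

theorem XX_conj (hT : H = ⊤) {w : Equiv.Perm ι} (hw : IsWJ b J w) (hn : IsN b L w n.1) {u : HUH H} (hu : u ∈ XX J n Γ₁ ga gb τ) {γ : HUH H} (hγ : γ ∈ (cjG Γ₁ gb).subgroupOf (HUH H)) :
    (qU hT J γ)⁻¹ * u * γ ∈ XX J n Γ₁ ga gb τ := by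
  obtain ⟨hu1, u', hu', h2⟩ := hu
  refine ⟨?_, ?_⟩
  · refine (qU_ker hT J _).1 ?_
    have h3 : qU hT J u = 1 := MonoidHom.mem_ker.1 ((qU_ker hT J u).2 hu1)
    have h4 : qU hT J (qU hT J γ) = qU hT J γ := by
      refine HUH_ext ?_
      rw [qU_val, qU_val, dp_dp]
    rw [MonoidHom.mem_ker, map_mul, map_mul, map_inv, h3, h4, mul_one, inv_mul_cancel]
  · set m : H := (qU hT J γ).1 with hm
    have h5 : (τ.1 * n * m * n⁻¹ * τ.1⁻¹).1 ∈ HU b L := by
      have h6 := TK_HU τ.2 (conj_UM hw hn (qU_UM hT J γ))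
      have e : (τ.1 * n * m * n⁻¹ * τ.1⁻¹).1 = τ.1.1 * (n.1 * (qU hT J γ).1.1 * n.1⁻¹) * τ.1.1⁻¹ := by
        simp only [mul_assoc]
        rfl
      rw [e]
      exact h6
    refine ⟨u' * (τ.1 * n * m * n⁻¹ * τ.1⁻¹), (HUH H).mul_mem hu' ((HUH_mem H _).2 h5), ?_⟩
    have e : ga * (u' * (τ.1 * n * m * n⁻¹ * τ.1⁻¹) * τ.1 * n * ((qU hT J γ)⁻¹ * u * γ : HUH H).1) * gb⁻¹ = ga * (u' * τ.1 * n * u.1) * gb⁻¹ * (gb * γ.1 * gb⁻¹) := by
      rw [Subgroup.coe_mul, Subgroup.coe_mul, Subgroup.coe_inv, ← hm]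
      group
    rw [e]
    exact Γ₁.mul_mem h2 hγ

end

end Pool.Agent.Lib.L8.FU
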