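import Pool.Agent.Lib.L8.FU.W2
import Pool.Agent.Lib.L8.FU.U3
import Pool.Agent.Lib.L8.FU.U5

/-!
# FU, W3: the count in terms of the pairs
-/

namespace Pool.Agent.Lib.L8.FU

set_option linter.unusedSectionVars false

open MeasureTheory Matrix NumberField IsDedekindDomain Pool.Agent.Lib.H89N Pool.Agent.Lib.H33W Pool.Agent.Lib.H67G Pool.Agent.Lib.L1S Pool.Agent.Lib.L8.FL Pool.Agent.Lib.L8.FC
open scoped ENNReal

noncomputable section

variable {ι M N : Type} [Fintype ι] [DecidableEq ι] [AddCommGroup M] [Module ℚ M] [AddCommGroup N] [Module ℚ N]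
  {P : RootPairing ι ℚ M N} [P.IsCrystallographic] [P.IsReduced] [P.IsIrreducible] [P.IsRootSystem]

variable {b : P.Base} {L : Type} [Field L] [NumberField L] {H : Subgroup (GK b L)}

theorem ST_left (x : HRt H) (Cs : Set (HRt H)) {u : HRt H} (hu : u ∈ UHR H) (z : HRt H) : u * z ∈ ST H x Cs ↔ z ∈ ST H x Cs := by
  rw [mem_ST, mem_ST]
  constructor
  · rintro ⟨t, y, hy, h⟩
    refine ⟨⟨u, hu⟩⁻¹ * t, y, hy, ?_⟩
    have h1 : z = u⁻¹ * (u * z) := by group
    rw [h1, h, ← mul_assoc]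
    rfl
  · rintro ⟨t, y, hy, rfl⟩
    exact ⟨⟨u, hu⟩ * t, y, hy, by rw [← mul_assoc]; rfl⟩

/-- The function of the count is left invariant under `U`. -/
theorem fS_left (x : HRt H) (Cs : Set (HRt H)) (e : b.support → ℝ) {u : HRt H} (hu : u ∈ UHR H) (z : HRt H) :
    (ST H x Cs).indicator (fun z => ENNReal.ofReal (Fe e z)) (u * z) = (ST H x Cs).indicator (fun z => ENNReal.ofReal (Fe e z)) z := by
  by_cases h : z ∈ ST H x Cs
  · rw [Set.indicator_of_mem h, Set.indicator_of_mem ((ST_left x Cs hu z).2 h), Fe_U e hu]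
  · rw [Set.indicator_of_notMem h, Set.indicator_of_notMem fun h' => h ((ST_left x Cs hu z).1 h')]

/-- **The count in terms of the pairs.** -/
theorem count_pairs (hT : H = ⊤) {J : Finset b.support} {w : Equiv.Perm ι} {Lw : List b.support} (hw : IsWJ b J w) (hW : wW b Lw = w) {n : H} (hn : n.1 = nW b L Lw)
    {𝔫 : Ideal (𝓞 L)} {Γ₁ : Subgroup H} (hG : ∀ γ ∈ Γ₁, γ.1 ∈ G1 b 𝔫) (g : H) {x : HRt H} {Cs : Set (HRt H)} (mS : MeasurableSet (ST H x Cs)) (e : b.support → ℝ)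
    {ν νV νM : Measure (UHR H)} (hM : Msr (kUH H) (piU hT J) (qU hT J) ν νV νM) {D₁ D'' : Set (UHR H)} (sD : H33W.SF ((cjG Γ₁ g).subgroupOf (HUH H)) D₁)
    (sV : H33W.SF ((cjG Γ₁ g).subgroupOf (HUH H) ⊓ (qU hT J).ker) D'') (v0 : νV D'' ≠ 0) (vt : νV D'' ≠ ⊤) (y : HRt H) :
    ∫⁻ t in D₁, ce (cjG Γ₁ g ⊓ HUH H) ((cjG Γ₁ g : Set H) ∩ {γ : H | γ.1 ∈ cell b L w})
        (fun γ => (ST H x Cs).indicator (fun z => ENNReal.ofReal (Fe e z)) (embH H γ * ((t : HRt H) * y))) ∂ν ≤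
      (∑' τ : TH H, nC ((cjG Γ₁ g).subgroupOf (HUH H) ⊓ (qU hT J).ker) (XX J n Γ₁ g g τ) * IT (ST H x Cs) e n νV y τ) / νV D'' * ν D₁ := by
  have := th_count H
  obtain ⟨D', sM⟩ := sf_map hT J hG g
  have hnN : IsN b L w n.1 := by
    rw [hn, ← hW]
    exact nW_isN b L Lw
  set S : Set (HRt H) := ST H x Cs with hS
  set φ : TH H → UHR H → ℝ≥0∞ := fun τ s => S.indicator (fun z => ENNReal.ofReal (Fe e z)) (embH H (τ.1 * n) * ((s : HRt H) * y)) with hφ
  have hFm : Measurable fun y : HRt H => ENNReal.ofReal (Fe e y) := ENNReal.measurable_ofReal.comp (Fe_cont e).measurable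
  have mφ : ∀ τ, Measurable (φ τ) := by
    intro τ
    have hc : Continuous fun v : UHR H => embH H (τ.1 * n) * ((v : HRt H) * y) := continuous_const.mul (continuous_subtype_val.mul continuous_const)
    exact (hFm.indicator mS).comp hc.measurable
  have iφ : ∀ τ m t, piU hT J m = m → φ τ (m * t) = φ τ t := by
    intro τ m t hm
    have h1 := conj_TnU hT hw hnN τ.2 hm
    have e1 : embH H (τ.1 * n) * (((m * t : UHR H) : HRt H) * y) = (embH H (τ.1 * n) * (m : HRt H) * (embH H (τ.1 * n))⁻¹) * (embH H (τ.1 * n) * ((t : HRt H) * y)) := by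
      rw [Subgroup.coe_mul]
      group
    show S.indicator _ (embH H (τ.1 * n) * (((m * t : UHR H) : HRt H) * y)) = _
    rw [e1, fS_left x Cs e h1]
  have hZ : (cjG Γ₁ g : Set H) = Zs Γ₁ g g := rfl
  refine le_trans (lintegral_mono fun t => ?_) (pairs_mean (prjU hT J) hM sV sM sD v0 vt (X := fun τ => XX J n Γ₁ g g τ) (fun τ => XX_ker hT) (fun τ u hu δ hδ => XX_right hT hu hδ)
    (fun τ u hu γ hγ => XX_conj hT hw hnN hu hγ) (φ := φ) mφ iφ)
  rw [hZ]
  refine (ce_pairs hT hw hW hn Γ₁ g g ?_).trans (le_of_eq ?_)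
  · intro u hu γ
    show S.indicator _ (embH H (u * γ) * ((t : HRt H) * y)) = S.indicator _ (embH H γ * ((t : HRt H) * y))
    rw [map_mul, mul_assoc]
    exact fS_left x Cs e hu _
  · refine tsum_congr fun τ => tsum_congr fun u => ?_
    congr 1
    show S.indicator _ (embH H (τ.1 * n * u.1) * ((t : HRt H) * y)) = S.indicator _ (embH H (τ.1 * n) * (((kUH H u * t : UHR H) : HRt H) * y))
    congr 1
    rw [map_mul (embH H) (τ.1 * n), Subgroup.coe_mul]
    simp only [mul_assoc]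
    rfl

end

end Pool.Agent.Lib.L8.FU
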