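import Pool.Agent.Lib.L8.FU.W3
import Pool.Agent.Lib.L1S.TH2

/-!
# FU, W4: the volume of `Γ_V \ V`
-/

namespace Pool.Agent.Lib.L8.FU

set_option linter.unusedSectionVars false

open MeasureTheory Matrix NumberField IsDedekindDomain Pool.Agent.Lib.H89N Pool.Agent.Lib.H33W Pool.Agent.Lib.H67G Pool.Agent.Lib.L1S Pool.Agent.Lib.L8.FL Pool.Agent.Lib.L8.FC
open scoped ENNReal

noncomputable section

section gen

variable {T H : Type} [Group T] [Group H] [MulAction H T] {k : H →* T} {π : T →* T} {q : H →* H}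

/-- **The volume of a fundamental domain of a semidirect product.** -/
theorem vol_prod [MeasurableSpace T] [MeasurableMul₂ T] (hP : Prj k π q) {Γ : Subgroup H} [Countable H] {D'' D' D : Set T}
    (hV : H33W.SF (Γ ⊓ q.ker) D'') (hM : H33W.SF (Γ.map q) D') (hD : H33W.SF Γ D) {ν νV νM : Measure T} (h : Msr k π q ν νV νM) : ν D = νM D' * νV D'' := by
  have := h.fV
  have := h.fM
  have hs := sf_prod hP h.mπ h.mt hV hM
  have hm : Measurable fun p : T × T => p.1 * p.2 := measurable_mul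
  have e0 : ν D = ν (PD π D'' D') := by
    have h1 := u2_lint h.left le_rfl hs hD (measurable_const (a := (1 : ℝ≥0∞))) (fun _ _ _ => rfl)
    rw [an_u2k (by rw [Subgroup.relIndex_self]; exact one_ne_zero), Subgroup.relIndex_self, Nat.cast_one, one_mul] at h1
    simpa using h1
  have h1 : ν (PD π D'' D') = ∫⁻ t in PD π D'' D', (fun _ => 1) t ∂ν := by simp
  have mI : Measurable ((PD π D'' D').indicator (fun _ => (1 : ℝ≥0∞))) := measurable_const.indicator hs.meas
  have key : ∫⁻ t in PD π D'' D', (fun _ => (1 : ℝ≥0∞)) t ∂ν = ∫⁻ m, D'.indicator 1 m * νV D'' ∂νM := by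
    rw [← lintegral_indicator hs.meas, h.prod, lintegral_map mI hm, lintegral_prod_symm (fun p : T × T => (PD π D'' D').indicator (fun _ => (1 : ℝ≥0∞)) (p.1 * p.2)) (mI.comp hm).aemeasurable]
    refine lintegral_congr_ae ?_
    filter_upwards [h.aM] with m hmm
    show ∫⁻ v, (PD π D'' D').indicator (fun _ => (1 : ℝ≥0∞)) (v * m) ∂νV = _
    have e3 : νV D'' = ∫⁻ v, D''.indicator (fun _ => (1 : ℝ≥0∞)) v ∂νV := by
      rw [lintegral_indicator hV.meas]
      simp
    rw [e3, ← lintegral_const_mul _ (measurable_const.indicator hV.meas)]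
    refine lintegral_congr_ae ?_
    filter_upwards [h.aV] with v hvv
    have e1 : π (v * m) = m := by rw [map_mul, hvv, one_mul, hmm]
    have e2 : v * m * (π (v * m))⁻¹ = v := by rw [e1, mul_inv_cancel_right]
    show (PD π D'' D').indicator (fun _ => (1 : ℝ≥0∞)) (v * m) = D'.indicator 1 m * D''.indicator (fun _ => (1 : ℝ≥0∞)) v
    by_cases h1 : m ∈ D'
    · by_cases h2 : v ∈ D''
      · have h3 : v * m ∈ PD π D'' D' := ⟨by rw [e1]; exact h1, by rw [e2]; exact h2⟩
        rw [Set.indicator_of_mem h3, Set.indicator_of_mem h1, Set.indicator_of_mem h2, Pi.one_apply, one_mul]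
      · have h3 : v * m ∉ PD π D'' D' := fun h => h2 (by rw [← e2]; exact h.2)
        rw [Set.indicator_of_notMem h3, Set.indicator_of_notMem h2, mul_zero]
    · have h3 : v * m ∉ PD π D'' D' := fun h => h1 (by rw [← e1]; exact h.1)
      rw [Set.indicator_of_notMem h3, Set.indicator_of_notMem h1, zero_mul]
  rw [e0, h1, key, lintegral_mul_const _ (measurable_one.indicator hM.meas), lintegral_indicator_one hM.meas]

end gen

variable {ι M N : Type} [Fintype ι] [DecidableEq ι] [AddCommGroup M] [Module ℚ M] [AddCommGroup N] [Module ℚ N]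
  {P : RootPairing ι ℚ M N} [P.IsCrystallographic] [P.IsReduced] [P.IsIrreducible] [P.IsRootSystem]

variable {b : P.Base} {L : Type} [Field L] [NumberField L] {H : Subgroup (GK b L)}

/-- The covolume of `Γ_V` is positive and finite. -/
theorem vV (hT : H = ⊤) {J : Finset b.support} {𝔫 : Ideal (𝓞 L)} {Γ₁ : Subgroup H} (hG : ∀ γ ∈ Γ₁, γ.1 ∈ G1 b 𝔫) (g : H) (hcc : CCH H (cjG Γ₁ g))
    {ν νV νM : Measure (UHR H)} [ν.IsHaarMeasure] (hM : Msr (kUH H) (piU hT J) (qU hT J) ν νV νM) {D₁ D'' : Set (UHR H)} (sD : H33W.SF ((cjG Γ₁ g).subgroupOf (HUH H)) D₁)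
    (sV : H33W.SF ((cjG Γ₁ g).subgroupOf (HUH H) ⊓ (qU hT J).ker) D'') : νV D'' ≠ 0 ∧ νV D'' ≠ ⊤ := by
  have := th_count H
  obtain ⟨D', sM⟩ := sf_map hT J hG g
  have h1 := vol_prod (prjU hT J) sV sM sD hM
  have h2 := th2_fin H hcc sD ν
  have h3 := th2_pos H sD ν
  rw [h1] at h2 h3
  have h4 : νM D' ≠ 0 := fun h => h3 (by rw [h, zero_mul])
  have h5 : νV D'' ≠ 0 := fun h => h3 (by rw [h, mul_zero])
  exact ⟨h5, fun h => h2 (by rw [h, ENNReal.mul_top h4])⟩

end

end Pool.Agent.Lib.L8.FU
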