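import Pool.Agent.Lib.L8.FU.W5
import Pool.Agent.Lib.L8.FC.N3

/-!
# FU, W6: the count (C3) from the word clause
-/

namespace Pool.Agent.Lib.L8.FU

set_option linter.unusedSectionVars false

noncomputable section

variable {ι M N : Type} [Fintype ι] [DecidableEq ι] [AddCommGroup M] [Module ℚ M] [AddCommGroup N] [Module ℚ N]
  {P : RootPairing ι ℚ M N} [P.IsCrystallographic] [P.IsReduced] [P.IsIrreducible] [P.IsRootSystem]

/-- **The count (C3)** from the word clause. -/
theorem countH_word (b : P.Base) (L : Type) [Field L] [NumberField L] {nu : Equiv.Perm ι → ℝ} (h : FC.WordC b nu) : FL.CountH b L nu := countH_of b L fun w hw => h w hw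

end

end Pool.Agent.Lib.L8.FU
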