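import Pool.Agent.Lib.L8.FU.W5

/-!
# FU, W7: the count (C3) for every bound of the torus part

`KapH`: the bound `C N ^ (ε - κ)` for the torus part; `countH_kap`: the count from `KapH` for one reduced word of every `w_J`.
-/

namespace Pool.Agent.Lib.L8.FU

set_option linter.unusedSectionVars false

open MeasureTheory Matrix NumberField IsDedekindDomain Pool.Agent.Lib.H89N Pool.Agent.Lib.H33W Pool.Agent.Lib.H67G Pool.Agent.Lib.L1S Pool.Agent.Lib.L8 Pool.Agent.Lib.L8.FL Pool.Agent.Lib.L8.FC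
open scoped ENNReal

noncomputable section

variable {ι M N : Type} [Fintype ι] [DecidableEq ι] [AddCommGroup M] [Module ℚ M] [AddCommGroup N] [Module ℚ N]
  {P : RootPairing ι ℚ M N} [P.IsCrystallographic] [P.IsReduced] [P.IsIrreducible] [P.IsRootSystem]

/-- The bound of the torus part. -/
def KapH (b : P.Base) (L : Type) [Field L] [NumberField L] (J : Finset b.support) (Lw : List b.support) (κ : ℤ) (ε : ℝ) : Prop :=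
  ∃ C : ℝ, 0 < C ∧ ∀ 𝔫 : Ideal (𝓞 L), 𝔫 ≠ ⊥ → ∀ z : GK b L, (∀ v : HeightOneSpectrum (𝓞 L), aI v 𝔫 ≠ 1 → z ∈ Kv b 𝔫 v) → ∀ Λ : Subgroup (GK b L), (∀ l ∈ Λ, l ∈ NJ b L J ∧ z⁻¹ * l * z ∈ G1 b 𝔫) →
    ∀ τ ∈ TK b L, rs (NJ b L J) Λ ((F2.Xt b L J Lw 𝔫 z z τ).indicator 1) ≤ ENNReal.ofReal (C * (Ideal.absNorm 𝔫 : ℝ) ^ (ε - κ)) * rs (NJ b L J) Λ ((F2.Lt b L J Lw 𝔫 z z τ).indicator 1)

/-- `κ = 0`. -/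
theorem kapH_zero (b : P.Base) (L : Type) [Field L] [NumberField L] {ε : ℝ} (hε : 0 < ε) (J : Finset b.support) (Lw : List b.support) : KapH b L J Lw 0 ε := kap b L hε (Or.inl rfl)

/-- The count for one `w`. -/
theorem count_wK (b : P.Base) (L : Type) [Field L] [NumberField L] {nu : Equiv.Perm ι → ℝ} {w : Equiv.Perm ι} (hC : IsC b w) {ε : ℝ} (hε : 0 < ε) (A : ℝ)
    (hw : ∃ (Lw : List b.support) (κ : ℤ), RedW b Lw ∧ wW b Lw = w ∧ (∀ J, IsWJ b J w → KapH b L J Lw κ ε) ∧ nu w ≤ FC.gn b (eJ b (1 + ε) (Js b w)) Finset.univ Finset.univ Lw + κ) :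
    ∃ C : ℝ, 0 < C ∧ ∀ 𝔫 : Ideal (𝓞 L), 𝔫 ≠ ⊥ → ∀ Γ₁ : Subgroup (⊤ : Subgroup (GK b L)), (∀ γ ∈ Γ₁, γ.1 ∈ G1 b 𝔫) → Dsc ⊤ Γ₁ →
    (∀ h : (⊤ : Subgroup (GK b L)), CCH ⊤ (cjG Γ₁ h)) → ∀ g : (⊤ : Subgroup (GK b L)), (∀ w : HeightOneSpectrum (𝓞 L), aI w 𝔫 ≠ 1 → (g⁻¹).1 ∈ Kv b 𝔫 w) →
    ∀ (x : HRt (⊤ : Subgroup (GK b L))) (Cs : Set (HRt (⊤ : Subgroup (GK b L)))), (∀ y ∈ ST ⊤ x Cs, ∀ y' ∈ ST ⊤ x Cs, ∀ w i, |Hw w y i - Hw w y' i| ≤ A) → MeasurableSet (ST ⊤ x Cs) →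
    ∀ (ν : Measure (UHR (⊤ : Subgroup (GK b L)))) [ν.IsHaarMeasure] (D₁ : Set (UHR (⊤ : Subgroup (GK b L)))), H33W.SF ((cjG Γ₁ g).subgroupOf (HUH ⊤)) D₁ → ∀ y : HRt (⊤ : Subgroup (GK b L)),
      ∫⁻ t in D₁, ce (cjG Γ₁ g ⊓ HUH ⊤) ((cjG Γ₁ g : Set (⊤ : Subgroup (GK b L))) ∩ {γ | γ.1 ∈ cell b L w})
        (fun γ => (ST ⊤ x Cs).indicator (fun z => ENNReal.ofReal (Fe (eJ b (1 + ε) (Js b w)) z)) (embH ⊤ γ * ((t : HRt (⊤ : Subgroup (GK b L))) * y))) ∂ν ≤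
      ENNReal.ofReal (C * (Ideal.absNorm 𝔫 : ℝ) ^ (ε - nu w) * (fe b (eJ b (-(1 + ε)) (Js b w⁻¹)) (g⁻¹).1 / fe b (eJ b (1 + ε) (Js b w)) (g⁻¹).1)) *
        ENNReal.ofReal (Fe (eJ b (-(1 + ε)) (Js b w⁻¹)) y) * ν D₁ := by
  obtain ⟨J, -, hJ⟩ := hC
  obtain ⟨Lw, κ, hred, hwL, hκ, hnu⟩ := hw
  have hJ' : IsWJ b J (wW b Lw) := by rw [hwL]; exact hJ
  have hT : (⊤ : Subgroup (GK b L)) = ⊤ := rfl
  set e : b.support → ℝ := eJ b (1 + ε) (Js b w) with he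
  have hP : PosW b (1 + ε) e Lw := by
    have h1 := posW_eJ b hred hJ' (c := 1 + ε) (by linarith)
    rwa [hwL] at h1
  have hE : eW b e Lw = eJ b (-(1 + ε)) (Js b w⁻¹) := by
    have h1 := eW_eJ b (1 + ε) hJ'
    rw [hwL] at h1
    rw [he, h1, Js_inv hJ]
  obtain ⟨ν0, h0⟩ := rh_ex (NoH_closed (H := (⊤ : Subgroup (GK b L))) J)
  obtain ⟨C, hC, h9⟩ := u9 hT (show (1 : ℝ) < 1 + ε by linarith) hred hJ' e hP A h0 (exists_D0 hT J h0)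
  obtain ⟨Ct, hCt, hk⟩ := hκ J hJ
  refine ⟨Ct * C, mul_pos hCt hC, ?_⟩
  intro 𝔫 h𝔫 Γ₁ hG hD hcc g hg x Cs hA mS ν _ D₁ sD y
  obtain ⟨νM, hM⟩ := exists_msr hT J h0 ν
  obtain ⟨D'', sV⟩ := sf_ker hT J hD g
  obtain ⟨v0, vt⟩ := vV hT hG g (hcc g) hM sD sV
  have hN : (1 : ℝ) ≤ (Ideal.absNorm 𝔫 : ℝ) := by
    have h2 : Ideal.absNorm 𝔫 ≠ 0 := fun h => h𝔫 (Ideal.absNorm_eq_zero_iff.1 h)
    exact_mod_cast Nat.one_le_iff_ne_zero.2 h2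
  have hN0 : (0 : ℝ) < (Ideal.absNorm 𝔫 : ℝ) := by linarith
  set n : (⊤ : Subgroup (GK b L)) := ⟨nW b L Lw, trivial⟩ with hn
  have h1 := count_pairs hT hJ hwL (n := n) rfl hG g mS e hM sD sV v0 vt y
  refine h1.trans ?_
  have hΛ : ∀ l ∈ ((cjG Γ₁ g).subgroupOf (HUH ⊤) ⊓ (qU hT J).ker).map (inU (⊤ : Subgroup (GK b L))), l ∈ NJ b L J ∧ ((g⁻¹).1)⁻¹ * l * (g⁻¹).1 ∈ G1 b 𝔫 := by
    rintro _ ⟨l, hl, rfl⟩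
    refine ⟨(qU_ker hT J l).1 hl.2, ?_⟩
    have h2 := hG _ hl.1
    have e1 : ((g⁻¹ : (⊤ : Subgroup (GK b L))).1)⁻¹ * (inU (⊤ : Subgroup (GK b L)) l) * (g⁻¹).1 = (g * l.1 * g⁻¹).1 := by
      rw [inU_apply]
      show (g⁻¹ : (⊤ : Subgroup (GK b L))).1⁻¹ * l.1.1 * (g⁻¹).1 = g.1 * l.1.1 * (g⁻¹).1
      congr 2
    rw [e1]
    exact h2
  have h2 := h9 𝔫 h𝔫 Γ₁ hG hcc g hg (ST ⊤ x Cs) hA mS (ENNReal.ofReal (Ct * (Ideal.absNorm 𝔫 : ℝ) ^ (ε - κ))) (hk 𝔫 h𝔫 (g⁻¹).1 hg _ hΛ) n rfl D'' sV y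
  refine (mul_le_mul' (ENNReal.div_le_div_right h2 _) le_rfl).trans ?_
  rw [ENNReal.mul_div_cancel_right v0 vt, hE]
  refine mul_le_mul' (mul_le_mul' ?_ le_rfl) le_rfl
  have f1 : 0 < fe b (eJ b (-(1 + ε)) (Js b w⁻¹)) (g⁻¹).1 := FI.fe_pos b _ _
  have f2 : 0 < fe b e (g⁻¹).1 := FI.fe_pos b _ _
  rw [← ENNReal.ofReal_mul (by positivity)]
  refine ENNReal.ofReal_le_ofReal ?_
  have h3 : (Ideal.absNorm 𝔫 : ℝ) ^ (ε - κ) * (Ideal.absNorm 𝔫 : ℝ) ^ (-H29F.ga b e Finset.univ Finset.univ Lw) ≤ (Ideal.absNorm 𝔫 : ℝ) ^ (ε - nu w) := by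
    rw [← Real.rpow_add hN0]
    refine Real.rpow_le_rpow_of_exponent_le hN ?_
    have h4 := hnu
    rw [gn_ga] at h4
    linarith
  calc Ct * (Ideal.absNorm 𝔫 : ℝ) ^ (ε - κ) * (C * (Ideal.absNorm 𝔫 : ℝ) ^ (-H29F.ga b e Finset.univ Finset.univ Lw) * (fe b (eJ b (-(1 + ε)) (Js b w⁻¹)) (g⁻¹).1 / fe b e (g⁻¹).1))
      = Ct * C * ((Ideal.absNorm 𝔫 : ℝ) ^ (ε - κ) * (Ideal.absNorm 𝔫 : ℝ) ^ (-H29F.ga b e Finset.univ Finset.univ Lw)) * (fe b (eJ b (-(1 + ε)) (Js b w⁻¹)) (g⁻¹).1 / fe b e (g⁻¹).1) := by ring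
    _ ≤ _ := by
      refine mul_le_mul_of_nonneg_right (mul_le_mul_of_nonneg_left h3 (by positivity)) (by positivity)

/-- **The count (C3).** -/
theorem countH_kap (b : P.Base) (L : Type) [Field L] [NumberField L] {nu : Equiv.Perm ι → ℝ} (hw : ∀ w, IsC b w → ∀ ε : ℝ, 0 < ε → ε ≤ 1 / 2 → ∃ (Lw : List b.support) (κ : ℤ), RedW b Lw ∧ wW b Lw = w ∧
    (∀ J, IsWJ b J w → KapH b L J Lw κ ε) ∧ nu w ≤ FC.gn b (eJ b (1 + ε) (Js b w)) Finset.univ Finset.univ Lw + κ) : CountH b L nu := by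
  classical
  intro ε hε hε2 A
  have h1 : ∀ w : Equiv.Perm ι, ∃ C : ℝ, 0 < C ∧ (IsC b w → ∀ 𝔫 : Ideal (𝓞 L), 𝔫 ≠ ⊥ → ∀ Γ₁ : Subgroup (⊤ : Subgroup (GK b L)), (∀ γ ∈ Γ₁, γ.1 ∈ G1 b 𝔫) → Dsc ⊤ Γ₁ →
    (∀ h : (⊤ : Subgroup (GK b L)), CCH ⊤ (cjG Γ₁ h)) → ∀ g : (⊤ : Subgroup (GK b L)), (∀ w : HeightOneSpectrum (𝓞 L), aI w 𝔫 ≠ 1 → (g⁻¹).1 ∈ Kv b 𝔫 w) →
    ∀ (x : HRt (⊤ : Subgroup (GK b L))) (Cs : Set (HRt (⊤ : Subgroup (GK b L)))), (∀ y ∈ ST ⊤ x Cs, ∀ y' ∈ ST ⊤ x Cs, ∀ w i, |Hw w y i - Hw w y' i| ≤ A) → MeasurableSet (ST ⊤ x Cs) →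
    ∀ (ν : Measure (UHR (⊤ : Subgroup (GK b L)))) [ν.IsHaarMeasure] (D₁ : Set (UHR (⊤ : Subgroup (GK b L)))), H33W.SF ((cjG Γ₁ g).subgroupOf (HUH ⊤)) D₁ → ∀ y : HRt (⊤ : Subgroup (GK b L)),
      ∫⁻ t in D₁, ce (cjG Γ₁ g ⊓ HUH ⊤) ((cjG Γ₁ g : Set (⊤ : Subgroup (GK b L))) ∩ {γ | γ.1 ∈ cell b L w})
        (fun γ => (ST ⊤ x Cs).indicator (fun z => ENNReal.ofReal (Fe (eJ b (1 + ε) (Js b w)) z)) (embH ⊤ γ * ((t : HRt (⊤ : Subgroup (GK b L))) * y))) ∂ν ≤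
      ENNReal.ofReal (C * (Ideal.absNorm 𝔫 : ℝ) ^ (ε - nu w) * (fe b (eJ b (-(1 + ε)) (Js b w⁻¹)) (g⁻¹).1 / fe b (eJ b (1 + ε) (Js b w)) (g⁻¹).1)) *
        ENNReal.ofReal (Fe (eJ b (-(1 + ε)) (Js b w⁻¹)) y) * ν D₁) := by
    intro w
    by_cases hC : IsC b w
    · obtain ⟨C, hC0, h⟩ := count_wK b L hC hε A (hw w hC ε hε hε2)
      exact ⟨C, hC0, fun _ => h⟩
    · exact ⟨1, one_pos, fun h => absurd h hC⟩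
  choose C hC h2 using h1
  refine ⟨∑ w, C w, Finset.sum_pos (fun w _ => hC w) ⟨1, Finset.mem_univ _⟩, ?_⟩
  rintro H rfl 𝔫 h𝔫 Γ₁ hG hD - hcc g hg x Cs hA mS ν _ D₁ sD w hw' y -
  refine (h2 w hw' 𝔫 h𝔫 Γ₁ hG hD hcc g hg x Cs hA mS ν D₁ sD (x * y)).trans ?_
  refine mul_le_mul' (mul_le_mul' (ENNReal.ofReal_le_ofReal ?_) le_rfl) le_rfl
  have f1 : 0 < fe b (eJ b (-(1 + ε)) (Js b w⁻¹)) (g⁻¹).1 := FI.fe_pos b _ _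
  have f2 : 0 < fe b (eJ b (1 + ε) (Js b w)) (g⁻¹).1 := FI.fe_pos b _ _
  have h3 : C w ≤ ∑ w, C w := Finset.single_le_sum (f := C) (fun w _ => (hC w).le) (Finset.mem_univ w)
  have h4 : 0 ≤ (Ideal.absNorm 𝔫 : ℝ) ^ (ε - nu w) := Real.rpow_nonneg (Nat.cast_nonneg _) _
  exact mul_le_mul_of_nonneg_right (mul_le_mul_of_nonneg_right h3 h4) (by positivity)

end

end Pool.Agent.Lib.L8.FU
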