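import Pool.Agent.Lib.L8.FU.W7
import Pool.Agent.Lib.L8.F2.S3

/-!
# FU, W8: the count (C3) with a torus direction of any multiplicity `m ≥ 1`
-/

namespace Pool.Agent.Lib.L8.FU

set_option linter.unusedSectionVars false

open MeasureTheory Matrix NumberField IsDedekindDomain Pool.Agent.Lib.H89N Pool.Agent.Lib.H33W Pool.Agent.Lib.H67G Pool.Agent.Lib.L1S Pool.Agent.Lib.L8 Pool.Agent.Lib.L8.FL Pool.Agent.Lib.L8.FC
open scoped ENNReal

noncomputable section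

variable {ι M N : Type} [Fintype ι] [DecidableEq ι] [AddCommGroup M] [Module ℚ M] [AddCommGroup N] [Module ℚ N]
  {P : RootPairing ι ℚ M N} [P.IsCrystallographic] [P.IsReduced] [P.IsIrreducible] [P.IsRootSystem]

/-- A torus direction gives `κ = 1`. -/
theorem kapH_one (b : P.Base) (L : Type) [Field L] [NumberField L] {ε : ℝ} (hε : 0 < ε) (J : Finset b.support) {Lw : List b.support} {i k : b.support} {m : ℕ} (hm : 1 ≤ m)
    (hik : pj b i (Sum.inr (k : ι)) - pj b i (Sum.inr ((wW b Lw)⁻¹ (k : ι))) = m ∨ pj b i (Sum.inr (k : ι)) - pj b i (Sum.inr ((wW b Lw)⁻¹ (k : ι))) = -m) : KapH b L J Lw 1 ε := by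
  obtain ⟨C, hC, h⟩ := F2.torus_gainm_rs b L hε
  refine ⟨C, hC, fun 𝔫 h𝔫 z hz Λ hΛ τ hτ => ?_⟩
  have h1 := h J Lw i k m hm hik 𝔫 h𝔫 z z τ hz hz hτ Λ hΛ _ subset_rfl
  refine h1.trans (le_of_eq ?_)
  push_cast
  rfl

/-- The word clause with any multiplicity. -/
def WordM (b : P.Base) (nu : Equiv.Perm ι → ℝ) : Prop :=
  ∀ w, IsC b w → ∃ (L : List b.support) (κ : ℤ), RedW b L ∧ wW b L = w ∧
    (κ = 0 ∨ (κ = 1 ∧ ∃ (i k : b.support) (m : ℕ), 1 ≤ m ∧
      (pj b i (Sum.inr (k : ι)) - pj b i (Sum.inr ((wW b L)⁻¹ (k : ι))) = m ∨ pj b i (Sum.inr (k : ι)) - pj b i (Sum.inr ((wW b L)⁻¹ (k : ι))) = -m))) ∧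
    ∀ c : ℝ, 1 ≤ c → nu w ≤ FC.gn b (eJ b c (Js b w)) Finset.univ Finset.univ L + κ

/-- **The count (C3)** from the word clause with any multiplicity. -/
theorem countH_wordM (b : P.Base) (L : Type) [Field L] [NumberField L] {nu : Equiv.Perm ι → ℝ} (h : WordM b nu) : CountH b L nu := by
  refine countH_kap b L fun w hw ε hε hε2 => ?_
  obtain ⟨Lw, κ, h1, h2, h3, h4⟩ := h w hw
  refine ⟨Lw, κ, h1, h2, fun J hJ => ?_, h4 (1 + ε) (by linarith)⟩
  rcases h3 with rfl | ⟨rfl, i, k, m, hm, hik⟩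
  · exact kapH_zero b L hε J Lw
  · exact kapH_one b L hε J hm hik

end

end Pool.Agent.Lib.L8.FU
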