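import Pool.Agent.Lib.L8.FU.W8
import Pool.Agent.Lib.L8.FL.BR
import Pool.Agent.Lib.L8.QF.TG5

/-!
# FU, W9: the count (C3) with the torus gain of full rank
-/

namespace Pool.Agent.Lib.L8.FU

set_option linter.unusedSectionVars false

open MeasureTheory Matrix NumberField IsDedekindDomain Pool.Agent.Lib.H89N Pool.Agent.Lib.H33W Pool.Agent.Lib.H67G Pool.Agent.Lib.L1S Pool.Agent.Lib.L8 Pool.Agent.Lib.L8.FL Pool.Agent.Lib.L8.FC
open scoped ENNReal

noncomputable section

variable {ι M N : Type} [Fintype ι] [DecidableEq ι] [AddCommGroup M] [Module ℚ M] [AddCommGroup N] [Module ℚ N]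
  {P : RootPairing ι ℚ M N} [P.IsCrystallographic] [P.IsReduced] [P.IsIrreducible] [P.IsRootSystem]

theorem up_self (L : Type) [Field L] [NumberField L] (𝔫 : Ideal (𝓞 L)) : L1S.up (K := L) L 𝔫 = 𝔫 := by
  unfold L1S.up
  have h := Ideal.map_id 𝔫
  convert h using 2
  ext x
  rfl

/-- The torus gain over `H = ⊤`, `K = L`. -/
theorem kapH_of_kapG (b : P.Base) (L : Type) [Field L] [NumberField L] {J : Finset b.support} {Lw : List b.support} {κ : ℤ} {ε : ℝ} (h : QF.KapG L (⊤ : Subgroup (GK b L)) J Lw κ ε) : KapH b L J Lw κ ε := by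
  obtain ⟨C, hC, h⟩ := h
  refine ⟨C, hC, fun 𝔫 h𝔫 z hz Λ hΛ τ hτ => ?_⟩
  have h1 := h 𝔫 h𝔫 z
  rw [up_self, inf_top_eq] at h1
  exact h1 hz Λ (fun l hl => (hΛ l hl).1) (fun l hl => (hΛ l hl).2) τ hτ

/-- **The gain `r`** from a minor of `1 - w` of size `r`. -/
theorem kapH_kr (b : P.Base) (L : Type) [Field L] [NumberField L] {ε : ℝ} (hε : 0 < ε) (J : Finset b.support) {Lw : List b.support} {w : Equiv.Perm ι} (hw : wW b Lw = w) {r : ℕ} (h : KR b w r) : KapH b L J Lw r ε := by
  obtain ⟨g, f, hd⟩ := h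
  subst hw
  have h1 : QF.KapG L (⊤ : Subgroup (GK b L)) J Lw (Fintype.card (Fin r)) ε := by
    refine QF.kapG_det (q := fun l j => if j = f l then 1 else 0) (k := g) QF.scl_top (QF.rq_top _) ?_ hε
    have e : (Matrix.of fun i l : Fin r => QF.pq b (wW b Lw) (fun j => if j = f l then 1 else 0) (g i)) = Matrix.of fun a c : Fin r => FL.pK b (wW b Lw) (g a) (f c) := by
      ext i l
      simp only [Matrix.of_apply]
      unfold QF.pq FL.pK
      simp
    rw [e]
    exact hd
  rw [Fintype.card_fin] at h1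
  exact kapH_of_kapG b L (by exact_mod_cast h1)

/-- **The count (C3)** with the torus gain of full rank. -/
theorem countH_wordR (b : P.Base) (L : Type) [Field L] [NumberField L] {nu : Equiv.Perm ι → ℝ} (h : WordR b nu) : CountH b L nu := by
  refine countH_kap b L fun w hw ε hε hε2 => ?_
  obtain ⟨Lw, r, h1, h2, h3, h4⟩ := h w hw
  refine ⟨Lw, (r : ℤ), h1, h2, fun J _ => kapH_kr b L hε J h2 h3, ?_⟩
  have := h4 (1 + ε) (by linarith)
  push_cast
  exact this

/-- **The count (C3)** for the exponents `gain + rank (1 - w)`. -/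
theorem countH_nuB (b : P.Base) (L : Type) [Field L] [NumberField L] : CountH b L (nuB b) := countH_wordR b L (wordR_nuB b)

end

end Pool.Agent.Lib.L8.FU
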